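import Pool.Agent.MG.Bub.BlBC

/-!
# The glued bubble over a scheme with two affine charts
-/

set_option linter.unusedSectionVars false

open CategoryTheory CategoryTheory.Limits AlgebraicGeometry

namespace Pool.Agent.MG

section

variable {R : Type} [CommRing R] (z s : R)

theorem isIso_spMap {A B : Type} [CommRing A] [CommRing B] (f : A →+* B)
    (hf : Function.Bijective f) : IsIso (spMap f) := by
  let e := RingEquiv.ofBijective f hf
  exact inferInstanceAs (IsIso (Scheme.Spec.mapIso e.toCommRingCatIso.op).hom)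

theorem nr_bijective (hz : IsUnit z) : Function.Bijective (algebraMap R (NR z s)) := by
  obtain ⟨u, rfl⟩ := hz
  let f : NR (u : R) s →+* R := nrLift (RingHom.id R) ((↑u⁻¹ : R) * s) (by
    simp only [RingHom.id_apply]
    rw [← mul_assoc, Units.mul_inv, one_mul])
  have h1 : ∀ r, f (algebraMap R _ r) = r := fun r => nrLift_of _ _ _ _
  refine ⟨fun a b hab => ?_, fun n => ⟨f n, ?_⟩⟩
  · rw [← h1 a, hab, h1]
  · have h2 : (algebraMap R (NR (u : R) s)).comp f = RingHom.id _ := by
      apply nr_hom_ext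
      · intro r
        simp only [RingHom.comp_apply, RingHom.id_apply, h1]
      · simp only [RingHom.comp_apply, RingHom.id_apply]
        have h3 : f (nw (u : R) s) = (↑u⁻¹ : R) * s := nrLift_w _ _ _
        rw [h3, map_mul, ← nw_rel, ← mul_assoc, ← map_mul, Units.inv_mul, map_one, one_mul]
    exact congrArg (fun g => g n) h2

/-- A surjective open immersion is an isomorphism. -/
theorem isIso_of_surj {X Y : Scheme.{0}} (f : X ⟶ Y) [IsOpenImmersion f]
    (h : ∀ y : Y, y ∈ Set.range f) : IsIso f := by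
  apply isIso_of_isOpenImmersion_of_opensRange_eq_top
  ext y
  simpa using h y

theorem isIso_blπ_left (hz : IsUnit z) : IsIso (blπ z s) := by
  have h1 : IsIso (bl1 z s) := by
    apply isIso_of_surj
    intro x
    rcases bl_cover z s x with h | ⟨y, rfl⟩
    · exact h
    · rw [bl2_mem_range_bl1]
      intro hy
      have h2 : algebraMap R (NR s z) z ∈ y.asIdeal := by
        rw [← nw_rel]
        exact Ideal.mul_mem_left _ _ hy
      exact y.2.ne_top (Ideal.eq_top_of_isUnit_mem _ h2 (hz.map _))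
  have h2 : IsIso (bl1 z s ≫ blπ z s) := by
    rw [bl1_π]
    exact isIso_spMap _ (nr_bijective z s hz)
  exact IsIso.of_isIso_comp_left (bl1 z s) (blπ z s)

theorem isIso_blπ_right (hs : IsUnit s) : IsIso (blπ z s) := by
  have h1 : IsIso (bl2 z s) := by
    apply isIso_of_surj
    intro x
    rcases bl_cover z s x with ⟨y, rfl⟩ | h
    · rw [bl1_mem_range_bl2]
      intro hy
      have h2 : algebraMap R (NR z s) s ∈ y.asIdeal := by
        rw [← nw_rel]
        exact Ideal.mul_mem_left _ _ hy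
      exact y.2.ne_top (Ideal.eq_top_of_isUnit_mem _ h2 (hs.map _))
    · exact h
  have h2 : IsIso (bl2 z s ≫ blπ z s) := by
    rw [bl2_π]
    exact isIso_spMap _ (nr_bijective s z hs)
  exact IsIso.of_isIso_comp_left (bl2 z s) (blπ z s)

end

section

variable {A1 A2 A12 : Type} [CommRing A1] [CommRing A2] [CommRing A12]
  (α1 : A1 →+* A12) (α2 : A2 →+* A12) [IsOpenImmersion (spMap α1)] [IsOpenImmersion (spMap α2)]
  (z s : A1) (hz : IsUnit (α1 z))

/-- The open subscheme of the blow up over the intersection of the charts. -/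
noncomputable def blj : Sp A12 ⟶ Bl z s :=
  have := isIso_blπ_left (α1 z) (α1 s) hz
  inv (blπ (α1 z) (α1 s)) ≫ blMap α1 z s

theorem blj_isPullback : IsPullback (blj α1 z s hz) (𝟙 (Sp A12)) (blπ z s) (spMap α1) := by
  have := isIso_blπ_left (α1 z) (α1 s) hz
  have h := blMap_isPullback α1 z s
  have h' : IsPullback (inv (blπ (α1 z) (α1 s))) (𝟙 (Sp A12)) (blπ (α1 z) (α1 s)) (𝟙 (Sp A12)) :=
    IsPullback.of_horiz_isIso ⟨by simp⟩
  have h2 := h'.paste_horiz h
  rw [Category.id_comp] at h2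
  exact h2

instance : IsOpenImmersion (blj α1 z s hz) :=
  MorphismProperty.of_isPullback (blj_isPullback α1 z s hz).flip inferInstance

@[reassoc] theorem blj_π : blj α1 z s hz ≫ blπ z s = spMap α1 := by
  rw [(blj_isPullback α1 z s hz).w, Category.id_comp]

/-- The bubble: the blow up of the union of `Spec A₁` and `Spec A₂` in two functions `z`, `s` on
`Spec A₁`, `z` invertible on the intersection `Spec A₁₂`. -/
noncomputable def Bub : Scheme.{0} := pushout (blj α1 z s hz) (spMap α2)

/-- The blown up chart. -/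
noncomputable def bubl : Bl z s ⟶ Bub α1 α2 z s hz := pushout.inl (blj α1 z s hz) (spMap α2)

/-- The second chart. -/
noncomputable def bubr : Sp A2 ⟶ Bub α1 α2 z s hz := pushout.inr (blj α1 z s hz) (spMap α2)

instance : IsOpenImmersion (bubl α1 α2 z s hz) := glue2_inl _ _

instance : IsOpenImmersion (bubr α1 α2 z s hz) := glue2_inr _ _

@[reassoc] theorem bub_cond : blj α1 z s hz ≫ bubl α1 α2 z s hz = spMap α2 ≫ bubr α1 α2 z s hz :=
  pushout.condition

theorem bub_isPullback : IsPullback (blj α1 z s hz) (spMap α2) (bubl α1 α2 z s hz)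
    (bubr α1 α2 z s hz) := glue2_isPullback _ _

theorem bub_cover (x : Bub α1 α2 z s hz) :
    x ∈ Set.range (bubl α1 α2 z s hz) ∨ x ∈ Set.range (bubr α1 α2 z s hz) :=
  glue2_surj _ _ x

variable {X : Scheme.{0}} (i1 : Sp A1 ⟶ X) (i2 : Sp A2 ⟶ X)

/-- The projection of the bubble to the union of the charts. -/
noncomputable def bubc (hi : spMap α1 ≫ i1 = spMap α2 ≫ i2) : Bub α1 α2 z s hz ⟶ X :=
  pushout.desc (blπ z s ≫ i1) i2 (by rw [blj_π_assoc, hi])

@[reassoc (attr := simp)] theorem bubl_c (hi : spMap α1 ≫ i1 = spMap α2 ≫ i2) :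
    bubl α1 α2 z s hz ≫ bubc α1 α2 z s hz i1 i2 hi = blπ z s ≫ i1 :=
  pushout.inl_desc _ _ _

@[reassoc (attr := simp)] theorem bubr_c (hi : spMap α1 ≫ i1 = spMap α2 ≫ i2) :
    bubr α1 α2 z s hz ≫ bubc α1 α2 z s hz i1 i2 hi = i2 :=
  pushout.inr_desc _ _ _

variable [IsOpenImmersion i1] [IsOpenImmersion i2]
  (hi : IsPullback (spMap α1) (spMap α2) i1 i2)

theorem bubc_isPullback1 : IsPullback (bubl α1 α2 z s hz) (blπ z s)
    (bubc α1 α2 z s hz i1 i2 hi.w) i1 := by
  refine piece_isPullback (j := i2) (j' := bubr α1 α2 z s hz) (hY := 𝟙 (Sp A2)) (by simp)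
    (by simp) (bub_cover α1 α2 z s hz) ?_
  rintro y ⟨x, hx⟩
  obtain ⟨w, -, hw⟩ := Scheme.exists_preimage_of_isPullback hi x y hx
  refine ⟨blj α1 z s hz w, ?_⟩
  rw [← Scheme.Hom.comp_apply, bub_cond, Scheme.Hom.comp_apply]
  congr 1

theorem bubc_isPullback2 : IsPullback (bubr α1 α2 z s hz) (𝟙 (Sp A2))
    (bubc α1 α2 z s hz i1 i2 hi.w) i2 := by
  refine piece_isPullback (j := i1) (j' := bubl α1 α2 z s hz) (hY := blπ z s) (by simp)
    (by simp) (fun x => (bub_cover α1 α2 z s hz x).symm) ?_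
  rintro y ⟨x, hx⟩
  obtain ⟨w, hw, -⟩ := Scheme.exists_preimage_of_isPullback hi (blπ z s y) x hx.symm
  obtain ⟨w', hw', -⟩ := Scheme.exists_preimage_of_isPullback (blj_isPullback α1 z s hz) y w
    hw.symm
  refine ⟨spMap α2 w', ?_⟩
  rw [← hw', ← Scheme.Hom.comp_apply, ← bub_cond, Scheme.Hom.comp_apply]

variable (cov : ∀ x : X, x ∈ Set.range i1 ∨ x ∈ Set.range i2)

include cov in
theorem bubc_proper : IsProper (bubc α1 α2 z s hz i1 i2 hi.w) :=
  two_target @IsProper _ i1 i2 cov (bubc_isPullback1 α1 α2 z s hz i1 i2 hi)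
    (bubc_isPullback2 α1 α2 z s hz i1 i2 hi) inferInstance inferInstance

include cov in
theorem bubc_isIso (hs : IsUnit s) : IsIso (bubc α1 α2 z s hz i1 i2 hi.w) :=
  two_target (MorphismProperty.isomorphisms Scheme) _ i1 i2 cov
    (bubc_isPullback1 α1 α2 z s hz i1 i2 hi) (bubc_isPullback2 α1 α2 z s hz i1 i2 hi)
    (isIso_blπ_right z s hs) (MorphismProperty.isomorphisms.infer_property _)

end

end Pool.Agent.MG
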