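import Pool.Agent.MG.StmtsA
import Pool.Agent.MG.Bub.Glue

/-!
# The charts of a curve and of its constant families as spectra
-/

open CategoryTheory CategoryTheory.Limits AlgebraicGeometry TensorProduct

namespace Pool.Agent.MG

section

variable {n : ℕ} {k : Type} [Field k] {C : Fam n k} {T : TC k} {ct : Charted T C}

/-- `k ⊗ R ≅ R`. -/
noncomputable def lidE (k : Type) [Field k] (R : Type) [CommRing R] [Algebra k R] :
    k ⊗[k] R ≃+* R := (Algebra.TensorProduct.lid k R).toRingEquiv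

/-- The first chart of `C` as an open immersion of a spectrum. -/
noncomputable def io1 (ha : ct.Aff) : Sp T.R1 ⟶ C.X :=
  spMap ((ct.eq1.symm.trans (lidE k T.R1) : Γ(C.X, ct.U1) ≃+* T.R1) : Γ(C.X, ct.U1) →+* T.R1) ≫
    ha.aff1.fromSpec

/-- The second chart of `C` as an open immersion of a spectrum. -/
noncomputable def io2 (ha : ct.Aff) : Sp T.R2 ⟶ C.X :=
  spMap ((ct.eq2.symm.trans (lidE k T.R2) : Γ(C.X, ct.U2) ≃+* T.R2) : Γ(C.X, ct.U2) →+* T.R2) ≫
    ha.aff2.fromSpec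

/-- The intersection of the charts of `C` as an open immersion of a spectrum. -/
noncomputable def io12 (ha : ct.Aff) : Sp T.R12 ⟶ C.X :=
  spMap ((ct.eq12.symm.trans (lidE k T.R12) : Γ(C.X, ct.U1 ⊓ ct.U2) ≃+* T.R12) :
    Γ(C.X, ct.U1 ⊓ ct.U2) →+* T.R12) ≫ ha.aff12.fromSpec

theorem isIso_spMap_equiv {A B : Type} [CommRing A] [CommRing B] (e : A ≃+* B) :
    IsIso (spMap (e : A →+* B)) :=
  isIso_spMap _ e.bijective

instance (ha : ct.Aff) : IsOpenImmersion (io1 ha) := by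
  unfold io1
  have := isIso_spMap_equiv (ct.eq1.symm.trans (lidE k T.R1))
  infer_instance

instance (ha : ct.Aff) : IsOpenImmersion (io2 ha) := by
  unfold io2
  have := isIso_spMap_equiv (ct.eq2.symm.trans (lidE k T.R2))
  infer_instance

instance (ha : ct.Aff) : IsOpenImmersion (io12 ha) := by
  unfold io12
  have := isIso_spMap_equiv (ct.eq12.symm.trans (lidE k T.R12))
  infer_instance

theorem range_iso_comp {X Y Z : Scheme.{0}} (f : X ⟶ Y) (g : Y ⟶ Z) [IsIso f] :
    Set.range (f ≫ g) = Set.range g := by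
  ext z
  constructor
  · rintro ⟨x, rfl⟩
    exact ⟨f x, by rw [← Scheme.Hom.comp_apply]⟩
  · rintro ⟨y, rfl⟩
    refine ⟨(inv f) y, ?_⟩
    rw [← Scheme.Hom.comp_apply, IsIso.inv_hom_id_assoc]

theorem range_io1 (ha : ct.Aff) : Set.range (io1 ha) = (ct.U1 : Set C.X) := by
  unfold io1
  have := isIso_spMap_equiv (ct.eq1.symm.trans (lidE k T.R1))
  rw [range_iso_comp, ha.aff1.range_fromSpec]

theorem range_io2 (ha : ct.Aff) : Set.range (io2 ha) = (ct.U2 : Set C.X) := by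
  unfold io2
  have := isIso_spMap_equiv (ct.eq2.symm.trans (lidE k T.R2))
  rw [range_iso_comp, ha.aff2.range_fromSpec]

theorem range_io12 (ha : ct.Aff) : Set.range (io12 ha) = (ct.U1 ⊓ ct.U2 : Set C.X) := by
  unfold io12
  have := isIso_spMap_equiv (ct.eq12.symm.trans (lidE k T.R12))
  rw [range_iso_comp, ha.aff12.range_fromSpec]
  rfl

theorem io12_eq1 (ha : ct.Aff) : spMap (T.j1 : T.R1 →+* T.R12) ≫ io1 ha = io12 ha := by
  unfold io1 io12
  rw [← Category.assoc, ← spMap_comp]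
  have h1 : (T.j1 : T.R1 →+* T.R12).comp
      ((ct.eq1.symm.trans (lidE k T.R1) : Γ(C.X, ct.U1) ≃+* T.R1) : Γ(C.X, ct.U1) →+* T.R1) =
      ((ct.eq12.symm.trans (lidE k T.R12) : Γ(C.X, ct.U1 ⊓ ct.U2) ≃+* T.R12) :
        Γ(C.X, ct.U1 ⊓ ct.U2) →+* T.R12).comp (rs C.X inf_le_left) := by
    ext v
    obtain ⟨w, rfl⟩ := ct.eq1.surjective v
    simp only [RingHom.comp_apply]
    change T.j1 (lidE k T.R1 (ct.eq1.symm (ct.eq1 w))) =
      lidE k T.R12 (ct.eq12.symm (rs C.X inf_le_left (ct.t1 w)))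
    rw [RingEquiv.symm_apply_apply, ct.rs1]
    have h2 : ct.eq12.symm (ct.t12 (Algebra.TensorProduct.map (AlgHom.id k k) T.j1 w)) =
        Algebra.TensorProduct.map (AlgHom.id k k) T.j1 w := ct.eq12.symm_apply_apply _
    rw [h2]
    clear h2
    induction w with
    | zero => simp
    | tmul a b =>
      change T.j1 (a • b) = a • (T.j1 b)
      rw [map_smul]
    | add u v hu hv => simp only [map_add, hu, hv]
  rw [h1, spMap_comp, Category.assoc]
  congr 1
  exact ha.aff1.map_fromSpec ha.aff12 (homOfLE inf_le_left).op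

theorem io12_eq2 (ha : ct.Aff) : spMap (T.j2 : T.R2 →+* T.R12) ≫ io2 ha = io12 ha := by
  unfold io2 io12
  rw [← Category.assoc, ← spMap_comp]
  have h1 : (T.j2 : T.R2 →+* T.R12).comp
      ((ct.eq2.symm.trans (lidE k T.R2) : Γ(C.X, ct.U2) ≃+* T.R2) : Γ(C.X, ct.U2) →+* T.R2) =
      ((ct.eq12.symm.trans (lidE k T.R12) : Γ(C.X, ct.U1 ⊓ ct.U2) ≃+* T.R12) :
        Γ(C.X, ct.U1 ⊓ ct.U2) →+* T.R12).comp (rs C.X inf_le_right) := by
    ext v
    obtain ⟨w, rfl⟩ := ct.eq2.surjective v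
    simp only [RingHom.comp_apply]
    change T.j2 (lidE k T.R2 (ct.eq2.symm (ct.eq2 w))) =
      lidE k T.R12 (ct.eq12.symm (rs C.X inf_le_right (ct.t2 w)))
    rw [RingEquiv.symm_apply_apply, ct.rs2]
    have h2 : ct.eq12.symm (ct.t12 (Algebra.TensorProduct.map (AlgHom.id k k) T.j2 w)) =
        Algebra.TensorProduct.map (AlgHom.id k k) T.j2 w := ct.eq12.symm_apply_apply _
    rw [h2]
    clear h2
    induction w with
    | zero => simp
    | tmul a b =>
      change T.j2 (a • b) = a • (T.j2 b)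
      rw [map_smul]
    | add u v hu hv => simp only [map_add, hu, hv]
  rw [h1, spMap_comp, Category.assoc]
  congr 1
  exact ha.aff2.map_fromSpec ha.aff12 (homOfLE inf_le_right).op

include C ct in
theorem j1_open (ha : ct.Aff) : IsOpenImmersion (spMap (T.j1 : T.R1 →+* T.R12)) := by
  have h : IsOpenImmersion (spMap (T.j1 : T.R1 →+* T.R12) ≫ io1 ha) := by
    rw [io12_eq1]
    infer_instance
  exact IsOpenImmersion.of_comp _ (io1 ha)

include C ct in
theorem j2_open (ha : ct.Aff) : IsOpenImmersion (spMap (T.j2 : T.R2 →+* T.R12)) := by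
  have h : IsOpenImmersion (spMap (T.j2 : T.R2 →+* T.R12) ≫ io2 ha) := by
    rw [io12_eq2]
    infer_instance
  exact IsOpenImmersion.of_comp _ (io2 ha)

theorem io_isPullback (ha : ct.Aff) : IsPullback (spMap (T.j1 : T.R1 →+* T.R12))
    (spMap (T.j2 : T.R2 →+* T.R12)) (io1 ha) (io2 ha) := by
  have := j1_open ha
  refine (IsOpenImmersion.isPullback (spMap (T.j2 : T.R2 →+* T.R12))
    (spMap (T.j1 : T.R1 →+* T.R12)) (io2 ha) (io1 ha) (by rw [io12_eq1, io12_eq2]) ?_).flip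
  ext x
  simp only [TopologicalSpace.Opens.map_coe, Scheme.Hom.coe_opensRange, Set.mem_preimage]
  constructor
  · intro hx
    have h1 : io1 ha x ∈ Set.range (io12 ha) := by
      rw [range_io12]
      refine ⟨?_, ?_⟩
      · rw [← range_io1 ha]
        exact ⟨x, rfl⟩
      · rw [← range_io2 ha]
        exact hx
    obtain ⟨w, hw⟩ := h1
    refine ⟨w, (io1 ha).isOpenEmbedding.injective ?_⟩
    rw [← hw, ← io12_eq1, Scheme.Hom.comp_apply]
  · rintro ⟨w, rfl⟩
    refine ⟨spMap (T.j2 : T.R2 →+* T.R12) w, ?_⟩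
    rw [← Scheme.Hom.comp_apply, io12_eq2, ← io12_eq1]
    rfl

theorem io_cover (ha : ct.Aff) (x : C.X) : x ∈ Set.range (io1 ha) ∨ x ∈ Set.range (io2 ha) := by
  rw [range_io1, range_io2]
  have h : x ∈ ct.U1 ⊔ ct.U2 := by
    rw [ct.cover]
    trivial
  exact h

theorem tau_one (ha : ct.Aff) {B : Type} [CommRing B] [Algebra k B] (φ : T.R1 →ₐ[k] B) :
    tau ha (.one φ) = spMap (φ : T.R1 →+* B) ≫ io1 ha := by
  unfold tau io1
  rw [← Category.assoc, ← spMap_comp]
  rfl

theorem tau_two (ha : ct.Aff) {B : Type} [CommRing B] [Algebra k B] (φ : T.R2 →ₐ[k] B) :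
    tau ha (.two φ) = spMap (φ : T.R2 →+* B) ≫ io2 ha := by
  unfold tau io2
  rw [← Category.assoc, ← spMap_comp]
  rfl

end

end Pool.Agent.MG
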