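import Pool.Agent.MG.Geo
import Pool.Agent.MG.Bub.Base

/-!
# Evaluation of functions along open immersions of spectra
-/

set_option linter.unusedSectionVars false

open CategoryTheory CategoryTheory.Limits AlgebraicGeometry TensorProduct

namespace Pool.Agent.MG

section

variable {A : Type} [CommRing A] {X : Scheme.{0}} (i : Sp A ⟶ X)

/-- Evaluation of functions on `U` along a morphism `i : Spec A → X` with image in `U`. -/
noncomputable def evO (U : X.Opens) (h : ⊤ ≤ i ⁻¹ᵁ U) : Γ(X, U) →+* A :=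
  (Scheme.ΓSpecIso (CommRingCat.of A)).hom.hom.comp (i.appLE U ⊤ h).hom

theorem evO_rs {U V : X.Opens} (hVU : V ≤ U) (hV : ⊤ ≤ i ⁻¹ᵁ V) (hU : ⊤ ≤ i ⁻¹ᵁ U)
    (a : Γ(X, U)) : evO i V hV (rs X hVU a) = evO i U hU a := by
  have h1 : X.presheaf.map (homOfLE hVU).op ≫ i.appLE V ⊤ hV = i.appLE U ⊤ hU :=
    Scheme.Hom.map_appLE i hV (homOfLE hVU).op
  have h2 := ConcreteCategory.congr_hom h1 a
  exact congrArg (Scheme.ΓSpecIso (CommRingCat.of A)).hom.hom h2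

theorem evO_spMap {A' : Type} [CommRing A'] (φ : A →+* A') {U : X.Opens} (h : ⊤ ≤ i ⁻¹ᵁ U)
    (h' : ⊤ ≤ (spMap φ ≫ i) ⁻¹ᵁ U) (a : Γ(X, U)) :
    evO (spMap φ ≫ i) U h' a = φ (evO i U h a) := by
  have h1 : i.appLE U ⊤ h ≫ (spMap φ).appLE ⊤ ⊤ le_top = (spMap φ ≫ i).appLE U ⊤ h' :=
    Scheme.Hom.appLE_comp_appLE _ _ _ _ _ _ _
  have h2 : (spMap φ).appLE ⊤ ⊤ le_top = (spMap φ).appTop := Scheme.Hom.appLE_eq_app _
  unfold evO
  rw [RingHom.comp_apply, RingHom.comp_apply, ← gs_spMap, ← h1, h2]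
  rfl

theorem evO_app {Y : Scheme.{0}} (q : X ⟶ Y) {V : Y.Opens} {U : X.Opens} (e : U ≤ q ⁻¹ᵁ V)
    (h : ⊤ ≤ i ⁻¹ᵁ U) (h' : ⊤ ≤ (i ≫ q) ⁻¹ᵁ V) (a : Γ(Y, V)) :
    evO i U h ((q.appLE V U e).hom a) = evO (i ≫ q) V h' a := by
  have h1 : q.appLE V U e ≫ i.appLE U ⊤ h = (i ≫ q).appLE V ⊤ h' :=
    Scheme.Hom.appLE_comp_appLE _ _ _ _ _ _ _
  unfold evO
  rw [RingHom.comp_apply, RingHom.comp_apply, ← h1]
  rfl

theorem evO_coef {B : Type} [CommRing B] (π : X ⟶ Sp B) (ψ : B →+* A) (hψ : i ≫ π = spMap ψ)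
    {U : X.Opens} (h : ⊤ ≤ i ⁻¹ᵁ U) (b : B) : evO i U h (coef π U b) = ψ b := by
  unfold evO
  rw [RingHom.comp_apply, coef_comp, hψ]
  have h1 : coef (spMap ψ) ⊤ b = coef (𝟙 (Sp A)) ⊤ (ψ b) := by
    rw [← coef_spMap, Category.id_comp]
  rw [h1, coef_id, gl_inv]

theorem evO_gl {U : X.Opens} (h : ⊤ ≤ i ⁻¹ᵁ U) (a : Γ(X, U)) :
    (i.appLE U ⊤ h).hom a = gl A (evO i U h a) := by
  unfold evO gl
  rw [RingHom.comp_apply]
  change _ = ((Scheme.ΓSpecIso (CommRingCat.of A)).hom ≫ (Scheme.ΓSpecIso (CommRingCat.of A)).inv)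
    ((i.appLE U ⊤ h).hom a)
  rw [Iso.hom_inv_id]
  rfl

theorem le_opensRange (U : X.Opens) [IsOpenImmersion i] (hU : ∀ x ∈ U, x ∈ Set.range i) :
    U ≤ i.opensRange := fun x hx => hU x hx

theorem evO_bij [IsOpenImmersion i] {U : X.Opens} (h : ⊤ ≤ i ⁻¹ᵁ U)
    (hU : ∀ x ∈ U, x ∈ Set.range i) : Function.Bijective (evO i U h) := by
  have h1 : IsIso (i.app U) := Scheme.Hom.isIso_app i U (fun x hx => hU x hx)
  have h2 : i ⁻¹ᵁ U = ⊤ := top_le_iff.1 h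
  have h3 : IsIso (i.appLE U ⊤ h) := by
    have h4 : i.appLE U ⊤ h = i.app U ≫ (Sp A).presheaf.map (homOfLE h).op := rfl
    rw [h4]
    have h5 : IsIso (homOfLE h) := by
      have h6 : homOfLE h = eqToHom h2.symm := Subsingleton.elim _ _
      rw [h6]
      infer_instance
    infer_instance
  unfold evO
  rw [RingHom.coe_comp]
  exact (ConcreteCategory.bijective_of_isIso (Scheme.ΓSpecIso (CommRingCat.of A)).hom).comp
    (ConcreteCategory.bijective_of_isIso (i.appLE U ⊤ h))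

theorem mem_pre (U : X.Opens) (h : ⊤ ≤ i ⁻¹ᵁ U) (p : Sp A) : i p ∈ U := h (show p ∈ ⊤ by trivial)

theorem le_of_range {U : X.Opens} (h : ∀ p, i p ∈ U) : ⊤ ≤ i ⁻¹ᵁ U := fun p _ => h p

theorem range_pre [IsOpenImmersion i] : ⊤ ≤ i ⁻¹ᵁ i.opensRange := fun p _ => ⟨p, rfl⟩

end

section

variable {A1 A2 : Type} [CommRing A1] [CommRing A2] {X : Scheme.{0}} (i1 : Sp A1 ⟶ X)
  (i2 : Sp A2 ⟶ X) [IsOpenImmersion i1] [IsOpenImmersion i2]

/-- A function which vanishes on two charts is zero. -/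
theorem evO_un {U : X.Opens} (h1 : ⊤ ≤ i1 ⁻¹ᵁ U) (h2 : ⊤ ≤ i2 ⁻¹ᵁ U)
    (hU : ∀ x ∈ U, x ∈ Set.range i1 ∨ x ∈ Set.range i2) (a : Γ(X, U))
    (e1 : evO i1 U h1 a = 0) (e2 : evO i2 U h2 a = 0) : a = 0 := by
  have l1 : i1.opensRange ≤ U := by
    rintro _ ⟨p, rfl⟩
    exact mem_pre i1 U h1 p
  have l2 : i2.opensRange ≤ U := by
    rintro _ ⟨p, rfl⟩
    exact mem_pre i2 U h2 p
  have z1 : rs X l1 a = 0 := by
    apply (evO_bij i1 (range_pre i1) (fun x hx => hx)).1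
    rw [evO_rs i1 l1 (range_pre i1) h1, e1, map_zero]
  have z2 : rs X l2 a = 0 := by
    apply (evO_bij i2 (range_pre i2) (fun x hx => hx)).1
    rw [evO_rs i2 l2 (range_pre i2) h2, e2, map_zero]
  apply X.sheaf.eq_of_locally_eq₂ (homOfLE l1) (homOfLE l2) (fun x hx => hU x hx)
  · exact z1.trans (map_zero (rs X l1)).symm
  · exact z2.trans (map_zero (rs X l2)).symm

/-- Functions on a disjoint union. -/
theorem evO_ex {U : X.Opens} (h1 : ⊤ ≤ i1 ⁻¹ᵁ U) (h2 : ⊤ ≤ i2 ⁻¹ᵁ U)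
    (hU : ∀ x ∈ U, x ∈ Set.range i1 ∨ x ∈ Set.range i2)
    (hd : ∀ x y, i1 x ≠ i2 y) (a1 : A1) (a2 : A2) :
    ∃ a : Γ(X, U), evO i1 U h1 a = a1 ∧ evO i2 U h2 a = a2 := by
  have l1 : i1.opensRange ≤ U := by
    rintro _ ⟨p, rfl⟩
    exact mem_pre i1 U h1 p
  have l2 : i2.opensRange ≤ U := by
    rintro _ ⟨p, rfl⟩
    exact mem_pre i2 U h2 p
  obtain ⟨b1, hb1⟩ := (evO_bij i1 (range_pre i1) (fun x hx => hx)).2 a1
  obtain ⟨b2, hb2⟩ := (evO_bij i2 (range_pre i2) (fun x hx => hx)).2 a2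
  have hbot : i1.opensRange ⊓ i2.opensRange = ⊥ := by
    rw [← le_bot_iff]
    rintro x ⟨⟨p, hp⟩, ⟨r, hr⟩⟩
    exact (hd p r (hp.trans hr.symm)).elim
  have hsub : ∀ W : X.Opens, W ≤ i1.opensRange ⊓ i2.opensRange → Subsingleton Γ(X, W) := by
    intro W hW
    have : W = ⊥ := by
      rw [← le_bot_iff, ← hbot]
      exact hW
    rw [this]
    infer_instance
  obtain ⟨a, ha, -⟩ := X.sheaf.existsUnique_gluing' (fun t : Bool => if t then i1.opensRange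
    else i2.opensRange) U (fun t => homOfLE (by cases t <;> simp [l1, l2]))
    (fun x hx => by
      rcases hU x hx with h | h
      · exact TopologicalSpace.Opens.mem_iSup.2 ⟨true, h⟩
      · exact TopologicalSpace.Opens.mem_iSup.2 ⟨false, h⟩)
    (fun t => match t with
      | true => b1
      | false => b2)
    (by
      intro s t
      rcases s with _ | _ <;> rcases t with _ | _
      · rfl
      · exact @Subsingleton.elim _ (hsub _ (by simp [inf_comm])) _ _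
      · exact @Subsingleton.elim _ (hsub _ (by simp)) _ _
      · rfl)
  refine ⟨a, ?_, ?_⟩
  · rw [← hb1, ← evO_rs i1 l1 (range_pre i1) h1]
    exact congrArg _ (ha true)
  · rw [← hb2, ← evO_rs i2 l2 (range_pre i2) h2]
    exact congrArg _ (ha false)

end

end Pool.Agent.MG
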