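import Mathlib

/-!
# The two charts of the blow up of a ring in two elements

`NR z s = R[w]/(z w - s)`; the second chart is `NR s z`.
-/

open Polynomial

namespace Pool.Agent.MG

variable {R : Type*} [CommRing R]

theorem lin_coeff_succ (a b : R) (P : R[X]) (i : ℕ) :
    ((C a * X - C b) * P).coeff (i + 1) = a * P.coeff i - b * P.coeff (i + 1) := by
  rw [sub_mul, coeff_sub, mul_assoc, coeff_C_mul, coeff_C_mul, coeff_X_mul]

theorem lin_coeff_zero (a b : R) (P : R[X]) :
    ((C a * X - C b) * P).coeff 0 = - (b * P.coeff 0) := by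
  rw [sub_mul, coeff_sub, mul_assoc, coeff_C_mul, coeff_C_mul, coeff_X_mul_zero]
  ring

theorem bub_key (z s : R) (n : ℕ) (F G H : R[X]) (hG : G.natDegree ≤ n + 1)
    (h : X ^ (n + 1) * F - reflect (n + 1) G = (C z * X - C s) * H) :
    ∃ (r : R) (H1 H2 : R[X]), F = C r + (C z * X - C s) * H1 ∧ G = C r + (C s * X - C z) * H2 := by
  have hm : (X ^ (n + 1) : R[X]).Monic := monic_X_pow _
  obtain ⟨H0, H1, hdec, hdeg⟩ : ∃ H0 H1 : R[X], H0 + X ^ (n + 1) * H1 = H ∧
      ∀ i, n + 1 ≤ i → H0.coeff i = 0 := by
    refine ⟨H %ₘ X ^ (n + 1), H /ₘ X ^ (n + 1), modByMonic_add_div H (X ^ (n + 1)), ?_⟩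
    intro i hi
    nontriviality R
    apply coeff_eq_zero_of_degree_lt
    refine lt_of_lt_of_le (degree_modByMonic_lt H hm) ?_
    rw [degree_X_pow]
    exact_mod_cast hi
  obtain ⟨A, hA⟩ : ∃ A, A = F - (C z * X - C s) * H1 := ⟨_, rfl⟩
  have hXA : X ^ (n + 1) * A = reflect (n + 1) G + (C z * X - C s) * H0 := by
    rw [hA, mul_sub]
    rw [← hdec] at h
    linear_combination h
  have hA0 : A = C (A.coeff 0) := by
    ext i
    rcases i with _ | i
    · simp
    · rw [coeff_C_succ]
      have h1 := congrArg (fun p => p.coeff (i + 1 + (n + 1))) hXA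
      simp only [coeff_X_pow_mul, coeff_add, coeff_reflect] at h1
      rw [h1]
      have h2 : revAt (n + 1) (i + 1 + (n + 1)) = i + 1 + (n + 1) := by
        rw [revAt_eq_self_of_lt]
        omega
      have h3 : i + 1 + (n + 1) = (i + (n + 1)) + 1 := by ring
      rw [h2, coeff_eq_zero_of_natDegree_lt (lt_of_le_of_lt hG (by omega)), h3, lin_coeff_succ,
        hdeg _ (by omega), hdeg _ (by omega)]
      ring
  obtain ⟨r, hr⟩ : ∃ r, r = A.coeff 0 := ⟨_, rfl⟩
  rw [← hr] at hA0
  refine ⟨r, H1, reflect n H0, ?_, ?_⟩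
  · rw [← hA0, hA]
    ring
  · have hrG : ∀ i, (reflect (n + 1) G).coeff i =
        (if i = n + 1 then r else 0) - ((C z * X - C s) * H0).coeff i := by
      intro i
      have h1 : reflect (n + 1) G = X ^ (n + 1) * C r - (C z * X - C s) * H0 := by
        rw [← hA0, hXA]
        ring
      rw [h1, coeff_sub, coeff_mul_C, coeff_X_pow]
      split_ifs <;> ring
    ext i
    by_cases hi : i ≤ n + 1
    · have h1 : G.coeff i = (reflect (n + 1) G).coeff (n + 1 - i) := by
        rw [coeff_reflect, revAt_le (by omega)]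
        congr 1
        omega
      rw [h1, hrG]
      rcases i with _ | i
      · have h2 : n + 1 - 0 = n + 1 := rfl
        have h3 : n - 0 = n := rfl
        rw [coeff_add, coeff_C_zero, lin_coeff_zero, coeff_reflect, revAt_le (Nat.zero_le _), h2,
          if_pos rfl, lin_coeff_succ, hdeg (n + 1) le_rfl, h3]
        ring
      · have h2 : n + 1 - (i + 1) = n - i := by omega
        rw [coeff_add, coeff_C_succ, lin_coeff_succ s z, coeff_reflect, coeff_reflect,
          if_neg (by omega), h2, revAt_le (show i ≤ n by omega)]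
        rcases Nat.lt_or_ge i n with hin | hin
        · rw [revAt_le (show i + 1 ≤ n by omega)]
          have h4 : n - i = (n - (i + 1)) + 1 := by omega
          rw [h4, lin_coeff_succ]
          ring
        · have h6 : i = n := by omega
          subst h6
          have h7 : i - i = 0 := by omega
          rw [revAt_eq_self_of_lt (by omega), hdeg (i + 1) le_rfl, h7, lin_coeff_zero]
          ring
    · push Not at hi
      rw [coeff_eq_zero_of_natDegree_lt (lt_of_le_of_lt hG hi)]
      obtain ⟨j, rfl⟩ : ∃ j, i = j + 1 := ⟨i - 1, by omega⟩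
      rw [coeff_add, coeff_C_succ, lin_coeff_succ, coeff_reflect, coeff_reflect,
        revAt_eq_self_of_lt (by omega), revAt_eq_self_of_lt (by omega), hdeg j (by omega),
        hdeg (j + 1) (by omega)]
      ring

/-- `R[w]/(z w - s)`. -/
abbrev NR (z s : R) : Type _ := AdjoinRoot (C z * X - C s : R[X])

/-- The coordinate `w`. -/
noncomputable abbrev nw (z s : R) : NR z s := AdjoinRoot.root (C z * X - C s : R[X])

theorem nw_rel (z s : R) : algebraMap R (NR z s) z * nw z s = algebraMap R (NR z s) s := by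
  have h := AdjoinRoot.mk_self (f := (C z * X - C s : R[X]))
  rw [map_sub, map_mul, AdjoinRoot.mk_C, AdjoinRoot.mk_C, AdjoinRoot.mk_X, sub_eq_zero] at h
  exact h

/-- The universal property of `R[w]/(z w - s)`. -/
noncomputable def nrLift {z s : R} {S : Type*} [CommRing S] (i : R →+* S) (w : S)
    (h : i z * w = i s) : NR z s →+* S :=
  AdjoinRoot.lift i w (by simp [h])

@[simp] theorem nrLift_of {z s : R} {S : Type*} [CommRing S] (i : R →+* S) (w : S)
    (h : i z * w = i s) (r : R) : nrLift i w h (algebraMap R (NR z s) r) = i r :=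
  AdjoinRoot.lift_of _

@[simp] theorem nrLift_w {z s : R} {S : Type*} [CommRing S] (i : R →+* S) (w : S)
    (h : i z * w = i s) : nrLift i w h (nw z s) = w :=
  AdjoinRoot.lift_root _

theorem nr_hom_ext {z s : R} {S : Type*} [CommRing S] {f g : NR z s →+* S}
    (h1 : ∀ r : R, f (algebraMap R (NR z s) r) = g (algebraMap R (NR z s) r))
    (h2 : f (nw z s) = g (nw z s)) : f = g :=
  AdjoinRoot.ringHom_ext (RingHom.ext h1) h2

/-- The ring of the intersection of the two charts. -/
abbrev MR (z s : R) : Type _ := Localization.Away (nw z s)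

/-- The inverse of the coordinate `w`. -/
noncomputable def mInv (z s : R) : MR z s := IsLocalization.Away.invSelf (nw z s)

theorem mInv_rel (z s : R) : algebraMap (NR z s) (MR z s) (nw z s) * mInv z s = 1 :=
  IsLocalization.Away.mul_invSelf _

theorem algebraMap_MR (z s : R) (r : R) :
    algebraMap R (MR z s) r = algebraMap (NR z s) (MR z s) (algebraMap R (NR z s) r) :=
  IsScalarTower.algebraMap_apply R (NR z s) (MR z s) r

/-- The inclusion of the second chart ring into the ring of the intersection. -/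
noncomputable def swapN (z s : R) : NR s z →+* MR z s :=
  nrLift (algebraMap R (MR z s)) (mInv z s) (by
    rw [algebraMap_MR, algebraMap_MR, ← nw_rel, map_mul, mul_assoc, mInv_rel, mul_one])

@[simp] theorem swapN_of (z s r : R) :
    swapN z s (algebraMap R (NR s z) r) = algebraMap R (MR z s) r :=
  nrLift_of _ _ _ _

@[simp] theorem swapN_w (z s : R) : swapN z s (nw s z) = mInv z s :=
  nrLift_w _ _ _

/-- The rings of the intersection, computed in the two charts, agree. -/
noncomputable def swapM (z s : R) : MR s z →+* MR z s :=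
  IsLocalization.Away.lift (nw s z) (g := swapN z s) (by
    rw [swapN_w]
    exact IsUnit.of_mul_eq_one_right _ (mInv_rel z s))

@[simp] theorem swapM_apply (z s : R) (a : NR s z) :
    swapM z s (algebraMap (NR s z) (MR s z) a) = swapN z s a :=
  IsLocalization.Away.lift_eq _ _ _

theorem swapM_mInv (z s : R) :
    swapM z s (mInv s z) = algebraMap (NR z s) (MR z s) (nw z s) := by
  have h1 : swapM z s (algebraMap (NR s z) (MR s z) (nw s z)) * swapM z s (mInv s z) = 1 := by
    rw [← map_mul, mInv_rel, map_one]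
  rw [swapM_apply, swapN_w] at h1
  calc swapM z s (mInv s z) = (algebraMap (NR z s) (MR z s) (nw z s) * mInv z s) *
        swapM z s (mInv s z) := by rw [mInv_rel, one_mul]
    _ = algebraMap (NR z s) (MR z s) (nw z s) * (mInv z s * swapM z s (mInv s z)) := by ring
    _ = _ := by rw [h1, mul_one]

theorem swapM_swapM (z s : R) (m : MR z s) : swapM z s (swapM s z m) = m := by
  have h : (swapM z s).comp (swapM s z) = RingHom.id _ := by
    apply IsLocalization.ringHom_ext (Submonoid.powers (nw z s))
    apply nr_hom_ext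
    · intro r
      simp only [RingHom.comp_apply, RingHom.id_apply]
      rw [swapM_apply, swapN_of, algebraMap_MR, swapM_apply, swapN_of, algebraMap_MR]
    · simp only [RingHom.comp_apply, RingHom.id_apply]
      rw [swapM_apply, swapN_w, swapM_mInv]
  exact congrArg (fun f => f m) h

/-- The two computations of the intersection ring agree. -/
noncomputable def swapE (z s : R) : MR s z ≃+* MR z s where
  toFun := swapM z s
  invFun := swapM s z
  left_inv := swapM_swapM s z
  right_inv := swapM_swapM z s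
  map_mul' := map_mul _
  map_add' := map_add _

theorem w_pow_mul_swapN (z s : R) (N : ℕ) (G : R[X]) (hG : G.natDegree ≤ N) :
    algebraMap (NR z s) (MR z s) (nw z s) ^ N * swapN z s (AdjoinRoot.mk _ G) =
      algebraMap (NR z s) (MR z s) (AdjoinRoot.mk _ (reflect N G)) := by
  have h1 : swapN z s (AdjoinRoot.mk _ G) = eval₂ (algebraMap R (MR z s)) (mInv z s) G := by
    unfold swapN nrLift
    rw [AdjoinRoot.lift_mk]
  have h2 : algebraMap (NR z s) (MR z s) (AdjoinRoot.mk _ (reflect N G)) =
      eval₂ (algebraMap R (MR z s)) (algebraMap (NR z s) (MR z s) (nw z s)) (reflect N G) := by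
    have h3 : (AdjoinRoot.mk (C z * X - C s) (reflect N G) : NR z s) =
        eval₂ (algebraMap R (NR z s)) (nw z s) (reflect N G) := by
      rw [← AdjoinRoot.aeval_eq, aeval_def]
    rw [h3, hom_eval₂]
    congr 1
  let _ : Invertible (mInv z s) := ⟨algebraMap (NR z s) (MR z s) (nw z s), mInv_rel z s, by
    rw [mul_comm]; exact mInv_rel z s⟩
  have h4 := eval₂_reflect_mul_pow (algebraMap R (MR z s)) (mInv z s) N G hG
  rw [h1, h2, ← h4]
  change _ * (eval₂ (algebraMap R (MR z s)) (algebraMap (NR z s) (MR z s) (nw z s))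
    (reflect N G) * mInv z s ^ N) = _
  have h5 : algebraMap (NR z s) (MR z s) (nw z s) ^ N * mInv z s ^ N = 1 := by
    rw [← mul_pow, mInv_rel, one_pow]
  calc _ = (algebraMap (NR z s) (MR z s) (nw z s) ^ N * mInv z s ^ N) *
      eval₂ (algebraMap R (MR z s)) (algebraMap (NR z s) (MR z s) (nw z s)) (reflect N G) := by
        ring
    _ = _ := by rw [h5, one_mul]

/-- `H¹ = 0`: every function on the intersection of the charts is a sum. -/
theorem bub_H1 (z s : R) (m : MR z s) :
    ∃ (f : NR z s) (g : NR s z), m = algebraMap (NR z s) (MR z s) f + swapN z s g := by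
  obtain ⟨n, a, ha⟩ := IsLocalization.Away.surj (nw z s) m
  obtain ⟨F, rfl⟩ := AdjoinRoot.mk_surjective a
  have hm : (X ^ n : R[X]).Monic := monic_X_pow _
  have hdec : F %ₘ X ^ n + X ^ n * (F /ₘ X ^ n) = F := modByMonic_add_div F (X ^ n)
  have hdeg : (F %ₘ X ^ n).natDegree ≤ n := by
    nontriviality R
    have := degree_modByMonic_lt F hm
    rw [degree_X_pow] at this
    exact natDegree_le_of_degree_le this.le
  have hw := w_pow_mul_swapN z s n (reflect n (F %ₘ X ^ n)) ?_
  · refine ⟨AdjoinRoot.mk _ (F /ₘ X ^ n), AdjoinRoot.mk _ (reflect n (F %ₘ X ^ n)), ?_⟩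
    have hu : IsUnit (algebraMap (NR z s) (MR z s) (nw z s) ^ n) :=
      (IsUnit.of_mul_eq_one _ (mInv_rel z s)).pow n
    apply hu.mul_left_cancel
    rw [mul_add, hw, mul_comm, ha, ← map_pow, ← map_mul, ← map_add, reflect_reflect]
    congr 1
    have h1 : (nw z s) ^ n = AdjoinRoot.mk (C z * X - C s) (X ^ n) := by
      rw [map_pow, AdjoinRoot.mk_X]
    rw [h1, ← map_mul, ← map_add, add_comm, hdec]
  · refine (natDegree_le_iff_coeff_eq_zero).2 ?_
    intro i hi
    rw [coeff_reflect, revAt_eq_self_of_lt hi]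
    exact coeff_eq_zero_of_natDegree_lt (lt_of_le_of_lt hdeg hi)

/-- `H⁰`: the functions which agree on the intersection come from the base ring. -/
theorem bub_H0 (z s : R) (f : NR z s) (g : NR s z)
    (h : algebraMap (NR z s) (MR z s) f = swapN z s g) :
    ∃ r : R, f = algebraMap R (NR z s) r ∧ g = algebraMap R (NR s z) r := by
  obtain ⟨F, rfl⟩ := AdjoinRoot.mk_surjective f
  obtain ⟨G, rfl⟩ := AdjoinRoot.mk_surjective g
  obtain ⟨N, hN⟩ : ∃ N, N = G.natDegree + 1 := ⟨_, rfl⟩
  have hw := w_pow_mul_swapN z s N G (by omega)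
  rw [← h, ← map_pow, ← map_mul] at hw
  obtain ⟨e, he⟩ := IsLocalization.Away.exists_of_eq (nw z s) hw
  have h1 : (nw z s) = AdjoinRoot.mk (C z * X - C s) X := by
    rw [AdjoinRoot.mk_X]
  rw [h1, ← map_pow, ← map_pow, ← map_mul, ← map_mul, ← map_mul, AdjoinRoot.mk_eq_mk] at he
  obtain ⟨H, hH⟩ := he
  have hrefl : X ^ e * reflect N G = reflect (e + G.natDegree + 1) G := by
    ext i
    rw [coeff_X_pow_mul', coeff_reflect]
    split_ifs with hi
    · rw [coeff_reflect]
      by_cases h2 : i ≤ e + G.natDegree + 1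
      · rw [revAt_le h2, revAt_le (by omega)]
        congr 1
        omega
      · push Not at h2
        rw [revAt_eq_self_of_lt (by omega), revAt_eq_self_of_lt (by omega),
          coeff_eq_zero_of_natDegree_lt (by omega), coeff_eq_zero_of_natDegree_lt (by omega)]
    · rw [coeff_reflect, revAt_le (by omega), coeff_eq_zero_of_natDegree_lt (by omega)]
  have hkey : X ^ (e + G.natDegree + 1) * F - reflect (e + G.natDegree + 1) G =
      (C z * X - C s) * H := by
    rw [← hH, hrefl, hN, ← mul_assoc, ← pow_add]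
    ring_nf
  obtain ⟨r, H1, H2, hF, hG⟩ := bub_key z s _ F G H (by omega) hkey
  refine ⟨r, ?_, ?_⟩
  · rw [hF, map_add, map_mul, AdjoinRoot.mk_self, zero_mul, add_zero, AdjoinRoot.mk_C]
    rfl
  · rw [hG, map_add, map_mul, AdjoinRoot.mk_self, zero_mul, add_zero, AdjoinRoot.mk_C]
    rfl

/-- The base ring injects into the first chart if `z` is a non zero divisor. -/
theorem bub_inj (z s : R) (hz : ∀ a : R, z * a = 0 → a = 0) (r : R)
    (h : algebraMap R (NR z s) r = 0) : r = 0 := by
  have h1 : AdjoinRoot.mk (C z * X - C s) (C r) = 0 := h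
  rw [AdjoinRoot.mk_eq_zero] at h1
  obtain ⟨H, hH⟩ := h1
  have h2 : H = 0 := by
    by_contra hne
    have h3 := congrArg (fun p => p.coeff (H.natDegree + 1)) hH
    simp only [coeff_C_succ] at h3
    rw [lin_coeff_succ, coeff_eq_zero_of_natDegree_lt (Nat.lt_succ_self _), mul_zero, sub_zero]
      at h3
    exact hne (leadingCoeff_eq_zero.1 (hz _ h3.symm))
  rw [h2, mul_zero] at hH
  exact C_eq_zero.1 hH

end Pool.Agent.MG
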