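import Pool.Agent.MG.Defs
import Pool.Agent.MG.Glue2
import Pool.Agent.MG.Local2
import Pool.Agent.MG.Bub.Ring

/-!
# The blow up of an affine scheme in two functions
-/

open CategoryTheory CategoryTheory.Limits AlgebraicGeometry

namespace Pool.Agent.MG

variable {R : Type} [CommRing R] (z s : R)

/-- The inclusion of the overlap in the first chart. -/
noncomputable def blf : Sp (MR z s) ⟶ Sp (NR z s) := spMap (algebraMap (NR z s) (MR z s))

/-- The inclusion of the overlap in the second chart. -/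
noncomputable def blg : Sp (MR z s) ⟶ Sp (NR s z) := spMap (swapN z s)

instance : IsOpenImmersion (blf z s) :=
  inferInstanceAs (IsOpenImmersion (Spec.map (CommRingCat.ofHom (algebraMap (NR z s)
    (Localization.Away (nw z s))))))

theorem blg_eq : blg z s = spMap ((swapE z s : MR s z ≃+* MR z s) : MR s z →+* MR z s) ≫
    blf s z := by
  unfold blg blf spMap
  rw [← Spec.map_comp, ← CommRingCat.ofHom_comp]
  congr 2
  exact RingHom.ext fun a => (swapM_apply z s a).symm

instance : IsOpenImmersion (blg z s) := by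
  rw [blg_eq]
  have : IsIso (spMap ((swapE z s : MR s z ≃+* MR z s) : MR s z →+* MR z s)) :=
    inferInstanceAs (IsIso (Scheme.Spec.mapIso (swapE z s).toCommRingCatIso.op).hom)
  infer_instance

/-- The blow up `{z Y₀ = s Y₁} ⊆ ℙ¹_R`, glued from its two charts. -/
noncomputable def Bl : Scheme.{0} := pushout (blf z s) (blg z s)

/-- The first chart. -/
noncomputable def bl1 : Sp (NR z s) ⟶ Bl z s := pushout.inl (blf z s) (blg z s)

/-- The second chart. -/
noncomputable def bl2 : Sp (NR s z) ⟶ Bl z s := pushout.inr (blf z s) (blg z s)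

instance : IsOpenImmersion (bl1 z s) := glue2_inl _ _

instance : IsOpenImmersion (bl2 z s) := glue2_inr _ _

theorem bl_cond : blf z s ≫ bl1 z s = blg z s ≫ bl2 z s := pushout.condition

theorem bl_isPullback : IsPullback (blf z s) (blg z s) (bl1 z s) (bl2 z s) :=
  glue2_isPullback _ _

theorem bl_cover (x : Bl z s) : x ∈ Set.range (bl1 z s) ∨ x ∈ Set.range (bl2 z s) :=
  glue2_surj _ _ x

/-- The projection to `Spec R`. -/
noncomputable def blπ : Bl z s ⟶ Sp R :=
  pushout.desc (spMap (algebraMap R (NR z s))) (spMap (algebraMap R (NR s z))) (by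
    unfold blf blg spMap
    rw [← Spec.map_comp, ← Spec.map_comp, ← CommRingCat.ofHom_comp, ← CommRingCat.ofHom_comp]
    congr 2
    ext a
    simp only [RingHom.comp_apply]
    rw [swapN_of, algebraMap_MR])

@[reassoc (attr := simp)] theorem bl1_π : bl1 z s ≫ blπ z s = spMap (algebraMap R (NR z s)) :=
  pushout.inl_desc _ _ _

@[reassoc (attr := simp)] theorem bl2_π : bl2 z s ≫ blπ z s = spMap (algebraMap R (NR s z)) :=
  pushout.inr_desc _ _ _

/-- A morphism of spectra is given by a ring homomorphism. -/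
theorem sp_hom {A B : Type} [CommRing A] [CommRing B] (f : Sp B ⟶ Sp A) :
    ∃ φ : A →+* B, f = spMap φ :=
  ⟨(Spec.preimage f).hom, (Spec.map_preimage f).symm⟩

theorem spMap_inj {A B : Type} [CommRing A] [CommRing B] {φ ψ : A →+* B}
    (h : spMap φ = spMap ψ) : φ = ψ := by
  have := Spec.map_injective h
  exact congrArg CommRingCat.Hom.hom this

theorem spMap_comp {A B C : Type} [CommRing A] [CommRing B] [CommRing C] (φ : A →+* B)
    (ψ : B →+* C) : spMap (ψ.comp φ) = spMap ψ ≫ spMap φ := by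
  unfold spMap
  rw [CommRingCat.ofHom_comp, Spec.map_comp]

/-- A morphism from the spectrum of a local ring which maps the closed point into an open subscheme
factors through it. -/
theorem local_factor {O : Type} [CommRing O] [IsLocalRing O] {X U : Scheme.{0}} (j : U ⟶ X)
    [IsOpenImmersion j] (f : Sp O ⟶ X) (h : f (IsLocalRing.closedPoint O) ∈ Set.range j) :
    ∃ f' : Sp O ⟶ U, f = f' ≫ j := by
  refine ⟨IsOpenImmersion.lift j f ?_, (IsOpenImmersion.lift_fac _ _ _).symm⟩
  rintro _ ⟨x, rfl⟩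
  have h1 : f x ⤳ f (IsLocalRing.closedPoint O) :=
    (IsLocalRing.specializes_closedPoint x).map f.continuous
  exact h1.mem_open j.isOpenEmbedding.isOpen_range h

theorem bl_local {O : Type} [CommRing O] [IsLocalRing O] (f : Sp O ⟶ Bl z s) :
    (∃ α : NR z s →+* O, f = spMap α ≫ bl1 z s) ∨ (∃ α : NR s z →+* O, f = spMap α ≫ bl2 z s) := by
  rcases bl_cover z s (f (IsLocalRing.closedPoint O)) with h | h
  · left
    obtain ⟨f', hf⟩ := local_factor _ f h
    obtain ⟨α, rfl⟩ := sp_hom f'
    exact ⟨α, hf⟩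
  · right
    obtain ⟨f', hf⟩ := local_factor _ f h
    obtain ⟨α, rfl⟩ := sp_hom f'
    exact ⟨α, hf⟩

/-- Pass from the first to the second chart when `w` is invertible. -/
theorem bl_swap12 {O : Type} [CommRing O] (α : NR z s →+* O) (y : O) (h : α (nw z s) * y = 1) :
    ∃ β : NR s z →+* O, spMap α ≫ bl1 z s = spMap β ≫ bl2 z s ∧ β (nw s z) = y ∧
      ∀ r, β (algebraMap R _ r) = α (algebraMap R _ r) := by
  let γ : MR z s →+* O := IsLocalization.Away.lift (nw z s) (g := α) (IsUnit.of_mul_eq_one _ h)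
  have hγ : ∀ a, γ (algebraMap _ _ a) = α a := fun a => IsLocalization.Away.lift_eq _ _ a
  refine ⟨γ.comp (swapN z s), ?_, ?_, ?_⟩
  · have h1 : spMap α = spMap γ ≫ blf z s := by
      unfold blf
      rw [← spMap_comp]
      congr 1
      exact RingHom.ext fun a => (hγ a).symm
    rw [h1, Category.assoc, bl_cond, ← Category.assoc]
    congr 1
    exact (spMap_comp _ _).symm
  · rw [RingHom.comp_apply, swapN_w]
    have h1 : γ (algebraMap _ _ (nw z s)) * γ (mInv z s) = 1 := by
      rw [← map_mul, mInv_rel, map_one]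
    rw [hγ] at h1
    calc γ (mInv z s) = (α (nw z s) * y) * γ (mInv z s) := by rw [h, one_mul]
      _ = (α (nw z s) * γ (mInv z s)) * y := by ring
      _ = y := by rw [h1, one_mul]
  · intro r
    rw [RingHom.comp_apply, swapN_of, algebraMap_MR, hγ]

/-- Pass from the second to the first chart when `Y` is invertible. -/
theorem bl_swap21 {O : Type} [CommRing O] (β : NR s z →+* O) (w : O) (h : β (nw s z) * w = 1) :
    ∃ α : NR z s →+* O, spMap β ≫ bl2 z s = spMap α ≫ bl1 z s ∧ α (nw z s) = w ∧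
      ∀ r, α (algebraMap R _ r) = β (algebraMap R _ r) := by
  let δ : MR s z →+* O := IsLocalization.Away.lift (nw s z) (g := β) (IsUnit.of_mul_eq_one _ h)
  have hδ : ∀ a, δ (algebraMap _ _ a) = β a := fun a => IsLocalization.Away.lift_eq _ _ a
  let γ : MR z s →+* O := δ.comp (swapM s z)
  have hγ : ∀ a, γ (swapN z s a) = β a := by
    intro a
    change δ (swapM s z (swapN z s a)) = β a
    rw [← swapM_apply, swapM_swapM, hδ]
  refine ⟨γ.comp (algebraMap _ _), ?_, ?_, ?_⟩
  · have h1 : spMap β = spMap γ ≫ blg z s := by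
      unfold blg
      rw [← spMap_comp]
      congr 1
      exact RingHom.ext fun a => (hγ a).symm
    rw [h1, Category.assoc, ← bl_cond, ← Category.assoc]
    congr 1
    exact (spMap_comp _ _).symm
  · rw [RingHom.comp_apply]
    have h1 : γ (algebraMap _ _ (nw z s)) * γ (mInv z s) = 1 := by
      rw [← map_mul, mInv_rel, map_one]
    rw [← swapN_w, hγ] at h1
    calc γ (algebraMap _ _ (nw z s)) = γ (algebraMap _ _ (nw z s)) * (β (nw s z) * w) := by
          rw [h, mul_one]
      _ = (γ (algebraMap _ _ (nw z s)) * β (nw s z)) * w := by ring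
      _ = w := by rw [h1, one_mul]
  · intro r
    rw [RingHom.comp_apply, ← algebraMap_MR, ← swapN_of, hγ]

theorem bl_existence : ValuativeCriterion.Existence (blπ z s) := by
  intro S
  obtain ⟨ρ, hρ⟩ := sp_hom (A := R) (B := S.R) S.i₂
  have hinj : Function.Injective (algebraMap S.R S.K) := IsFractionRing.injective S.R S.K
  have hw := S.commSq.w
  rw [hρ] at hw
  -- the two charts
  have key1 : ∀ (o : S.R) (ho : ρ z * o = ρ s) (α : NR z s →+* S.K), S.i₁ = spMap α ≫ bl1 z s →
      (∀ r, α (algebraMap R _ r) = algebraMap S.R S.K (ρ r)) →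
      α (nw z s) = algebraMap S.R S.K o → S.commSq.HasLift := by
    intro o ho α h1 h2 h3
    refine ⟨⟨⟨spMap (nrLift ρ o ho) ≫ bl1 z s, ?_, ?_⟩⟩⟩
    · rw [h1]
      change spMap _ ≫ spMap _ ≫ _ = _
      rw [← Category.assoc, ← spMap_comp]
      congr 2
      apply nr_hom_ext
      · intro r
        rw [RingHom.comp_apply, nrLift_of, h2]
      · rw [RingHom.comp_apply, nrLift_w, h3]
    · rw [Category.assoc, bl1_π, ← spMap_comp, hρ]
      congr 1
      exact RingHom.ext fun r => by rw [RingHom.comp_apply, nrLift_of]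
  have key2 : ∀ (o : S.R) (ho : ρ s * o = ρ z) (α : NR s z →+* S.K), S.i₁ = spMap α ≫ bl2 z s →
      (∀ r, α (algebraMap R _ r) = algebraMap S.R S.K (ρ r)) →
      α (nw s z) = algebraMap S.R S.K o → S.commSq.HasLift := by
    intro o ho α h1 h2 h3
    refine ⟨⟨⟨spMap (nrLift ρ o ho) ≫ bl2 z s, ?_, ?_⟩⟩⟩
    · rw [h1]
      change spMap _ ≫ spMap _ ≫ _ = _
      rw [← Category.assoc, ← spMap_comp]
      congr 2
      apply nr_hom_ext
      · intro r
        rw [RingHom.comp_apply, nrLift_of, h2]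
      · rw [RingHom.comp_apply, nrLift_w, h3]
    · rw [Category.assoc, bl2_π, ← spMap_comp, hρ]
      congr 1
      exact RingHom.ext fun r => by rw [RingHom.comp_apply, nrLift_of]
  have left : ∀ α : NR z s →+* S.K, S.i₁ = spMap α ≫ bl1 z s →
      (∀ r, α (algebraMap R _ r) = algebraMap S.R S.K (ρ r)) → S.commSq.HasLift := by
    intro α h1 h2
    have hrel : algebraMap S.R S.K (ρ z) * α (nw z s) = algebraMap S.R S.K (ρ s) := by
      rw [← h2, ← h2, ← map_mul, nw_rel]
    rcases ValuationRing.isInteger_or_isInteger S.R (α (nw z s)) with ⟨o, ho⟩ | ⟨o, ho⟩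
    · refine key1 o (hinj ?_) α h1 h2 ho.symm
      rw [map_mul, ho, hrel]
    · by_cases h0 : α (nw z s) = 0
      · refine key1 0 (hinj ?_) α h1 h2 (by rw [h0, map_zero])
        rw [mul_zero, map_zero, ← hrel, h0, mul_zero]
      · obtain ⟨β, hβ1, hβ2, hβ3⟩ := bl_swap12 z s α (α (nw z s))⁻¹ (mul_inv_cancel₀ h0)
        refine key2 o (hinj ?_) β (h1.trans hβ1) (fun r => by rw [hβ3, h2]) (by rw [hβ2, ho])
        rw [map_mul, ho, ← hrel]
        field_simp
  rcases bl_local z s (O := S.K) S.i₁ with ⟨α, h1⟩ | ⟨α, h1⟩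
  · refine left α h1 ?_
    rw [h1, Category.assoc, bl1_π] at hw
    change spMap _ ≫ spMap _ = spMap _ ≫ spMap _ at hw
    rw [← spMap_comp, ← spMap_comp] at hw
    intro r
    exact congrArg (fun f => f r) (spMap_inj hw)
  · have h2 : ∀ r, α (algebraMap R _ r) = algebraMap S.R S.K (ρ r) := by
      rw [h1, Category.assoc, bl2_π] at hw
      change spMap _ ≫ spMap _ = spMap _ ≫ spMap _ at hw
      rw [← spMap_comp, ← spMap_comp] at hw
      intro r
      exact congrArg (fun f => f r) (spMap_inj hw)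
    by_cases h0 : α (nw s z) = 0
    · refine key2 0 (hinj ?_) α h1 h2 (by rw [h0, map_zero])
      rw [mul_zero, map_zero, ← h2, ← nw_rel, map_mul, h0, mul_zero]
    · obtain ⟨β, hβ1, hβ2, hβ3⟩ := bl_swap21 z s α (α (nw s z))⁻¹ (mul_inv_cancel₀ h0)
      exact left β (h1.trans hβ1) fun r => by rw [hβ3, h2]

theorem bl_uniqueness : ValuativeCriterion.Uniqueness (blπ z s) := by
  intro S
  constructor
  rintro ⟨l₁, hl₁, hl₁'⟩ ⟨l₂, hl₂, hl₂'⟩
  ext : 1
  dsimp only at *
  have hinj : Function.Injective (algebraMap S.R S.K) := IsFractionRing.injective S.R S.K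
  have hw : spMap (algebraMap S.R S.K) ≫ l₁ = spMap (algebraMap S.R S.K) ≫ l₂ := hl₁.trans hl₂.symm
  have both1 : ∀ β₁ β₂ : NR z s →+* S.R, l₁ = spMap β₁ ≫ bl1 z s → l₂ = spMap β₂ ≫ bl1 z s →
      l₁ = l₂ := by
    intro β₁ β₂ h1 h2
    rw [h1, h2, ← Category.assoc, ← Category.assoc, cancel_mono, ← spMap_comp, ← spMap_comp] at hw
    have h3 := spMap_inj hw
    rw [h1, h2]
    congr 2
    exact RingHom.ext fun a => hinj (congrArg (fun f => f a) h3)
  have both2 : ∀ β₁ β₂ : NR s z →+* S.R, l₁ = spMap β₁ ≫ bl2 z s → l₂ = spMap β₂ ≫ bl2 z s →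
      l₁ = l₂ := by
    intro β₁ β₂ h1 h2
    rw [h1, h2, ← Category.assoc, ← Category.assoc, cancel_mono, ← spMap_comp, ← spMap_comp] at hw
    have h3 := spMap_inj hw
    rw [h1, h2]
    congr 2
    exact RingHom.ext fun a => hinj (congrArg (fun f => f a) h3)
  have mixed : ∀ (β₁ : NR z s →+* S.R) (β₂ : NR s z →+* S.R) (_ : spMap (algebraMap S.R S.K) ≫
      spMap β₁ ≫ bl1 z s = spMap (algebraMap S.R S.K) ≫ spMap β₂ ≫ bl2 z s),
      β₁ (nw z s) * β₂ (nw s z) = 1 := by
    intro β₁ β₂ h
    rw [← Category.assoc, ← Category.assoc, ← spMap_comp, ← spMap_comp] at h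
    obtain ⟨γ, hγ⟩ := sp_hom ((bl_isPullback z s).lift _ _ h)
    have h1 := (bl_isPullback z s).lift_fst _ _ h
    have h2 := (bl_isPullback z s).lift_snd _ _ h
    rw [hγ] at h1 h2
    unfold blf at h1
    unfold blg at h2
    rw [← spMap_comp] at h1 h2
    have h3 := congrArg (fun f => f (nw z s)) (spMap_inj h1)
    have h4 := congrArg (fun f => f (nw s z)) (spMap_inj h2)
    simp only [RingHom.comp_apply] at h3 h4
    apply hinj
    rw [map_mul, ← h3, ← h4, swapN_w, ← map_mul, mInv_rel, map_one, map_one]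
  rcases bl_local z s (O := S.R) l₁ with ⟨β₁, h1⟩ | ⟨β₁, h1⟩ <;>
    rcases bl_local z s (O := S.R) l₂ with ⟨β₂, h2⟩ | ⟨β₂, h2⟩
  · exact both1 β₁ β₂ h1 h2
  · obtain ⟨β, hβ, -⟩ := bl_swap12 z s β₁ _ (mixed β₁ β₂ (by rw [← h1, ← h2]; exact hw))
    exact both2 β β₂ (h1.trans hβ) h2
  · obtain ⟨β, hβ, -⟩ := bl_swap12 z s β₂ _ (mixed β₂ β₁ (by rw [← h1, ← h2]; exact hw.symm))
    exact both2 β₁ β h1 (h2.trans hβ)
  · exact both2 β₁ β₂ h1 h2

instance : CompactSpace (Bl z s) := by
  rw [← isCompact_univ_iff]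
  have h1 : (Set.univ : Set (Bl z s)) = Set.range (bl1 z s) ∪ Set.range (bl2 z s) := by
    ext x
    simpa using bl_cover z s x
  rw [h1]
  exact (isCompact_range (bl1 z s).continuous).union (isCompact_range (bl2 z s).continuous)

theorem lfp_algebraMap {A B : Type} [CommRing A] [CommRing B] [Algebra A B]
    [h : Algebra.FinitePresentation A B] : LocallyOfFinitePresentation (spMap (algebraMap A B)) :=
  (LocallyOfFinitePresentation.SpecMap_iff _).2 (RingHom.finitePresentation_algebraMap.2 h)

instance blπ_lfp : LocallyOfFinitePresentation (blπ z s) := by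
  apply two_source @LocallyOfFinitePresentation (bl1 z s) (bl2 z s) (bl_cover z s)
  · rw [bl1_π]
    exact lfp_algebraMap
  · rw [bl2_π]
    exact lfp_algebraMap

theorem bl_inter_range :
    Set.range (bl1 z s) ∩ Set.range (bl2 z s) = Set.range (blf z s ≫ bl1 z s) := by
  exact congrArg (fun U : (Bl z s).Opens => (U : Set (Bl z s)))
    (glue2_inter (blf z s) (blg z s))

instance bl_qs : QuasiSeparatedSpace (Bl z s) := by
  have h12 : IsCompact (Set.range (bl1 z s) ∩ Set.range (bl2 z s)) := by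
    rw [bl_inter_range]
    exact isCompact_range (blf z s ≫ bl1 z s).continuous
  refine Scheme.quasiSeparatedSpace_of_isOpenCover
    (fun b : Bool => if b then (bl1 z s).opensRange else (bl2 z s).opensRange) ?_ ?_ ?_
  · rw [TopologicalSpace.IsOpenCover, iSup_bool_eq]
    ext x
    simp only [if_true, Bool.false_eq_true, if_false, TopologicalSpace.Opens.coe_sup,
      Scheme.Hom.coe_opensRange, Set.mem_union, TopologicalSpace.Opens.coe_top, Set.mem_univ,
      iff_true]
    exact bl_cover z s x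
  · rintro (_ | _)
    · exact isAffineOpen_opensRange (bl2 z s)
    · exact isAffineOpen_opensRange (bl1 z s)
  · rintro (_ | _) (_ | _)
    · change IsCompact (Set.range (bl2 z s) ∩ Set.range (bl2 z s))
      rw [Set.inter_self]
      exact isCompact_range (bl2 z s).continuous
    · change IsCompact (Set.range (bl2 z s) ∩ Set.range (bl1 z s))
      rw [Set.inter_comm]
      exact h12
    · exact h12
    · change IsCompact (Set.range (bl1 z s) ∩ Set.range (bl1 z s))
      rw [Set.inter_self]
      exact isCompact_range (bl1 z s).continuous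

instance blπ_proper : IsProper (blπ z s) :=
  IsProper.of_valuativeCriterion _
    (ValuativeCriterion.iff.2 ⟨bl_existence z s, bl_uniqueness z s⟩)

end Pool.Agent.MG
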