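import Pool.Agent.MG.GlueBC
import Pool.Agent.MG.Bub.Bl

/-!
# Base change of the blow up
-/

open CategoryTheory CategoryTheory.Limits AlgebraicGeometry

namespace Pool.Agent.MG

/-- A square of spectra is cartesian if the ring has the universal property of the tensor
product. -/
theorem spec_isPullback {A B C D : Type} [CommRing A] [CommRing B] [CommRing C] [CommRing D]
    (a : A →+* B) (b : A →+* C) (c : B →+* D) (d : C →+* D) (h : c.comp a = d.comp b)
    (ex : ∀ (T : Type) [CommRing T] (f : B →+* T) (g : C →+* T), f.comp a = g.comp b →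
      ∃ k : D →+* T, k.comp c = f ∧ k.comp d = g)
    (un : ∀ (T : Type) [CommRing T] (k k' : D →+* T), k.comp c = k'.comp c →
      k.comp d = k'.comp d → k = k') :
    IsPullback (spMap c) (spMap d) (spMap a) (spMap b) := by
  apply isPullback_SpecMap_of_isPushout
  refine ⟨⟨?_⟩, ⟨PushoutCocone.IsColimit.mk _ (fun s => ?_) (fun s => ?_) (fun s => ?_)
    (fun s m h1 h2 => ?_)⟩⟩
  · rw [← CommRingCat.ofHom_comp, ← CommRingCat.ofHom_comp, h]
  · have hs : s.inl.hom.comp a = s.inr.hom.comp b := by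
      have := congrArg CommRingCat.Hom.hom s.condition
      simpa using this
    exact CommRingCat.ofHom (ex s.pt s.inl.hom s.inr.hom hs).choose
  · ext1
    have hs : s.inl.hom.comp a = s.inr.hom.comp b := by
      have := congrArg CommRingCat.Hom.hom s.condition
      simpa using this
    exact (ex s.pt s.inl.hom s.inr.hom hs).choose_spec.1
  · ext1
    have hs : s.inl.hom.comp a = s.inr.hom.comp b := by
      have := congrArg CommRingCat.Hom.hom s.condition
      simpa using this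
    exact (ex s.pt s.inl.hom s.inr.hom hs).choose_spec.2
  · have hs : s.inl.hom.comp a = s.inr.hom.comp b := by
      have := congrArg CommRingCat.Hom.hom s.condition
      simpa using this
    ext1
    apply un
    · rw [CommRingCat.hom_ofHom, (ex s.pt s.inl.hom s.inr.hom hs).choose_spec.1, ← h1]
      rfl
    · rw [CommRingCat.hom_ofHom, (ex s.pt s.inl.hom s.inr.hom hs).choose_spec.2, ← h2]
      rfl

variable {R R' : Type} [CommRing R] [CommRing R'] (ψ : R →+* R') (z s : R)

/-- The map of the first charts. -/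
noncomputable def nrMap : NR z s →+* NR (ψ z) (ψ s) :=
  nrLift ((algebraMap R' (NR (ψ z) (ψ s))).comp ψ) (nw (ψ z) (ψ s)) (by
    rw [RingHom.comp_apply, RingHom.comp_apply]
    exact nw_rel (ψ z) (ψ s))

@[simp] theorem nrMap_of (r : R) :
    nrMap ψ z s (algebraMap R (NR z s) r) = algebraMap R' (NR (ψ z) (ψ s)) (ψ r) :=
  nrLift_of _ _ _ _

@[simp] theorem nrMap_w : nrMap ψ z s (nw z s) = nw (ψ z) (ψ s) := nrLift_w _ _ _

theorem nrMap_isPullback :
    IsPullback (spMap (nrMap ψ z s)) (spMap (algebraMap R' (NR (ψ z) (ψ s))))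
      (spMap (algebraMap R (NR z s))) (spMap ψ) := by
  apply spec_isPullback
  · ext r
    simp only [RingHom.comp_apply]
    rw [nrMap_of]
  · intro T _ f g h
    have h' : ∀ r, f (algebraMap R (NR z s) r) = g (ψ r) := fun r => congrArg (fun k => k r) h
    refine ⟨nrLift g (f (nw z s)) ?_, ?_, ?_⟩
    · rw [← h', ← h', ← map_mul, nw_rel]
    · apply nr_hom_ext
      · intro r
        rw [RingHom.comp_apply, nrMap_of, nrLift_of, h']
      · rw [RingHom.comp_apply, nrMap_w, nrLift_w]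
    · exact RingHom.ext fun r => by rw [RingHom.comp_apply, nrLift_of]
  · intro T _ k k' h1 h2
    apply nr_hom_ext
    · intro r
      exact congrArg (fun f => f r) h2
    · have := congrArg (fun f => f (nw z s)) h1
      simpa using this

/-- The map of the intersections. -/
noncomputable def mrMap : MR z s →+* MR (ψ z) (ψ s) :=
  IsLocalization.Away.lift (nw z s) (g := (algebraMap (NR (ψ z) (ψ s))
    (MR (ψ z) (ψ s))).comp (nrMap ψ z s)) (by
    rw [RingHom.comp_apply, nrMap_w]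
    exact IsUnit.of_mul_eq_one _ (mInv_rel (ψ z) (ψ s)))

@[simp] theorem mrMap_of (a : NR z s) :
    mrMap ψ z s (algebraMap (NR z s) (MR z s) a) =
      algebraMap (NR (ψ z) (ψ s)) (MR (ψ z) (ψ s)) (nrMap ψ z s a) :=
  IsLocalization.Away.lift_eq _ _ _

theorem mrMap_mInv : mrMap ψ z s (mInv z s) = mInv (ψ z) (ψ s) := by
  have h1 : mrMap ψ z s (algebraMap (NR z s) (MR z s) (nw z s)) * mrMap ψ z s (mInv z s) = 1 := by
    rw [← map_mul, mInv_rel, map_one]
  rw [mrMap_of, nrMap_w] at h1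
  calc mrMap ψ z s (mInv z s) = (algebraMap (NR (ψ z) (ψ s)) (MR (ψ z) (ψ s)) (nw (ψ z) (ψ s)) *
        mInv (ψ z) (ψ s)) * mrMap ψ z s (mInv z s) := by rw [mInv_rel, one_mul]
    _ = mInv (ψ z) (ψ s) * (algebraMap (NR (ψ z) (ψ s)) (MR (ψ z) (ψ s)) (nw (ψ z) (ψ s)) *
        mrMap ψ z s (mInv z s)) := by ring
    _ = _ := by rw [h1, mul_one]

theorem mrMap_swapN (a : NR s z) :
    mrMap ψ z s (swapN z s a) = swapN (ψ z) (ψ s) (nrMap ψ s z a) := by
  have h : (mrMap ψ z s).comp (swapN z s) = (swapN (ψ z) (ψ s)).comp (nrMap ψ s z) := by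
    apply nr_hom_ext
    · intro r
      simp only [RingHom.comp_apply]
      rw [swapN_of, nrMap_of, swapN_of, algebraMap_MR, algebraMap_MR, mrMap_of, nrMap_of]
    · simp only [RingHom.comp_apply]
      rw [swapN_w, nrMap_w, swapN_w, mrMap_mInv]
  exact congrArg (fun f => f a) h

/-- The map of the blow ups. -/
noncomputable def blMap : Bl (ψ z) (ψ s) ⟶ Bl z s :=
  pushout.map _ _ _ _ (spMap (nrMap ψ z s)) (spMap (nrMap ψ s z)) (spMap (mrMap ψ z s))
    (by
      unfold blf
      rw [← spMap_comp, ← spMap_comp]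
      congr 1
      exact RingHom.ext fun a => (mrMap_of ψ z s a).symm)
    (by
      unfold blg
      rw [← spMap_comp, ← spMap_comp]
      congr 1
      exact RingHom.ext fun a => (mrMap_swapN ψ z s a).symm)

@[reassoc] theorem bl1_blMap : bl1 (ψ z) (ψ s) ≫ blMap ψ z s = spMap (nrMap ψ z s) ≫ bl1 z s :=
  pushout.inl_desc _ _ _

@[reassoc] theorem bl2_blMap : bl2 (ψ z) (ψ s) ≫ blMap ψ z s = spMap (nrMap ψ s z) ≫ bl2 z s :=
  pushout.inr_desc _ _ _

theorem range_blf : Set.range (blf z s) =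
    ((PrimeSpectrum.basicOpen (nw z s) : TopologicalSpace.Opens _) : Set (PrimeSpectrum _)) :=
  PrimeSpectrum.localization_away_comap_range (Localization.Away (nw z s)) (nw z s)

theorem bl1_mem_range_bl2 (x : Sp (NR z s)) :
    bl1 z s x ∈ Set.range (bl2 z s) ↔ nw z s ∉ x.asIdeal := by
  have h1 : bl1 z s x ∈ Set.range (bl2 z s) ↔ x ∈ Set.range (blf z s) := by
    constructor
    · rintro ⟨y, hy⟩
      obtain ⟨w, hw, -⟩ := glue2_eq (blf z s) (blg z s) x y hy.symm
      exact ⟨w, hw⟩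
    · rintro ⟨w, rfl⟩
      refine ⟨blg z s w, ?_⟩
      rw [← Scheme.Hom.comp_apply, ← bl_cond]
      rfl
  rw [h1, range_blf]
  rfl

theorem range_blg : Set.range (blg z s) =
    ((PrimeSpectrum.basicOpen (nw s z) : TopologicalSpace.Opens _) : Set (PrimeSpectrum _)) := by
  rw [blg_eq, ← range_blf]
  have : IsIso (spMap ((swapE z s : MR s z ≃+* MR z s) : MR s z →+* MR z s)) :=
    inferInstanceAs (IsIso (Scheme.Spec.mapIso (swapE z s).toCommRingCatIso.op).hom)
  ext x
  constructor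
  · rintro ⟨y, rfl⟩
    exact ⟨_, (Scheme.Hom.comp_apply _ _ _).symm⟩
  · rintro ⟨y, rfl⟩
    refine ⟨(inv (spMap ((swapE z s : MR s z ≃+* MR z s) : MR s z →+* MR z s))) y, ?_⟩
    rw [← Scheme.Hom.comp_apply, IsIso.inv_hom_id_assoc]

theorem bl2_mem_range_bl1 (y : Sp (NR s z)) :
    bl2 z s y ∈ Set.range (bl1 z s) ↔ nw s z ∉ y.asIdeal := by
  have h1 : bl2 z s y ∈ Set.range (bl1 z s) ↔ y ∈ Set.range (blg z s) := by
    constructor
    · rintro ⟨x, hx⟩
      obtain ⟨w, -, hw⟩ := glue2_eq (blf z s) (blg z s) x y hx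
      exact ⟨w, hw⟩
    · rintro ⟨w, rfl⟩
      refine ⟨blf z s w, ?_⟩
      rw [← Scheme.Hom.comp_apply, bl_cond]
      rfl
  rw [h1, range_blg]
  rfl

theorem blMap_isPullback : IsPullback (blMap ψ z s) (blπ (ψ z) (ψ s)) (blπ z s) (spMap ψ) := by
  refine cart_two (bl1_blMap ψ z s) (bl2_blMap ψ z s) (bl_cover z s) (bl_cover (ψ z) (ψ s)) ?_ ?_ ?_ ?_ ?_
  · intro y hy
    rw [bl2_mem_range_bl1] at hy ⊢
    intro h
    exact hy (by
      change nrMap ψ s z (nw s z) ∈ y.asIdeal
      rw [nrMap_w]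
      exact h)
  · intro x hx
    rw [bl1_mem_range_bl2] at hx ⊢
    intro h
    exact hx (by
      change nrMap ψ z s (nw z s) ∈ x.asIdeal
      rw [nrMap_w]
      exact h)
  · rw [bl1_π, bl1_π]
    exact nrMap_isPullback ψ z s
  · rw [bl2_π, bl2_π]
    exact nrMap_isPullback ψ s z
  · have e1 : bl1 (ψ z) (ψ s) ≫ blMap ψ z s ≫ blπ z s =
        bl1 (ψ z) (ψ s) ≫ blπ (ψ z) (ψ s) ≫ spMap ψ := by
      rw [bl1_blMap_assoc, bl1_π, ← Category.assoc, bl1_π]
      exact (nrMap_isPullback ψ z s).w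
    have e2 : bl2 (ψ z) (ψ s) ≫ blMap ψ z s ≫ blπ z s =
        bl2 (ψ z) (ψ s) ≫ blπ (ψ z) (ψ s) ≫ spMap ψ := by
      rw [bl2_blMap_assoc, bl2_π, ← Category.assoc, bl2_π]
      exact (nrMap_isPullback ψ s z).w
    exact pushout.hom_ext e1 e2

end Pool.Agent.MG
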