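import Pool.Agent.MG.Bub.Glue

/-!
# Base change of the bubble
-/

set_option linter.unusedSectionVars false

open CategoryTheory CategoryTheory.Limits AlgebraicGeometry

namespace Pool.Agent.MG

section

variable {R R' : Type} [CommRing R] [CommRing R'] (χ : R →+* R') (z s : R) (z' s' : R')
  (hz : z' = χ z) (hs : s' = χ s)

/-- The map of chart rings. -/
noncomputable def nrE : NR z s →+* NR z' s' :=
  nrLift ((algebraMap R' (NR z' s')).comp χ) (nw z' s') (by
    rw [RingHom.comp_apply, RingHom.comp_apply, ← hz, ← hs]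
    exact nw_rel z' s')

@[simp] theorem nrE_of (r : R) :
    nrE χ z s z' s' hz hs (algebraMap R (NR z s) r) = algebraMap R' (NR z' s') (χ r) :=
  nrLift_of _ _ _ _

@[simp] theorem nrE_w : nrE χ z s z' s' hz hs (nw z s) = nw z' s' := nrLift_w _ _ _

/-- The map of blow ups. -/
noncomputable def blE : Bl z' s' ⟶ Bl z s := by
  subst hz hs
  exact blMap χ z s

@[reassoc] theorem bl1_blE :
    bl1 z' s' ≫ blE χ z s z' s' hz hs = spMap (nrE χ z s z' s' hz hs) ≫ bl1 z s := by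
  subst hz hs
  exact bl1_blMap χ z s

@[reassoc] theorem bl2_blE :
    bl2 z' s' ≫ blE χ z s z' s' hz hs = spMap (nrE χ s z s' z' hs hz) ≫ bl2 z s := by
  subst hz hs
  exact bl2_blMap χ z s

theorem blE_isPullback :
    IsPullback (blE χ z s z' s' hz hs) (blπ z' s') (blπ z s) (spMap χ) := by
  subst hz hs
  exact blMap_isPullback χ z s

end

section

variable {A1 A2 A12 : Type} [CommRing A1] [CommRing A2] [CommRing A12]
  {α1 : A1 →+* A12} {α2 : A2 →+* A12} [IsOpenImmersion (spMap α1)] [IsOpenImmersion (spMap α2)]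
  {z s : A1} {hu : IsUnit (α1 z)}
  {A1' A2' A12' : Type} [CommRing A1'] [CommRing A2'] [CommRing A12']
  {α1' : A1' →+* A12'} {α2' : A2' →+* A12'} [IsOpenImmersion (spMap α1')]
  [IsOpenImmersion (spMap α2')] {z' s' : A1'} {hu' : IsUnit (α1' z')}
  {χ1 : A1 →+* A1'} {χ2 : A2 →+* A2'} {χ12 : A12 →+* A12'}
  (hz : z' = χ1 z) (hs : s' = χ1 s)
  (sq1 : IsPullback (spMap χ12) (spMap α1') (spMap α1) (spMap χ1))
  (sq2 : IsPullback (spMap χ12) (spMap α2') (spMap α2) (spMap χ2))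

include sq1 in
theorem blj_blE : blj α1' z' s' hu' ≫ blE χ1 z s z' s' hz hs = spMap χ12 ≫ blj α1 z s hu := by
  have h1 : (blj α1' z' s' hu' ≫ blE χ1 z s z' s' hz hs) ≫ blπ z s = spMap χ12 ≫ spMap α1 := by
    rw [Category.assoc, (blE_isPullback χ1 z s z' s' hz hs).w, blj_π_assoc, sq1.w]
  have h2 := (blj_isPullback α1 z s hu).lift_fst _ _ h1
  have h3 := (blj_isPullback α1 z s hu).lift_snd _ _ h1
  rw [Category.comp_id] at h3
  rw [← h2, h3]

/-- The base change map of bubbles. -/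
noncomputable def bubE : Bub α1' α2' z' s' hu' ⟶ Bub α1 α2 z s hu :=
  pushout.desc (blE χ1 z s z' s' hz hs ≫ bubl α1 α2 z s hu) (spMap χ2 ≫ bubr α1 α2 z s hu) (by
    rw [← Category.assoc, blj_blE hz hs sq1 (hu := hu), Category.assoc, bub_cond,
      ← Category.assoc, ← Category.assoc, sq2.w])

@[reassoc] theorem bubl_bubE : bubl α1' α2' z' s' hu' ≫ bubE (hu := hu) hz hs sq1 sq2 =
    blE χ1 z s z' s' hz hs ≫ bubl α1 α2 z s hu := pushout.inl_desc _ _ _

@[reassoc] theorem bubr_bubE : bubr α1' α2' z' s' hu' ≫ bubE (hu := hu) hz hs sq1 sq2 =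
    spMap χ2 ≫ bubr α1 α2 z s hu := pushout.inr_desc _ _ _

/-- Base change of bubbles. -/
theorem bubE_isPullback {S S' : Scheme.{0}} {b : S' ⟶ S} {p : Bub α1 α2 z s hu ⟶ S}
    {p' : Bub α1' α2' z' s' hu' ⟶ S'} {q1 : Sp A1 ⟶ S} {q2 : Sp A2 ⟶ S} {q1' : Sp A1' ⟶ S'}
    {q2' : Sp A2' ⟶ S'} (h1 : bubl α1 α2 z s hu ≫ p = blπ z s ≫ q1)
    (h2 : bubr α1 α2 z s hu ≫ p = q2) (h1' : bubl α1' α2' z' s' hu' ≫ p' = blπ z' s' ≫ q1')
    (h2' : bubr α1' α2' z' s' hu' ≫ p' = q2') (t1 : IsPullback (spMap χ1) q1' q1 b)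
    (t2 : IsPullback (spMap χ2) q2' q2 b) :
    IsPullback (bubE (hu := hu) hz hs sq1 sq2) p' p b := by
  have e1 : bubl α1' α2' z' s' hu' ≫ bubE (hu := hu) hz hs sq1 sq2 ≫ p =
      bubl α1' α2' z' s' hu' ≫ p' ≫ b := by
    rw [bubl_bubE_assoc, h1, ← Category.assoc, (blE_isPullback χ1 z s z' s' hz hs).w,
      Category.assoc, t1.w, ← Category.assoc, ← Category.assoc, h1']
  have e2 : bubr α1' α2' z' s' hu' ≫ bubE (hu := hu) hz hs sq1 sq2 ≫ p =
      bubr α1' α2' z' s' hu' ≫ p' ≫ b := by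
    rw [bubr_bubE_assoc, h2, t2.w, ← Category.assoc, h2']
  refine cart_two (bubl_bubE hz hs sq1 sq2) (bubr_bubE hz hs sq1 sq2) (bub_cover α1 α2 z s hu)
    (bub_cover α1' α2' z' s' hu') ?_ ?_ ?_ ?_ (pushout.hom_ext e1 e2)
  · rintro y ⟨x, hx⟩
    obtain ⟨w, -, hw⟩ := Scheme.exists_preimage_of_isPullback (bub_isPullback α1 α2 z s hu) x
      (spMap χ2 y) hx
    obtain ⟨w', -, hw'⟩ := Scheme.exists_preimage_of_isPullback sq2 w y hw
    refine ⟨blj α1' z' s' hu' w', ?_⟩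
    rw [← Scheme.Hom.comp_apply, bub_cond, Scheme.Hom.comp_apply]
    exact congrArg _ hw'
  · rintro x ⟨y, hy⟩
    obtain ⟨w, hw, -⟩ := Scheme.exists_preimage_of_isPullback (bub_isPullback α1 α2 z s hu)
      (blE χ1 z s z' s' hz hs x) y hy.symm
    have h3 : spMap α1 w = spMap χ1 (blπ z' s' x) := by
      have h4 := congrArg (fun f => f x) (blE_isPullback χ1 z s z' s' hz hs).w
      have h5 : blπ z s (blE χ1 z s z' s' hz hs x) = spMap χ1 (blπ z' s' x) := by
        rw [← Scheme.Hom.comp_apply, ← Scheme.Hom.comp_apply,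
          (blE_isPullback χ1 z s z' s' hz hs).w]
      rw [← h5, ← hw]
      have h6 := congrArg (fun (f : Sp A12 ⟶ Sp A1) => f w) (blj_π α1 z s hu)
      exact h6.symm
    obtain ⟨w1, -, hw1⟩ := Scheme.exists_preimage_of_isPullback sq1 w (blπ z' s' x) h3
    obtain ⟨w2, hw2, -⟩ := Scheme.exists_preimage_of_isPullback (blj_isPullback α1' z' s' hu') x w1
      hw1.symm
    refine ⟨spMap α2' w2, ?_⟩
    rw [← Scheme.Hom.comp_apply, ← bub_cond, Scheme.Hom.comp_apply]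
    exact congrArg _ hw2
  · rw [h1, h1']
    exact (blE_isPullback χ1 z s z' s' hz hs).paste_vert t1
  · rw [h2, h2']
    exact t2

end

end Pool.Agent.MG
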