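import Pool.Agent.MG.Bub.Zero
import Pool.Agent.MG.Bub.Open
import Pool.Agent.MG.CHB

/-!
# The charts of the bubble family
-/

set_option linter.unusedSectionVars false

open CategoryTheory CategoryTheory.Limits AlgebraicGeometry TensorProduct

namespace Pool.Agent.MG

section Gen

variable {k : Type} [Field k] {B : Type} [CommRing B] [Algebra k B]

/-- Functions on the preimage of a chart. -/
theorem exT {X Y : Scheme.{0}} (π : X ⟶ Sp B) (ρ : Y ⟶ Sp k) (q : X ⟶ Y)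
    (hq : q ≫ ρ = π ≫ spMap (algebraMap k B)) {R : Type} [CommRing R] [Algebra k R]
    (W : Y.Opens) (t : k ⊗[k] R →+* Γ(Y, W)) (ht : ∀ c, t (c ⊗ₜ 1) = coef ρ W c) :
    ∃ L : B ⊗[k] R →+* Γ(X, q ⁻¹ᵁ W), (∀ b, L (b ⊗ₜ 1) = coef π _ b) ∧
      ∀ r, L (1 ⊗ₜ r) = (q.appLE W (q ⁻¹ᵁ W) le_rfl).hom (t (1 ⊗ₜ r)) := by
  obtain ⟨L, h1, h2⟩ := tens_lift (B := B) (R := R) (coef π (q ⁻¹ᵁ W))
    ((q.appLE W (q ⁻¹ᵁ W) le_rfl).hom.comp (t.comp (inR k k R))) (fun c => by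
      simp only [RingHom.comp_apply, inR_apply]
      have h1 : (1 : k) ⊗ₜ[k] (algebraMap k R c) = c ⊗ₜ[k] (1 : R) := tens_scalar R c
      rw [h1, ht, coef_comp, hq, coef_spMap])
  exact ⟨L, h1, h2⟩

/-- Evaluation of the functions on the preimage of a chart. -/
theorem evO_T {X Y : Scheme.{0}} {π : X ⟶ Sp B} {q : X ⟶ Y} {R : Type} [CommRing R] [Algebra k R]
    {W : Y.Opens} {t : k ⊗[k] R →+* Γ(Y, W)} {L : B ⊗[k] R →+* Γ(X, q ⁻¹ᵁ W)}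
    (h1 : ∀ b, L (b ⊗ₜ 1) = coef π _ b)
    (h2 : ∀ r, L (1 ⊗ₜ r) = (q.appLE W (q ⁻¹ᵁ W) le_rfl).hom (t (1 ⊗ₜ r)))
    {A : Type} [CommRing A] (i : Sp A ⟶ X) (hi : ⊤ ≤ i ⁻¹ᵁ (q ⁻¹ᵁ W)) (χ : B ⊗[k] R →+* A)
    (e1 : i ≫ π = spMap (χ.comp (inL k B R))) (io : Sp R ⟶ Y) (ho : ⊤ ≤ io ⁻¹ᵁ W)
    (e2 : i ≫ q = spMap (χ.comp (inR k B R)) ≫ io) (e3 : ∀ r, evO io W ho (t (1 ⊗ₜ r)) = r)
    (u : B ⊗[k] R) : evO i _ hi (L u) = χ u := by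
  refine tensor_ind (f := (evO i _ hi).comp L) (g := χ) ?_ ?_ u
  · intro b
    rw [RingHom.comp_apply, h1, evO_coef i π _ e1]
    rfl
  · intro r
    rw [RingHom.comp_apply, h2]
    have h3 : ⊤ ≤ (i ≫ q) ⁻¹ᵁ W := hi
    rw [evO_app i q le_rfl hi h3]
    have h4 : ∀ (f : Sp A ⟶ Y) (_ : f = spMap (χ.comp (inR k B R)) ≫ io) (h : ⊤ ≤ f ⁻¹ᵁ W),
        evO f W h (t (1 ⊗ₜ r)) = χ (1 ⊗ₜ r) := by
      intro f hf h
      subst hf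
      rw [evO_spMap io _ ho h, e3]
      rfl
    exact h4 _ e2 h3

theorem evO_fromSpec {Y : Scheme.{0}} {W : Y.Opens} (hW : IsAffineOpen W)
    (h : ⊤ ≤ (hW.fromSpec : Sp Γ(Y, W) ⟶ Y) ⁻¹ᵁ W) (a : Γ(Y, W)) :
    evO (hW.fromSpec : Sp Γ(Y, W) ⟶ Y) W h a = a := by
  have h1 : hW.fromSpec.appLE W ⊤ h = (Scheme.ΓSpecIso Γ(Y, W)).inv := by
    have h2 : hW.fromSpec.appLE W ⊤ h = hW.fromSpec.app W ≫
        (Spec Γ(Y, W)).presheaf.map (homOfLE h).op := rfl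
    rw [h2, hW.fromSpec_app_self, Category.assoc, ← Functor.map_comp]
    have h3 : (eqToHom hW.fromSpec_preimage_self).op ≫ (homOfLE h).op = 𝟙 _ :=
      Subsingleton.elim _ _
    rw [h3, CategoryTheory.Functor.map_id, Category.comp_id]
  unfold evO
  rw [RingHom.comp_apply]
  have h4 : (hW.fromSpec.appLE W ⊤ h).hom a = (Scheme.ΓSpecIso Γ(Y, W)).inv.hom a := by rw [h1]
  refine (congrArg _ h4).trans ?_
  change ((Scheme.ΓSpecIso Γ(Y, W)).inv ≫ (Scheme.ΓSpecIso Γ(Y, W)).hom) a = a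
  rw [Iso.inv_hom_id]
  rfl

end Gen

section

variable {n : ℕ} {k : Type} [Field k] {C : Fam n k} {T : TC k} {ct : Charted T C} (ha : ct.Aff)

theorem io1_le : ⊤ ≤ io1 ha ⁻¹ᵁ ct.U1 :=
  le_of_range _ fun p => by
    have : io1 ha p ∈ Set.range (io1 ha) := ⟨p, rfl⟩
    rw [range_io1] at this
    exact this

theorem io2_le : ⊤ ≤ io2 ha ⁻¹ᵁ ct.U2 :=
  le_of_range _ fun p => by
    have : io2 ha p ∈ Set.range (io2 ha) := ⟨p, rfl⟩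
    rw [range_io2] at this
    exact this

theorem io12_le : ⊤ ≤ io12 ha ⁻¹ᵁ (ct.U1 ⊓ ct.U2) :=
  le_of_range _ fun p => by
    have : io12 ha p ∈ Set.range (io12 ha) := ⟨p, rfl⟩
    rw [range_io12] at this
    exact this

theorem evO_io1 (r : T.R1) : evO (io1 ha) ct.U1 (io1_le ha) (ct.t1 (1 ⊗ₜ r)) = r := by
  have h : ⊤ ≤ (ha.aff1.fromSpec : Sp Γ(C.X, ct.U1) ⟶ C.X) ⁻¹ᵁ ct.U1 :=
    le_of_range _ fun p => by
      have : ha.aff1.fromSpec p ∈ Set.range ha.aff1.fromSpec := ⟨p, rfl⟩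
      rw [ha.aff1.range_fromSpec] at this
      exact this
  have h1 := evO_spMap (ha.aff1.fromSpec : Sp Γ(C.X, ct.U1) ⟶ C.X)
    ((ct.eq1.symm.trans (lidE k T.R1) : Γ(C.X, ct.U1) ≃+* T.R1) : Γ(C.X, ct.U1) →+* T.R1) h
    (io1_le ha) (ct.t1 (1 ⊗ₜ r))
  rw [evO_fromSpec] at h1
  refine h1.trans ?_
  change lidE k T.R1 (ct.eq1.symm (ct.eq1 (1 ⊗ₜ r))) = r
  rw [RingEquiv.symm_apply_apply]
  change (1 : k) • r = r
  rw [one_smul]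

theorem evO_io2 (r : T.R2) : evO (io2 ha) ct.U2 (io2_le ha) (ct.t2 (1 ⊗ₜ r)) = r := by
  have h : ⊤ ≤ (ha.aff2.fromSpec : Sp Γ(C.X, ct.U2) ⟶ C.X) ⁻¹ᵁ ct.U2 :=
    le_of_range _ fun p => by
      have : ha.aff2.fromSpec p ∈ Set.range ha.aff2.fromSpec := ⟨p, rfl⟩
      rw [ha.aff2.range_fromSpec] at this
      exact this
  have h1 := evO_spMap (ha.aff2.fromSpec : Sp Γ(C.X, ct.U2) ⟶ C.X)
    ((ct.eq2.symm.trans (lidE k T.R2) : Γ(C.X, ct.U2) ≃+* T.R2) : Γ(C.X, ct.U2) →+* T.R2) h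
    (io2_le ha) (ct.t2 (1 ⊗ₜ r))
  rw [evO_fromSpec] at h1
  refine h1.trans ?_
  change lidE k T.R2 (ct.eq2.symm (ct.eq2 (1 ⊗ₜ r))) = r
  rw [RingEquiv.symm_apply_apply]
  change (1 : k) • r = r
  rw [one_smul]

theorem evO_io12 (r : T.R12) :
    evO (io12 ha) (ct.U1 ⊓ ct.U2) (io12_le ha) (ct.t12 (1 ⊗ₜ r)) = r := by
  have h : ⊤ ≤ (ha.aff12.fromSpec : Sp Γ(C.X, ct.U1 ⊓ ct.U2) ⟶ C.X) ⁻¹ᵁ (ct.U1 ⊓ ct.U2) :=
    le_of_range _ fun p => by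
      have : ha.aff12.fromSpec p ∈ Set.range ha.aff12.fromSpec := ⟨p, rfl⟩
      rw [ha.aff12.range_fromSpec] at this
      exact this
  have h1 := evO_spMap (ha.aff12.fromSpec : Sp Γ(C.X, ct.U1 ⊓ ct.U2) ⟶ C.X)
    ((ct.eq12.symm.trans (lidE k T.R12) : Γ(C.X, ct.U1 ⊓ ct.U2) ≃+* T.R12) :
      Γ(C.X, ct.U1 ⊓ ct.U2) →+* T.R12) h
    (io12_le ha) (ct.t12 (1 ⊗ₜ r))
  rw [evO_fromSpec] at h1
  refine h1.trans ?_
  change lidE k T.R12 (ct.eq12.symm (ct.eq12 (1 ⊗ₜ r))) = r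
  rw [RingEquiv.symm_apply_apply]
  change (1 : k) • r = r
  rw [one_smul]

end

end Pool.Agent.MG
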