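import Pool.Agent.MG.Bub.Chart

/-!
# The charted structure of the bubble family
-/

set_option linter.unusedSectionVars false

open CategoryTheory CategoryTheory.Limits AlgebraicGeometry TensorProduct

namespace Pool.Agent.MG

section

variable {n : ℕ} {k : Type} [Field k] {C : Fam n k} {T : TC k} {ct : Charted T C}
  (ha : ct.Aff) (z0 : T.R1) (hz0 : IsUnit (T.j1 z0)) (B : Type) [CommRing B] [Algebra k B] (b : B)

theorem bq_π : bq ha z0 hz0 B b ≫ C.π = bπ ha z0 hz0 B b ≫ spMap (algebraMap k B) := by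
  unfold bq bπ
  rw [Category.assoc, Category.assoc, pullback.condition]

theorem mem_U1 (x : bX ha z0 hz0 B b) :
    bq ha z0 hz0 B b x ∈ ct.U1 ↔ x ∈ Set.range (bL ha z0 hz0 B b) := by
  constructor
  · intro h
    have h1 : bq ha z0 hz0 B b x ∈ Set.range (io1 ha) := by
      rw [range_io1]
      exact h
    obtain ⟨p, hp⟩ := h1
    have h2 : pullback.fst C.π (spMap (algebraMap k B)) (bC ha z0 hz0 B b x) = io1 ha p := hp.symm
    obtain ⟨w, hw, -⟩ := Scheme.exists_preimage_of_isPullback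
      (kap_isPullback B (io1 ha) (io1_π ha)) _ p h2
    obtain ⟨y, hy, -⟩ := Scheme.exists_preimage_of_isPullback
      (bC_isPullback1 ha z0 hz0 B b) x w hw.symm
    exact ⟨y, hy⟩
  · rintro ⟨y, rfl⟩
    have h1 : bq ha z0 hz0 B b (bL ha z0 hz0 B b y) ∈ Set.range (io1 ha) := by
      refine ⟨spMap (inR k B T.R1) (blπ _ _ y), ?_⟩
      rw [← Scheme.Hom.comp_apply, ← Scheme.Hom.comp_apply, ← Scheme.Hom.comp_apply, bL_q']
    rw [range_io1] at h1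
    exact h1

theorem mem_U2 (x : bX ha z0 hz0 B b) :
    bq ha z0 hz0 B b x ∈ ct.U2 ↔ x ∈ Set.range (bR ha z0 hz0 B b) := by
  constructor
  · intro h
    have h1 : bq ha z0 hz0 B b x ∈ Set.range (io2 ha) := by
      rw [range_io2]
      exact h
    obtain ⟨p, hp⟩ := h1
    have h2 : pullback.fst C.π (spMap (algebraMap k B)) (bC ha z0 hz0 B b x) = io2 ha p := hp.symm
    obtain ⟨w, hw, -⟩ := Scheme.exists_preimage_of_isPullback
      (kap_isPullback B (io2 ha) (io2_π ha)) _ p h2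
    obtain ⟨y, hy, -⟩ := Scheme.exists_preimage_of_isPullback
      (bC_isPullback2 ha z0 hz0 B b) x w hw.symm
    exact ⟨y, hy⟩
  · rintro ⟨y, rfl⟩
    have h1 : bq ha z0 hz0 B b (bR ha z0 hz0 B b y) ∈ Set.range (io2 ha) := by
      refine ⟨spMap (inR k B T.R2) y, ?_⟩
      rw [← Scheme.Hom.comp_apply, ← Scheme.Hom.comp_apply, bR_q]
    rw [range_io2] at h1
    exact h1

/-- The first affine chart. -/
noncomputable def i1 : Sp (NR ((1 : B) ⊗ₜ[k] z0) (b ⊗ₜ[k] (1 : T.R1))) ⟶ bX ha z0 hz0 B b :=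
  bl1 _ _ ≫ bL ha z0 hz0 B b

/-- The second affine chart. -/
noncomputable def i2 : Sp (NR (b ⊗ₜ[k] (1 : T.R1)) ((1 : B) ⊗ₜ[k] z0)) ⟶ bX ha z0 hz0 B b :=
  bl2 _ _ ≫ bL ha z0 hz0 B b

/-- The intersection of the first two affine charts. -/
noncomputable def i12 : Sp (MR ((1 : B) ⊗ₜ[k] z0) (b ⊗ₜ[k] (1 : T.R1))) ⟶ bX ha z0 hz0 B b :=
  blf _ _ ≫ i1 ha z0 hz0 B b

/-- The part of the third affine chart over the intersection. -/
noncomputable def iJ : Sp (B ⊗[k] T.R12) ⟶ bX ha z0 hz0 B b :=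
  spMap (bmap B T.j2) ≫ bR ha z0 hz0 B b

instance : IsOpenImmersion (i1 ha z0 hz0 B b) := by unfold i1; infer_instance

instance : IsOpenImmersion (i2 ha z0 hz0 B b) := by unfold i2; infer_instance

instance : IsOpenImmersion (i12 ha z0 hz0 B b) := by unfold i12; infer_instance

instance : IsOpenImmersion (iJ ha z0 hz0 B b) := by
  have := bj2_open ha B
  unfold iJ
  infer_instance

theorem i12_eq : i12 ha z0 hz0 B b = blg _ _ ≫ i2 ha z0 hz0 B b := by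
  unfold i12 i1 i2
  rw [← Category.assoc, bl_cond, Category.assoc]

theorem iJ_eq : iJ ha z0 hz0 B b = bJ z0 hz0 B b ≫ bL ha z0 hz0 B b := (b_cond ha z0 hz0 B b).symm

theorem i1_π : i1 ha z0 hz0 B b ≫ bπ ha z0 hz0 B b =
    spMap ((algebraMap (B ⊗[k] T.R1) (NR ((1 : B) ⊗ₜ[k] z0) (b ⊗ₜ[k] (1 : T.R1)))).comp
      (inL k B T.R1)) := by
  unfold i1
  rw [Category.assoc, bL_π, bl1_π_assoc, spMap_comp]

theorem i2_π : i2 ha z0 hz0 B b ≫ bπ ha z0 hz0 B b =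
    spMap ((algebraMap (B ⊗[k] T.R1) (NR (b ⊗ₜ[k] (1 : T.R1)) ((1 : B) ⊗ₜ[k] z0))).comp
      (inL k B T.R1)) := by
  unfold i2
  rw [Category.assoc, bL_π, bl2_π_assoc, spMap_comp]

theorem i1_q : i1 ha z0 hz0 B b ≫ bq ha z0 hz0 B b =
    spMap ((algebraMap (B ⊗[k] T.R1) (NR ((1 : B) ⊗ₜ[k] z0) (b ⊗ₜ[k] (1 : T.R1)))).comp
      (inR k B T.R1)) ≫ io1 ha := by
  unfold i1
  rw [Category.assoc, bL_q', bl1_π_assoc, spMap_comp, Category.assoc]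

theorem i2_q : i2 ha z0 hz0 B b ≫ bq ha z0 hz0 B b =
    spMap ((algebraMap (B ⊗[k] T.R1) (NR (b ⊗ₜ[k] (1 : T.R1)) ((1 : B) ⊗ₜ[k] z0))).comp
      (inR k B T.R1)) ≫ io1 ha := by
  unfold i2
  rw [Category.assoc, bL_q', bl2_π_assoc, spMap_comp, Category.assoc]

theorem iJ_π : iJ ha z0 hz0 B b ≫ bπ ha z0 hz0 B b = spMap (inL k B T.R12) := by
  unfold iJ
  rw [Category.assoc, bR_π, ← spMap_comp, bmap_inL]

theorem iJ_q : iJ ha z0 hz0 B b ≫ bq ha z0 hz0 B b = spMap (inR k B T.R12) ≫ io12 ha := by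
  unfold iJ
  rw [Category.assoc, bR_q, ← Category.assoc, ← spMap_comp, bmap_inR, spMap_comp, Category.assoc,
    io12_eq2]

/-- The first chart. -/
noncomputable abbrev bU1 : (bX ha z0 hz0 B b).Opens := bq ha z0 hz0 B b ⁻¹ᵁ ct.U1

/-- The second chart. -/
noncomputable abbrev bU2 : (bX ha z0 hz0 B b).Opens := bq ha z0 hz0 B b ⁻¹ᵁ ct.U2

/-- The intersection of the charts. -/
noncomputable abbrev bU12 : (bX ha z0 hz0 B b).Opens := bq ha z0 hz0 B b ⁻¹ᵁ (ct.U1 ⊓ ct.U2)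

theorem i1_le : ⊤ ≤ i1 ha z0 hz0 B b ⁻¹ᵁ bU1 ha z0 hz0 B b :=
  le_of_range _ fun p => (mem_U1 ha z0 hz0 B b _).2 ⟨bl1 _ _ p, by
    unfold i1
    rw [Scheme.Hom.comp_apply]⟩

theorem i2_le : ⊤ ≤ i2 ha z0 hz0 B b ⁻¹ᵁ bU1 ha z0 hz0 B b :=
  le_of_range _ fun p => (mem_U1 ha z0 hz0 B b _).2 ⟨bl2 _ _ p, by
    unfold i2
    rw [Scheme.Hom.comp_apply]⟩

theorem iR_le : ⊤ ≤ bR ha z0 hz0 B b ⁻¹ᵁ bU2 ha z0 hz0 B b :=
  le_of_range _ fun p => (mem_U2 ha z0 hz0 B b _).2 ⟨p, rfl⟩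

theorem iJ_le : ⊤ ≤ iJ ha z0 hz0 B b ⁻¹ᵁ bU12 ha z0 hz0 B b :=
  le_of_range _ fun p => ⟨(mem_U1 ha z0 hz0 B b _).2 ⟨bJ z0 hz0 B b p, by
    rw [iJ_eq, Scheme.Hom.comp_apply]⟩, (mem_U2 ha z0 hz0 B b _).2 ⟨spMap (bmap B T.j2) p, by
    unfold iJ
    rw [Scheme.Hom.comp_apply]⟩⟩

theorem cov1 (x : bX ha z0 hz0 B b) (hx : x ∈ bU1 ha z0 hz0 B b) :
    x ∈ Set.range (i1 ha z0 hz0 B b) ∨ x ∈ Set.range (i2 ha z0 hz0 B b) := by
  obtain ⟨y, rfl⟩ := (mem_U1 ha z0 hz0 B b x).1 hx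
  rcases bl_cover _ _ y with ⟨p, rfl⟩ | ⟨p, rfl⟩
  · left
    refine ⟨p, ?_⟩
    unfold i1
    rw [Scheme.Hom.comp_apply]
  · right
    refine ⟨p, ?_⟩
    unfold i2
    rw [Scheme.Hom.comp_apply]

theorem cov2 (x : bX ha z0 hz0 B b) (hx : x ∈ bU2 ha z0 hz0 B b) :
    x ∈ Set.range (bR ha z0 hz0 B b) := (mem_U2 ha z0 hz0 B b x).1 hx

theorem cov12 (x : bX ha z0 hz0 B b) (hx : x ∈ bU12 ha z0 hz0 B b) :
    x ∈ Set.range (iJ ha z0 hz0 B b) := by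
  obtain ⟨y, rfl⟩ := (mem_U2 ha z0 hz0 B b x).1 hx.2
  obtain ⟨y', hy'⟩ := (mem_U1 ha z0 hz0 B b _).1 hx.1
  obtain ⟨w, -, hw⟩ := Scheme.exists_preimage_of_isPullback (b_isPullback ha z0 hz0 B b) y' y hy'
  refine ⟨w, ?_⟩
  unfold iJ
  rw [Scheme.Hom.comp_apply, hw]

end

end Pool.Agent.MG
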