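import Pool.Agent.MG.Bub.Chart2

/-!
# The charted structure of the bubble family: functions
-/

set_option linter.unusedSectionVars false

open CategoryTheory CategoryTheory.Limits AlgebraicGeometry TensorProduct

namespace Pool.Agent.MG

section

variable {n : ℕ} {k : Type} [Field k] {C : Fam n k} {T : TC k} {ct : Charted T C}
  (ha : ct.Aff) (z0 : T.R1) (hz0 : IsUnit (T.j1 z0)) (B : Type) [CommRing B] [Algebra k B] (b : B)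

/-- Functions on the first chart. -/
noncomputable def bt1 : B ⊗[k] T.R1 →+* Γ(bX ha z0 hz0 B b, bU1 ha z0 hz0 B b) :=
  (exT (bπ ha z0 hz0 B b) C.π (bq ha z0 hz0 B b) (bq_π ha z0 hz0 B b) ct.U1 ct.t1 ct.c1).choose

theorem bt1_l (c : B) : bt1 ha z0 hz0 B b (c ⊗ₜ 1) = coef (bπ ha z0 hz0 B b) _ c :=
  (exT (bπ ha z0 hz0 B b) C.π (bq ha z0 hz0 B b) (bq_π ha z0 hz0 B b) ct.U1 ct.t1
    ct.c1).choose_spec.1 c

theorem bt1_r (r : T.R1) : bt1 ha z0 hz0 B b (1 ⊗ₜ r) =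
    ((bq ha z0 hz0 B b).appLE ct.U1 (bU1 ha z0 hz0 B b) le_rfl).hom (ct.t1 (1 ⊗ₜ r)) :=
  (exT (bπ ha z0 hz0 B b) C.π (bq ha z0 hz0 B b) (bq_π ha z0 hz0 B b) ct.U1 ct.t1
    ct.c1).choose_spec.2 r

/-- Functions on the second chart. -/
noncomputable def bt2 : B ⊗[k] T.R2 →+* Γ(bX ha z0 hz0 B b, bU2 ha z0 hz0 B b) :=
  (exT (bπ ha z0 hz0 B b) C.π (bq ha z0 hz0 B b) (bq_π ha z0 hz0 B b) ct.U2 ct.t2 ct.c2).choose

theorem bt2_l (c : B) : bt2 ha z0 hz0 B b (c ⊗ₜ 1) = coef (bπ ha z0 hz0 B b) _ c :=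
  (exT (bπ ha z0 hz0 B b) C.π (bq ha z0 hz0 B b) (bq_π ha z0 hz0 B b) ct.U2 ct.t2
    ct.c2).choose_spec.1 c

theorem bt2_r (r : T.R2) : bt2 ha z0 hz0 B b (1 ⊗ₜ r) =
    ((bq ha z0 hz0 B b).appLE ct.U2 (bU2 ha z0 hz0 B b) le_rfl).hom (ct.t2 (1 ⊗ₜ r)) :=
  (exT (bπ ha z0 hz0 B b) C.π (bq ha z0 hz0 B b) (bq_π ha z0 hz0 B b) ct.U2 ct.t2
    ct.c2).choose_spec.2 r

/-- Functions on the intersection. -/
noncomputable def bt12 : B ⊗[k] T.R12 →+* Γ(bX ha z0 hz0 B b, bU12 ha z0 hz0 B b) :=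
  (exT (bπ ha z0 hz0 B b) C.π (bq ha z0 hz0 B b) (bq_π ha z0 hz0 B b) (ct.U1 ⊓ ct.U2) ct.t12
    ct.c12).choose

theorem bt12_l (c : B) : bt12 ha z0 hz0 B b (c ⊗ₜ 1) = coef (bπ ha z0 hz0 B b) _ c :=
  (exT (bπ ha z0 hz0 B b) C.π (bq ha z0 hz0 B b) (bq_π ha z0 hz0 B b) (ct.U1 ⊓ ct.U2) ct.t12
    ct.c12).choose_spec.1 c

theorem bt12_r (r : T.R12) : bt12 ha z0 hz0 B b (1 ⊗ₜ r) =
    ((bq ha z0 hz0 B b).appLE (ct.U1 ⊓ ct.U2) (bU12 ha z0 hz0 B b) le_rfl).hom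
      (ct.t12 (1 ⊗ₜ r)) :=
  (exT (bπ ha z0 hz0 B b) C.π (bq ha z0 hz0 B b) (bq_π ha z0 hz0 B b) (ct.U1 ⊓ ct.U2) ct.t12
    ct.c12).choose_spec.2 r

theorem ev_i1 (u : B ⊗[k] T.R1) :
    evO (i1 ha z0 hz0 B b) _ (i1_le ha z0 hz0 B b) (bt1 ha z0 hz0 B b u) = algebraMap _ _ u :=
  evO_T (bt1_l ha z0 hz0 B b) (bt1_r ha z0 hz0 B b) _ _ _ (i1_π ha z0 hz0 B b) (io1 ha)
    (io1_le ha) (i1_q ha z0 hz0 B b) (evO_io1 ha) u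

theorem ev_i2 (u : B ⊗[k] T.R1) :
    evO (i2 ha z0 hz0 B b) _ (i2_le ha z0 hz0 B b) (bt1 ha z0 hz0 B b u) = algebraMap _ _ u :=
  evO_T (bt1_l ha z0 hz0 B b) (bt1_r ha z0 hz0 B b) _ _ _ (i2_π ha z0 hz0 B b) (io1 ha)
    (io1_le ha) (i2_q ha z0 hz0 B b) (evO_io1 ha) u

theorem ev_iR (u : B ⊗[k] T.R2) :
    evO (bR ha z0 hz0 B b) _ (iR_le ha z0 hz0 B b) (bt2 ha z0 hz0 B b u) = u :=
  evO_T (bt2_l ha z0 hz0 B b) (bt2_r ha z0 hz0 B b) _ _ (RingHom.id _)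
    (bR_π ha z0 hz0 B b) (io2 ha) (io2_le ha) (bR_q ha z0 hz0 b) (evO_io2 ha) u

theorem ev_iJ (u : B ⊗[k] T.R12) :
    evO (iJ ha z0 hz0 B b) _ (iJ_le ha z0 hz0 B b) (bt12 ha z0 hz0 B b u) = u :=
  evO_T (bt12_l ha z0 hz0 B b) (bt12_r ha z0 hz0 B b) _ _ (RingHom.id _)
    (iJ_π ha z0 hz0 B b) (io12 ha) (io12_le ha) (iJ_q ha z0 hz0 B b) (evO_io12 ha) u

theorem bt2_bij : Function.Bijective (bt2 ha z0 hz0 B b) := by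
  have h1 := evO_bij (bR ha z0 hz0 B b) (iR_le ha z0 hz0 B b) (cov2 ha z0 hz0 B b)
  refine ⟨fun u v huv => ?_, fun a => ⟨evO (bR ha z0 hz0 B b) _ (iR_le ha z0 hz0 B b) a, ?_⟩⟩
  · rw [← ev_iR ha z0 hz0 B b u, huv, ev_iR]
  · apply h1.1
    rw [ev_iR]

theorem bt12_bij : Function.Bijective (bt12 ha z0 hz0 B b) := by
  have h1 := evO_bij (iJ ha z0 hz0 B b) (iJ_le ha z0 hz0 B b) (cov12 ha z0 hz0 B b)
  refine ⟨fun u v huv => ?_, fun a => ⟨evO (iJ ha z0 hz0 B b) _ (iJ_le ha z0 hz0 B b) a, ?_⟩⟩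
  · rw [← ev_iJ ha z0 hz0 B b u, huv, ev_iJ]
  · apply h1.1
    rw [ev_iJ]

theorem i12_le : ⊤ ≤ i12 ha z0 hz0 B b ⁻¹ᵁ bU1 ha z0 hz0 B b :=
  le_of_range _ fun p => by
    unfold i12
    rw [Scheme.Hom.comp_apply]
    exact mem_pre _ _ (i1_le ha z0 hz0 B b) _

/-- A function on the first chart gives functions on the two affine charts which agree on the
intersection. -/
theorem ev_agree (a : Γ(bX ha z0 hz0 B b, bU1 ha z0 hz0 B b)) :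
    algebraMap (NR ((1 : B) ⊗ₜ[k] z0) (b ⊗ₜ[k] (1 : T.R1)))
      (MR ((1 : B) ⊗ₜ[k] z0) (b ⊗ₜ[k] (1 : T.R1)))
      (evO (i1 ha z0 hz0 B b) _ (i1_le ha z0 hz0 B b) a) =
    swapN _ _ (evO (i2 ha z0 hz0 B b) _ (i2_le ha z0 hz0 B b) a) := by
  have h1 := evO_spMap (i1 ha z0 hz0 B b) (algebraMap (NR ((1 : B) ⊗ₜ[k] z0)
    (b ⊗ₜ[k] (1 : T.R1))) (MR ((1 : B) ⊗ₜ[k] z0) (b ⊗ₜ[k] (1 : T.R1)))) (i1_le ha z0 hz0 B b)
    (i12_le ha z0 hz0 B b) a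
  rw [← h1]
  have h2 : ∀ (f : Sp (MR ((1 : B) ⊗ₜ[k] z0) (b ⊗ₜ[k] (1 : T.R1))) ⟶ bX ha z0 hz0 B b)
      (_ : f = blg _ _ ≫ i2 ha z0 hz0 B b) (h : ⊤ ≤ f ⁻¹ᵁ bU1 ha z0 hz0 B b),
      evO f _ h a = swapN _ _ (evO (i2 ha z0 hz0 B b) _ (i2_le ha z0 hz0 B b) a) := by
    intro f hf h
    subst hf
    exact evO_spMap (i2 ha z0 hz0 B b) (swapN _ _) (i2_le ha z0 hz0 B b) h a
  exact h2 _ (i12_eq ha z0 hz0 B b) (i12_le ha z0 hz0 B b)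

theorem bt1_bij (hz : ∀ a : B ⊗[k] T.R1, ((1 : B) ⊗ₜ[k] z0) * a = 0 → a = 0) :
    Function.Bijective (bt1 ha z0 hz0 B b) := by
  constructor
  · rw [injective_iff_map_eq_zero]
    intro u hu
    apply bub_inj _ _ hz
    rw [← ev_i1 ha z0 hz0 B b u, hu, map_zero]
  · intro a
    obtain ⟨r, h1, h2⟩ := bub_H0 _ _ _ _ (ev_agree ha z0 hz0 B b a)
    refine ⟨r, ?_⟩
    rw [← sub_eq_zero]
    apply evO_un (i1 ha z0 hz0 B b) (i2 ha z0 hz0 B b) (i1_le ha z0 hz0 B b)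
      (i2_le ha z0 hz0 B b) (cov1 ha z0 hz0 B b)
    · rw [map_sub, ev_i1, h1, sub_self]
    · rw [map_sub, ev_i2, h2, sub_self]

theorem r1_aux (a : T.R1) : rs (bX ha z0 hz0 B b) (inf_le_left : bU1 ha z0 hz0 B b ⊓
    bU2 ha z0 hz0 B b ≤ bU1 ha z0 hz0 B b) (bt1 ha z0 hz0 B b (1 ⊗ₜ a)) =
      bt12 ha z0 hz0 B b (1 ⊗ₜ T.j1 a) := by
  rw [bt1_r, bt12_r, ← ct.r1]
  change ((bq ha z0 hz0 B b).appLE _ _ _ ≫ (bX ha z0 hz0 B b).presheaf.map (homOfLE _).op) _ =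
    (C.X.presheaf.map (homOfLE _).op ≫ (bq ha z0 hz0 B b).appLE _ _ _) _
  rw [Scheme.Hom.map_appLE, Scheme.Hom.appLE_map]

theorem r2_aux (a : T.R2) : rs (bX ha z0 hz0 B b) (inf_le_right : bU1 ha z0 hz0 B b ⊓
    bU2 ha z0 hz0 B b ≤ bU2 ha z0 hz0 B b) (bt2 ha z0 hz0 B b (1 ⊗ₜ a)) =
      bt12 ha z0 hz0 B b (1 ⊗ₜ T.j2 a) := by
  rw [bt2_r, bt12_r, ← ct.r2]
  change ((bq ha z0 hz0 B b).appLE _ _ _ ≫ (bX ha z0 hz0 B b).presheaf.map (homOfLE _).op) _ =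
    (C.X.presheaf.map (homOfLE _).op ≫ (bq ha z0 hz0 B b).appLE _ _ _) _
  rw [Scheme.Hom.map_appLE, Scheme.Hom.appLE_map]

theorem opens_eq {A : Type} [CommRing A] {X : Scheme.{0}} (i : Sp A ⟶ X) [IsOpenImmersion i]
    {U : X.Opens} (h : ⊤ ≤ i ⁻¹ᵁ U) (hU : ∀ x ∈ U, x ∈ Set.range i) : U = i.opensRange := by
  ext x
  constructor
  · exact hU x
  · rintro ⟨p, rfl⟩
    exact mem_pre i U h p

theorem aff_of {A : Type} [CommRing A] {X : Scheme.{0}} (i : Sp A ⟶ X) [IsOpenImmersion i]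
    {U : X.Opens} (h : ⊤ ≤ i ⁻¹ᵁ U) (hU : ∀ x ∈ U, x ∈ Set.range i) : IsAffineOpen U := by
  rw [opens_eq i h hU]
  exact isAffineOpen_opensRange i

theorem range_i12 : (i1 ha z0 hz0 B b).opensRange ⊓ (i2 ha z0 hz0 B b).opensRange =
    (i12 ha z0 hz0 B b).opensRange := by
  ext x
  constructor
  · rintro ⟨⟨p, hp⟩, ⟨r, hr⟩⟩
    have h1 : bl1 ((1 : B) ⊗ₜ[k] z0) (b ⊗ₜ[k] (1 : T.R1)) p = bl2 _ _ r := by
      apply (bL ha z0 hz0 B b).isOpenEmbedding.injective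
      rw [← Scheme.Hom.comp_apply, ← Scheme.Hom.comp_apply]
      exact hp.trans hr.symm
    obtain ⟨w, hw, -⟩ := Scheme.exists_preimage_of_isPullback
      (bl_isPullback ((1 : B) ⊗ₜ[k] z0) (b ⊗ₜ[k] (1 : T.R1))) p r h1
    refine ⟨w, ?_⟩
    unfold i12
    rw [Scheme.Hom.comp_apply, hw]
    exact hp
  · rintro ⟨p, rfl⟩
    constructor
    · refine ⟨blf _ _ p, ?_⟩
      unfold i12
      rw [Scheme.Hom.comp_apply]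
    · refine ⟨blg _ _ p, ?_⟩
      rw [i12_eq, Scheme.Hom.comp_apply]

theorem ac1_aux : Acyc (bU1 ha z0 hz0 B b) := by
  refine ⟨(i1 ha z0 hz0 B b).opensRange, (i2 ha z0 hz0 B b).opensRange,
    isAffineOpen_opensRange _, isAffineOpen_opensRange _, ?_, ?_, ?_⟩
  · rw [range_i12]
    exact isAffineOpen_opensRange _
  · ext x
    constructor
    · rintro (⟨p, rfl⟩ | ⟨p, rfl⟩)
      · exact mem_pre _ _ (i1_le ha z0 hz0 B b) p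
      · exact mem_pre _ _ (i2_le ha z0 hz0 B b) p
    · exact cov1 ha z0 hz0 B b x
  · intro s
    have hle : ⊤ ≤ i12 ha z0 hz0 B b ⁻¹ᵁ
        ((i1 ha z0 hz0 B b).opensRange ⊓ (i2 ha z0 hz0 B b).opensRange) := by
      rw [range_i12]
      exact range_pre _
    have hbij := evO_bij (i12 ha z0 hz0 B b) hle (fun x hx => by
      rw [range_i12] at hx
      exact hx)
    obtain ⟨f, g, hfg⟩ := bub_H1 _ _ (evO (i12 ha z0 hz0 B b) _ hle s)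
    obtain ⟨a, ha'⟩ := (evO_bij (i1 ha z0 hz0 B b) (range_pre _) (fun x hx => hx)).2 f
    obtain ⟨c, hc⟩ := (evO_bij (i2 ha z0 hz0 B b) (range_pre _) (fun x hx => hx)).2 g
    refine ⟨a, c, hbij.1 ?_⟩
    have l1 : ⊤ ≤ i12 ha z0 hz0 B b ⁻¹ᵁ (i1 ha z0 hz0 B b).opensRange :=
      hle.trans fun p hp => hp.1
    have l2 : ⊤ ≤ i12 ha z0 hz0 B b ⁻¹ᵁ (i2 ha z0 hz0 B b).opensRange :=
      hle.trans fun p hp => hp.2
    rw [map_add, evO_rs _ _ hle l1, evO_rs _ _ hle l2, hfg, ← ha', ← hc]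
    congr 1
    · exact (evO_spMap (i1 ha z0 hz0 B b) (algebraMap (NR ((1 : B) ⊗ₜ[k] z0)
        (b ⊗ₜ[k] (1 : T.R1))) (MR ((1 : B) ⊗ₜ[k] z0) (b ⊗ₜ[k] (1 : T.R1)))) (range_pre _)
        l1 a).symm
    · have h2 : ∀ (f : Sp (MR ((1 : B) ⊗ₜ[k] z0) (b ⊗ₜ[k] (1 : T.R1))) ⟶ bX ha z0 hz0 B b)
          (_ : f = blg _ _ ≫ i2 ha z0 hz0 B b) (h : ⊤ ≤ f ⁻¹ᵁ (i2 ha z0 hz0 B b).opensRange),
          swapN _ _ (evO (i2 ha z0 hz0 B b) _ (range_pre _) c) = evO f _ h c := by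
        intro f hf h
        subst hf
        exact (evO_spMap (i2 ha z0 hz0 B b) (swapN _ _) (range_pre _) h c).symm
      exact h2 _ (i12_eq ha z0 hz0 B b) l2

theorem ac2_aux : Acyc (bU2 ha z0 hz0 B b) :=
  CHB.acyc_of_affine (aff_of _ (iR_le ha z0 hz0 B b) (cov2 ha z0 hz0 B b))

theorem ac12_aux : Acyc (bU1 ha z0 hz0 B b ⊓ bU2 ha z0 hz0 B b) :=
  CHB.acyc_of_affine (aff_of _ (iJ_le ha z0 hz0 B b) (cov12 ha z0 hz0 B b))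

end

section

variable {n : ℕ} {k : Type} [Field k] {C : Fam n k} {T : TC k} (ch : Cht C T) (i₀ j : Fin n)
  (hji : j ≠ i₀) {B : Type} [CommRing B] [Algebra k B] (φ : T.R1 →ₐ[k] B)

/-- The charts of the bubble family. -/
noncomputable def bubCt : Charted T (bubFam ch i₀ j φ hji) where
  U1 := bU1 ch.aff (zz ch j) (zz_unit ch j) B (φ (zz ch j))
  U2 := bU2 ch.aff (zz ch j) (zz_unit ch j) B (φ (zz ch j))
  cover := congrArg (fun W => bq ch.aff (zz ch j) (zz_unit ch j) B (φ (zz ch j)) ⁻¹ᵁ W)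
    ch.ct.cover
  ac1 := ac1_aux _ _ _ _ _
  ac2 := ac2_aux _ _ _ _ _
  ac12 := ac12_aux _ _ _ _ _
  t1 := bt1 _ _ _ _ _
  t2 := bt2 _ _ _ _ _
  t12 := bt12 _ _ _ _ _
  b1 := bt1_bij _ _ _ _ _ (zB_reg ch j B)
  b2 := bt2_bij _ _ _ _ _
  b12 := bt12_bij _ _ _ _ _
  c1 := bt1_l _ _ _ _ _
  c2 := bt2_l _ _ _ _ _
  c12 := bt12_l _ _ _ _ _
  r1 := r1_aux _ _ _ _ _
  r2 := r2_aux _ _ _ _ _

end

end Pool.Agent.MG
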