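import Pool.Agent.MG.Bub.Const

/-!
# The charts of the bubble: flatness, étale coordinates
-/

set_option linter.unusedSectionVars false

open CategoryTheory CategoryTheory.Limits AlgebraicGeometry TensorProduct

namespace Pool.Agent.MG

section Flat

open Polynomial

theorem flat_of_poly {k D : Type} [Field k] [CommRing D] [IsDomain D] (g : k[X] →+* D)
    (hg : Function.Injective g) : g.Flat := by
  let _ : Algebra k[X] D := g.toAlgebra
  change Module.Flat k[X] D
  rw [Module.Flat.flat_iff_torsion_eq_bot_of_isBezout, eq_bot_iff]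
  intro x hx
  obtain ⟨⟨a, ha⟩, hax⟩ := hx
  have h1 : g a * x = 0 := hax
  rcases mul_eq_zero.1 h1 with h | h
  · exfalso
    have h2 : a = 0 := hg (by rw [h, map_zero])
    exact nonZeroDivisors.ne_zero ha h2
  · exact h

variable {k : Type} [Field k] {R : Type} [CommRing R] [Algebra k R] [IsDomain R] (z0 : R)

/-- `k[X] → R[w]`, `X ↦ z w`. -/
noncomputable def zw : k[X] →ₐ[k] R[X] := aeval (C z0 * X)

theorem zw_injective (hz : z0 ≠ 0) : Function.Injective (zw (k := k) z0) := by
  rw [injective_iff_map_eq_zero]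
  intro p hp
  ext i
  have h1 : (zw (k := k) z0 p).coeff i = algebraMap k R (p.coeff i) * z0 ^ i := by
    have h2 : zw (k := k) z0 p = (p.map (algebraMap k R)).comp (C z0 * X) := by
      unfold zw
      rw [comp, eval₂_map, aeval_def]
      rfl
    rw [h2, comp_C_mul_X_coeff, coeff_map]
  rw [hp, coeff_zero] at h1
  rcases mul_eq_zero.1 h1.symm with h | h
  · rw [coeff_zero]
    exact (algebraMap k R).injective (by rw [h, map_zero])
  · exact absurd h (pow_ne_zero _ hz)

variable (k) in
/-- The universal first chart. -/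
abbrev NU (z0 : R) : Type _ := NR ((1 : k[X]) ⊗ₜ[k] z0) ((X : k[X]) ⊗ₜ[k] (1 : R))

/-- The universal first chart is `R[w]`. -/
noncomputable def nuF : NU k z0 →+* R[X] :=
  nrLift (Algebra.TensorProduct.lift (zw z0) (Algebra.ofId R R[X] |>.restrictScalars k)
    (fun _ _ => Commute.all _ _)).toRingHom X (by
      change Algebra.TensorProduct.lift _ _ _ _ * _ = Algebra.TensorProduct.lift _ _ _ _
      rw [Algebra.TensorProduct.lift_tmul, Algebra.TensorProduct.lift_tmul, map_one, map_one,
        one_mul, mul_one]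
      unfold zw
      rw [aeval_X]
      rfl)

theorem nuF_of (p : k[X]) (r : R) :
    nuF z0 (algebraMap (k[X] ⊗[k] R) (NU k z0) (p ⊗ₜ[k] r)) = zw z0 p * C r := by
  unfold nuF
  rw [nrLift_of]
  exact Algebra.TensorProduct.lift_tmul _ _ _ p r

theorem nuF_w : nuF (k := k) z0 (nw _ _) = X := nrLift_w _ _ _

theorem nuF_bijective : Function.Bijective (nuF (k := k) z0) := by
  let G : R[X] →+* NU k z0 :=
    eval₂RingHom ((algebraMap (k[X] ⊗[k] R) (NU k z0)).comp (inR k k[X] R)) (nw _ _)
  have hGC : ∀ r, G (C r) = algebraMap (k[X] ⊗[k] R) (NU k z0) ((1 : k[X]) ⊗ₜ[k] r) :=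
    fun r => eval₂_C _ _
  have hGX : G X = nw _ _ := eval₂_X _ _
  have h1 : (nuF z0).comp G = RingHom.id _ := by
    apply Polynomial.ringHom_ext
    · intro r
      rw [RingHom.comp_apply, hGC, nuF_of, map_one, one_mul]
      rfl
    · rw [RingHom.comp_apply, hGX, nuF_w]
      rfl
  have h2 : G.comp (nuF z0) = RingHom.id _ := by
    apply nr_hom_ext
    · intro t
      change ((G.comp (nuF z0)).comp (algebraMap (k[X] ⊗[k] R) (NU k z0))) t =
        (algebraMap (k[X] ⊗[k] R) (NU k z0)) t
      have h3 : (G.comp (nuF z0)).comp (algebraMap (k[X] ⊗[k] R) (NU k z0)) =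
          algebraMap (k[X] ⊗[k] R) (NU k z0) := by
        apply tensor_hom_ext
        · intro p
          change ((G.comp (nuF z0)).comp ((algebraMap (k[X] ⊗[k] R) (NU k z0)).comp
            (inL k k[X] R))) p = ((algebraMap (k[X] ⊗[k] R) (NU k z0)).comp (inL k k[X] R)) p
          congr 1
          apply Polynomial.ringHom_ext
          · intro c
            simp only [RingHom.comp_apply, inL_apply]
            rw [nuF_of, map_one, mul_one]
            have h4 : zw z0 (C c) = C (algebraMap k R c) := (zw z0).commutes c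
            rw [h4, hGC]
            congr 1
            have h5 : (C c : k[X]) = c • 1 := by rw [smul_eq_C_mul, mul_one]
            rw [h5, Algebra.algebraMap_eq_smul_one, TensorProduct.smul_tmul]
          · simp only [RingHom.comp_apply, inL_apply]
            rw [nuF_of, map_one, mul_one]
            unfold zw
            rw [aeval_X, map_mul, hGC, hGX, nw_rel]
        · intro r
          simp only [RingHom.comp_apply]
          rw [nuF_of, map_one, one_mul, hGC]
      rw [h3]
    · rw [RingHom.comp_apply, nuF_w, hGX]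
      rfl
  refine ⟨fun a b hab => ?_, fun b => ⟨G b, congrArg (fun f => f b) h1⟩⟩
  have := congrArg G hab
  have h3 : ∀ a, G (nuF z0 a) = a := fun a => congrArg (fun f => f a) h2
  rwa [h3, h3] at this

theorem nuni_flat (hz : z0 ≠ 0) :
    ((algebraMap (k[X] ⊗[k] R) (NU k z0)).comp (inL k k[X] R)).Flat := by
  rw [← RingHom.Flat.comp_iff_of_bijective_left (nuF_bijective z0)]
  apply flat_of_poly
  intro p q hpq
  simp only [RingHom.comp_apply, inL_apply] at hpq
  rw [nuF_of, nuF_of, map_one, mul_one, mul_one] at hpq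
  exact zw_injective z0 hz hpq

end Flat

section BC

variable {k : Type} [Field k] {B B' : Type} [CommRing B] [Algebra k B] [CommRing B']
  [Algebra k B'] (ψ : B →ₐ[k] B') (R : Type) [CommRing R] [Algebra k R]

/-- `B ⊗ R → B' ⊗ R`. -/
noncomputable def tmap : B ⊗[k] R →+* B' ⊗[k] R :=
  (Algebra.TensorProduct.map ψ (AlgHom.id k R)).toRingHom

@[simp] theorem tmap_tmul (b : B) (r : R) : tmap ψ R (b ⊗ₜ r) = ψ b ⊗ₜ r :=
  Algebra.TensorProduct.map_tmul _ _ _ _

theorem tmap_isPullback :
    IsPullback (spMap (tmap ψ R)) (spMap (inL k B' R)) (spMap (inL k B R))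
      (spMap (ψ : B →+* B')) := by
  refine IsPullback.of_right (h₁₂ := spMap (inR k B R)) (h₂₂ := spMap (algebraMap k B))
    (v₁₃ := spMap (algebraMap k R)) ?_ ?_ (tens_isPullback B R)
  · rw [← spMap_comp, ← spMap_comp]
    have h1 : (tmap ψ R).comp (inR k B R) = inR k B' R := by
      ext r
      simp
    have h2 : (ψ : B →+* B').comp (algebraMap k B) = algebraMap k B' := ψ.comp_algebraMap
    rw [h1, h2]
    exact tens_isPullback B' R
  · rw [← spMap_comp, ← spMap_comp]
    congr 1

variable {ψ} in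
theorem tens_scalar (c : k) :
    (1 : B) ⊗ₜ[k] (algebraMap k R c) = (algebraMap k B c) ⊗ₜ[k] (1 : R) := by
  have h1 : algebraMap k R c = c • 1 := Algebra.algebraMap_eq_smul_one c
  have h2 : algebraMap k B c = c • 1 := Algebra.algebraMap_eq_smul_one c
  rw [h1, h2, TensorProduct.smul_tmul]

variable {ψ R} in
theorem tens_lift {S : Type} [CommRing S] (g : B →+* S) (f : R →+* S)
    (h : ∀ c : k, f (algebraMap k R c) = g (algebraMap k B c)) :
    ∃ L : B ⊗[k] R →+* S, (∀ b, L (b ⊗ₜ 1) = g b) ∧ ∀ r, L (1 ⊗ₜ r) = f r := by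
  let _ : Algebra k S := (f.comp (algebraMap k R)).toAlgebra
  let f' : R →ₐ[k] S := { f with commutes' := fun c => rfl }
  let g' : B →ₐ[k] S := { g with commutes' := fun c => (h c).symm }
  let L : B ⊗[k] R →ₐ[k] S := Algebra.TensorProduct.lift g' f' (fun _ _ => Commute.all _ _)
  have hL : ∀ b r, L (b ⊗ₜ r) = g b * f r := fun b r => Algebra.TensorProduct.lift_tmul _ _ _ b r
  refine ⟨L.toRingHom, fun b => ?_, fun r => ?_⟩
  · change L (b ⊗ₜ 1) = _
    rw [hL, map_one, mul_one]
  · change L (1 ⊗ₜ r) = _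
    rw [hL, map_one, one_mul]

/-- A property of the first chart which is stable under base change can be checked on a base change
square. -/
theorem nr_bc (P : MorphismProperty Scheme.{0}) [P.IsStableUnderBaseChange] {B0 B1 A A' : Type}
    [CommRing B0] [CommRing B1] [CommRing A] [CommRing A'] (χ : A →+* A') (l : B0 →+* A)
    (l' : B1 →+* A') (χ0 : B0 →+* B1)
    (sq : IsPullback (spMap χ) (spMap l') (spMap l) (spMap χ0)) (z s : A) (z' s' : A')
    (hz : z' = χ z) (hs : s' = χ s) (h : P (spMap ((algebraMap A (NR z s)).comp l))) :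
    P (spMap ((algebraMap A' (NR z' s')).comp l')) := by
  subst hz hs
  have h1 := (nrMap_isPullback χ z s).paste_vert sq
  rw [← spMap_comp, ← spMap_comp] at h1
  exact MorphismProperty.of_isPullback h1 h

open Polynomial in
theorem nchart_flat [IsDomain R] (z0 : R) (hz : z0 ≠ 0) (b : B) :
    Flat (spMap ((algebraMap (B ⊗[k] R) (NR ((1 : B) ⊗ₜ[k] z0) (b ⊗ₜ[k] (1 : R)))).comp
      (inL k B R))) := by
  refine nr_bc @Flat (tmap (aeval b : k[X] →ₐ[k] B) R) (inL k k[X] R) (inL k B R) _
    (tmap_isPullback (aeval b : k[X] →ₐ[k] B) R) ((1 : k[X]) ⊗ₜ[k] z0) ((X : k[X]) ⊗ₜ[k] (1 : R))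
    _ _ (by simp) (by simp) ?_
  exact Flat.SpecMap_iff.2 (nuni_flat z0 hz)

end BC

section Etale

open Polynomial

variable {k : Type} [Field k] {B : Type} [CommRing B] [Algebra k B] {R : Type} [CommRing R]
  [Algebra k R] (z0 : R) (b : B)

/-- The coordinate `Y` on the second chart. -/
noncomputable def yM : B[X] →+* NR (b ⊗ₜ[k] (1 : R)) ((1 : B) ⊗ₜ[k] z0) :=
  eval₂RingHom ((algebraMap (B ⊗[k] R) (NR (b ⊗ₜ[k] (1 : R)) ((1 : B) ⊗ₜ[k] z0))).comp
    (inL k B R)) (nw _ _)

theorem yM_C (c : B) : yM (k := k) z0 b (C c) = algebraMap (B ⊗[k] R) _ (c ⊗ₜ 1) := eval₂_C _ _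

theorem yM_X : yM (k := k) z0 b X = nw _ _ := eval₂_X _ _

theorem yM_isPullback : IsPullback
    (spMap ((algebraMap (B ⊗[k] R) (NR (b ⊗ₜ[k] (1 : R)) ((1 : B) ⊗ₜ[k] z0))).comp (inR k B R)))
    (spMap (yM (k := k) z0 b)) (spMap ((aeval z0 : k[X] →ₐ[k] R) : k[X] →+* R))
    (spMap ((aeval (C b * X) : k[X] →ₐ[k] B[X]) : k[X] →+* B[X])) := by
  apply spec_isPullback
  · apply Polynomial.ringHom_ext
    · intro c
      simp only [RingHom.comp_apply, RingHom.coe_coe, inR_apply]
      have h1 : (aeval z0 : k[X] →ₐ[k] R) (C c) = algebraMap k R c :=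
        (aeval z0 : k[X] →ₐ[k] R).commutes c
      have h2 : (aeval (C b * X) : k[X] →ₐ[k] B[X]) (C c) = C (algebraMap k B c) :=
        (aeval (C b * X) : k[X] →ₐ[k] B[X]).commutes c
      rw [h1, h2, yM_C, tens_scalar]
    · simp only [RingHom.comp_apply, RingHom.coe_coe, inR_apply]
      rw [aeval_X, aeval_X, map_mul, yM_C, yM_X, nw_rel]
  · intro S _ f g h
    have hC : ∀ c : k, f (algebraMap k R c) = (g.comp C) (algebraMap k B c) := by
      intro c
      have h1 := congrArg (fun t => t (C c)) h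
      simp only [RingHom.comp_apply, RingHom.coe_coe] at h1
      have h2 : (aeval z0 : k[X] →ₐ[k] R) (C c) = algebraMap k R c :=
        (aeval z0 : k[X] →ₐ[k] R).commutes c
      have h3 : (aeval (C b * X) : k[X] →ₐ[k] B[X]) (C c) = C (algebraMap k B c) :=
        (aeval (C b * X) : k[X] →ₐ[k] B[X]).commutes c
      rw [h2, h3] at h1
      exact h1
    obtain ⟨L, hL1, hL2⟩ := tens_lift (g.comp C) f hC
    have hX : g (C b) * g X = f z0 := by
      have h1 := congrArg (fun t => t X) h
      simp only [RingHom.comp_apply, RingHom.coe_coe, aeval_X, map_mul] at h1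
      exact h1.symm
    refine ⟨nrLift L (g X) ?_, ?_, ?_⟩
    · rw [hL1, hL2]
      exact hX
    · refine RingHom.ext fun r => ?_
      simp only [RingHom.comp_apply, inR_apply]
      rw [nrLift_of, hL2]
    · apply Polynomial.ringHom_ext
      · intro c
        rw [RingHom.comp_apply, yM_C, nrLift_of, hL1]
        rfl
      · rw [RingHom.comp_apply, yM_X, nrLift_w]
  · intro S _ f g h1 h2
    apply nr_hom_ext
    · intro t
      change (f.comp (algebraMap (B ⊗[k] R) _)) t = (g.comp (algebraMap (B ⊗[k] R) _)) t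
      congr 1
      apply tensor_hom_ext
      · intro c
        have := congrArg (fun t => t (C c)) h2
        simp only [RingHom.comp_apply] at this
        rw [yM_C] at this
        exact this
      · intro r
        exact congrArg (fun t => t r) h1
    · have := congrArg (fun t => t X) h2
      simp only [RingHom.comp_apply] at this
      rw [yM_X] at this
      exact this

theorem yM_etale (h : Etale (spMap ((aeval z0 : k[X] →ₐ[k] R) : k[X] →+* R))) :
    Etale (spMap (yM (k := k) z0 b)) :=
  MorphismProperty.of_isPullback (yM_isPullback z0 b) h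

theorem poly_smooth : Smooth (spMap (C : B →+* B[X])) := by
  rw [HasRingHomProperty.Spec_iff (P := @Smooth)]
  change RingHom.Smooth (algebraMap B B[X])
  rw [RingHom.smooth_algebraMap]
  exact ⟨inferInstance, inferInstance⟩

theorem ychart_smooth (h : Etale (spMap ((aeval z0 : k[X] →ₐ[k] R) : k[X] →+* R))) :
    Smooth (spMap ((algebraMap (B ⊗[k] R) (NR (b ⊗ₜ[k] (1 : R)) ((1 : B) ⊗ₜ[k] z0))).comp
      (inL k B R))) := by
  have h1 : (algebraMap (B ⊗[k] R) (NR (b ⊗ₜ[k] (1 : R)) ((1 : B) ⊗ₜ[k] z0))).comp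
      (inL k B R) = (yM (k := k) z0 b).comp C := by
    ext c
    simp only [RingHom.comp_apply, inL_apply]
    rw [yM_C]
  rw [h1, spMap_comp]
  have := yM_etale z0 b h
  have := poly_smooth (B := B)
  infer_instance

end Etale

end Pool.Agent.MG
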