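import Pool.Agent.MG.CONN

/-!
# Charted families over fields are connected
-/

open CategoryTheory CategoryTheory.Limits AlgebraicGeometry TensorProduct

namespace Pool.Agent.MG

open CON in
/-- Every charted family over a field is connected. -/
theorem charted_connected {n : ℕ} {k : Type} [Field k] {C : Fam n k} {T : TC k} (ch : Cht C T)
    {K : Type} [Field K] [Algebra k K] {fm : Fam n K} (c : Charted T fm) : ConnectedSpace fm.X := by
  have hdom := ch.dom
  have hnt12 : Nontrivial T.R12 := inferInstance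
  have hnt1 : Nontrivial T.R1 := (T.j1 : T.R1 →+* T.R12).domain_nontrivial
  have hn1 : Nontrivial (K ⊗[k] T.R1) := inferInstance
  have hG : Nontrivial Γ(fm.X, c.U1) := c.b1.1.nontrivial
  have hX : Nonempty fm.X := by
    by_contra hemp
    rw [not_nonempty_iff] at hemp
    have h0 : c.U1 = ⊥ := by
      ext x
      exact hemp.elim x
    rw [h0] at hG
    exact not_subsingleton Γ(fm.X, ⊥) inferInstance
  have hpre : PreconnectedSpace fm.X := by
    rw [preconnectedSpace_iff_clopen]
    intro s hs
    obtain ⟨e, he1, he2⟩ := exists_fun fm.X ⟨s, hs.isOpen⟩ ⟨sᶜ, hs.compl.isOpen⟩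
      (by ext x; simp) (by ext x; simp)
    have hee : e * e = e := by
      refine fm.X.sheaf.eq_of_locally_eq₂
        (homOfLE (le_top : (⟨s, hs.isOpen⟩ : fm.X.Opens) ≤ ⊤))
        (homOfLE (le_top : (⟨sᶜ, hs.compl.isOpen⟩ : fm.X.Opens) ≤ ⊤))
        ?_ _ _ ?_ ?_
      · intro x _
        by_cases hx : x ∈ s
        · exact Or.inl hx
        · exact Or.inr hx
      · change rs _ _ (e * e) = rs _ _ e
        rw [map_mul, he1, one_mul]
      · change rs _ _ (e * e) = rs _ _ e
        rw [map_mul, he2, zero_mul]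
    have hu : c.t1 (c.eq1.symm (rs _ le_top e)) = rs fm.X le_top e :=
      c.eq1.apply_symm_apply _
    have hv : c.t2 (c.eq2.symm (rs _ le_top e)) = rs fm.X le_top e :=
      c.eq2.apply_symm_apply _
    have hj : Algebra.TensorProduct.map (AlgHom.id k K) T.j1 (c.eq1.symm (rs _ le_top e)) =
        Algebra.TensorProduct.map (AlgHom.id k K) T.j2 (c.eq2.symm (rs _ le_top e)) := by
      apply c.b12.1
      rw [← c.rs1, ← c.rs2, hu, hv, rs_rs _ _ _ le_top, rs_rs _ _ _ le_top]
    obtain ⟨a, ha1, ha2⟩ := const_of_eq T.j1 T.j2 ch.inj2 ch.h0 K _ _ hj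
    rw [ha1] at hu
    rw [ha2] at hv
    have haa : a * a = a := by
      have h3 : c.t1 ((a * a) ⊗ₜ 1) = c.t1 (a ⊗ₜ 1) := by
        have h4 : ((a * a) ⊗ₜ[k] (1 : T.R1)) = (a ⊗ₜ 1) * (a ⊗ₜ 1) := by simp
        rw [h4, map_mul, hu, ← map_mul, hee]
      have h5 := c.b1.1 h3
      exact Algebra.TensorProduct.includeLeft_injective (S := k)
        (FaithfulSMul.algebraMap_injective k T.R1) h5
    have hcase : a = 0 ∨ a = 1 := by
      rcases eq_or_ne a 0 with h | h
      · exact Or.inl h
      · exact Or.inr (mul_left_cancel₀ h (by rw [haa, mul_one]))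
    have hcov : ∀ x : fm.X, x ∈ c.U1 ∨ x ∈ c.U2 := by
      intro x
      have : x ∈ c.U1 ⊔ c.U2 := by rw [c.cover]; trivial
      exact this
    rcases hcase with rfl | rfl
    · left
      rw [Set.eq_empty_iff_forall_notMem]
      intro x hx
      have g1 := germ_rs fm.X ⟨s, hs.isOpen⟩ x hx e
      rw [he1, map_one] at g1
      rcases hcov x with h | h
      · have g2 := germ_rs fm.X c.U1 x h e
        rw [← hu, TensorProduct.zero_tmul, map_zero, map_zero] at g2
        exact zero_ne_one (g2.symm.trans g1)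
      · have g2 := germ_rs fm.X c.U2 x h e
        rw [← hv, TensorProduct.zero_tmul, map_zero, map_zero] at g2
        exact zero_ne_one (g2.symm.trans g1)
    · right
      rw [Set.eq_univ_iff_forall]
      intro x
      by_contra hx
      have g1 := germ_rs fm.X ⟨sᶜ, hs.compl.isOpen⟩ x hx e
      rw [he2, map_zero] at g1
      rcases hcov x with h | h
      · have g2 := germ_rs fm.X c.U1 x h e
        have h6 : ((1 : K) ⊗ₜ[k] (1 : T.R1)) = 1 := rfl
        rw [← hu, h6, map_one, map_one] at g2
        exact zero_ne_one (g1.symm.trans g2)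
      · have g2 := germ_rs fm.X c.U2 x h e
        have h6 : ((1 : K) ⊗ₜ[k] (1 : T.R2)) = 1 := rfl
        rw [← hv, h6, map_one, map_one] at g2
        exact zero_ne_one (g1.symm.trans g2)
  exact { toPreconnectedSpace := hpre, toNonempty := hX }

end Pool.Agent.MG
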