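import Pool.Agent.MG.Bub.Base

/-!
# The charts of constant families as spectra
-/

set_option linter.unusedSectionVars false

open CategoryTheory CategoryTheory.Limits AlgebraicGeometry TensorProduct

namespace Pool.Agent.MG

section

theorem fromSpec_comp {A : Type} [CommRing A] {X : Scheme.{0}} (π : X ⟶ Sp A) {U : X.Opens}
    (hU : IsAffineOpen U) : hU.fromSpec ≫ π = spMap (coef π U) := by
  have h1 := IsAffineOpen.SpecMap_appLE_fromSpec π (isAffineOpen_top (Sp A)) hU
    (show U ≤ π ⁻¹ᵁ ⊤ from le_top)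
  rw [← h1, coef_eq]
  change _ = Spec.map ((Scheme.ΓSpecIso (CommRingCat.of A)).inv ≫ π.appLE ⊤ U _)
  rw [Spec.map_comp]
  congr 1
  rw [IsAffineOpen.fromSpec_top]
  exact Scheme.isoSpec_Spec_inv _

variable {n : ℕ} {k : Type} [Field k] {C : Fam n k} {T : TC k} {ct : Charted T C}

theorem io1_π (ha : ct.Aff) : io1 ha ≫ C.π = spMap (algebraMap k T.R1) := by
  unfold io1
  rw [Category.assoc, fromSpec_comp, ← spMap_comp]
  congr 1
  ext c
  simp only [RingHom.comp_apply]
  rw [← ct.c1]
  change lidE k T.R1 (ct.eq1.symm (ct.eq1 (c ⊗ₜ 1))) = _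
  rw [RingEquiv.symm_apply_apply]
  change c • (1 : T.R1) = _
  rw [Algebra.smul_def, mul_one]

theorem io2_π (ha : ct.Aff) : io2 ha ≫ C.π = spMap (algebraMap k T.R2) := by
  unfold io2
  rw [Category.assoc, fromSpec_comp, ← spMap_comp]
  congr 1
  ext c
  simp only [RingHom.comp_apply]
  rw [← ct.c2]
  change lidE k T.R2 (ct.eq2.symm (ct.eq2 (c ⊗ₜ 1))) = _
  rw [RingEquiv.symm_apply_apply]
  change c • (1 : T.R2) = _
  rw [Algebra.smul_def, mul_one]

theorem io12_π (ha : ct.Aff) : io12 ha ≫ C.π = spMap (algebraMap k T.R12) := by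
  rw [← io12_eq1, Category.assoc, io1_π, ← spMap_comp]
  congr 1
  ext c
  simp only [RingHom.comp_apply]
  exact T.j1.commutes c

variable (B : Type) [CommRing B] [Algebra k B]

variable (k) in
/-- `R → B ⊗ R`. -/
noncomputable def inR (R : Type) [CommRing R] [Algebra k R] : R →+* B ⊗[k] R :=
  (Algebra.TensorProduct.includeRight : R →ₐ[k] B ⊗[k] R).toRingHom

variable (k) in
/-- `B → B ⊗ R`. -/
noncomputable def inL (R : Type) [CommRing R] [Algebra k R] : B →+* B ⊗[k] R :=
  algebraMap B (B ⊗[k] R)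

@[simp] theorem inR_apply (R : Type) [CommRing R] [Algebra k R] (r : R) :
    inR k B R r = 1 ⊗ₜ[k] r := rfl

@[simp] theorem inL_apply (R : Type) [CommRing R] [Algebra k R] (b : B) :
    inL k B R b = b ⊗ₜ[k] 1 := rfl

variable {B} in
theorem tensor_hom_ext {R R' : Type} [CommRing R] [CommRing R'] [Algebra k R]
    {f g : B ⊗[k] R →+* R'} (h1 : ∀ b, f (b ⊗ₜ 1) = g (b ⊗ₜ 1)) (h2 : ∀ r, f (1 ⊗ₜ r) = g (1 ⊗ₜ r)) :
    f = g := RingHom.ext (tensor_ind h1 h2)

theorem tens_isPullback (R : Type) [CommRing R] [Algebra k R] :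
    IsPullback (spMap (inR k B R)) (spMap (inL k B R)) (spMap (algebraMap k R))
      (spMap (algebraMap k B)) := by
  apply spec_isPullback
  · ext c
    simp only [RingHom.comp_apply, inR_apply, inL_apply]
    rw [Algebra.algebraMap_eq_smul_one, Algebra.algebraMap_eq_smul_one, TensorProduct.smul_tmul]
  · intro S _ f g h
    let _ : Algebra k S := (f.comp (algebraMap k R)).toAlgebra
    let f' : R →ₐ[k] S := { f with commutes' := fun c => rfl }
    let g' : B →ₐ[k] S := { g with commutes' := fun c => (congrArg (fun h => h c) h).symm }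
    let L : B ⊗[k] R →ₐ[k] S := Algebra.TensorProduct.lift g' f' (fun _ _ => Commute.all _ _)
    have hL : ∀ b r, L (b ⊗ₜ r) = g b * f r := fun b r => Algebra.TensorProduct.lift_tmul _ _ _ b r
    refine ⟨L.toRingHom, ?_, ?_⟩
    · refine RingHom.ext fun r => ?_
      change L (1 ⊗ₜ r) = _
      rw [hL, map_one, one_mul]
    · refine RingHom.ext fun b => ?_
      change L (b ⊗ₜ 1) = _
      rw [hL, map_one, mul_one]
  · intro S _ f g h1 h2
    apply tensor_hom_ext
    · intro b
      exact congrArg (fun h => h b) h2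
    · intro r
      exact congrArg (fun h => h r) h1

/-- The base change of a chart. -/
noncomputable def kap {R : Type} [CommRing R] [Algebra k R] (ι : Sp R ⟶ C.X)
    (h : ι ≫ C.π = spMap (algebraMap k R)) :
    Sp (B ⊗[k] R) ⟶ pullback C.π (spMap (algebraMap k B)) :=
  pullback.lift (spMap (inR k B R) ≫ ι) (spMap (inL k B R)) (by
    rw [Category.assoc, h]
    exact (tens_isPullback B R).w)

@[reassoc (attr := simp)] theorem kap_fst {R : Type} [CommRing R] [Algebra k R] (ι : Sp R ⟶ C.X)
    (h : ι ≫ C.π = spMap (algebraMap k R)) :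
    kap B ι h ≫ pullback.fst _ _ = spMap (inR k B R) ≫ ι := pullback.lift_fst _ _ _

@[reassoc (attr := simp)] theorem kap_snd {R : Type} [CommRing R] [Algebra k R] (ι : Sp R ⟶ C.X)
    (h : ι ≫ C.π = spMap (algebraMap k R)) :
    kap B ι h ≫ pullback.snd _ _ = spMap (inL k B R) := pullback.lift_snd _ _ _

theorem kap_isPullback {R : Type} [CommRing R] [Algebra k R] (ι : Sp R ⟶ C.X)
    (h : ι ≫ C.π = spMap (algebraMap k R)) :
    IsPullback (kap B ι h) (spMap (inR k B R)) (pullback.fst _ _) ι := by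
  have h1 : IsPullback (pullback.snd C.π (spMap (algebraMap k B))) (pullback.fst _ _)
    (spMap (algebraMap k B)) C.π := (IsPullback.of_hasPullback _ _).flip
  refine IsPullback.of_right (h₁₂ := pullback.snd C.π (spMap (algebraMap k B)))
    (h₂₂ := C.π) (v₁₃ := spMap (algebraMap k B)) ?_ (by simp) h1
  rw [kap_snd, h]
  exact (tens_isPullback B R).flip

instance {R : Type} [CommRing R] [Algebra k R] (ι : Sp R ⟶ C.X) [IsOpenImmersion ι]
    (h : ι ≫ C.π = spMap (algebraMap k R)) : IsOpenImmersion (kap B ι h) :=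
  MorphismProperty.of_isPullback (kap_isPullback B ι h).flip inferInstance

end

end Pool.Agent.MG
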