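import Pool.Agent.MG.Bub.Charts

/-!
# The bubble family
-/

set_option linter.unusedSectionVars false

open CategoryTheory CategoryTheory.Limits AlgebraicGeometry TensorProduct

namespace Pool.Agent.MG

section Maps

variable {k : Type} [Field k] {T : TC k} (B : Type) [CommRing B] [Algebra k B]

/-- `B ⊗ R → B ⊗ R'`. -/
noncomputable def bmap {R R' : Type} [CommRing R] [CommRing R'] [Algebra k R] [Algebra k R']
    (j : R →ₐ[k] R') : B ⊗[k] R →+* B ⊗[k] R' :=
  (Algebra.TensorProduct.map (AlgHom.id k B) j).toRingHom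

@[simp] theorem bmap_tmul {R R' : Type} [CommRing R] [CommRing R'] [Algebra k R] [Algebra k R']
    (j : R →ₐ[k] R') (b : B) (r : R) : bmap B j (b ⊗ₜ r) = b ⊗ₜ j r :=
  Algebra.TensorProduct.map_tmul _ _ _ _

theorem bmap_inL {R R' : Type} [CommRing R] [CommRing R'] [Algebra k R] [Algebra k R']
    (j : R →ₐ[k] R') : (bmap B j).comp (inL k B R) = inL k B R' := by
  ext b
  simp

theorem bmap_inR {R R' : Type} [CommRing R] [CommRing R'] [Algebra k R] [Algebra k R']
    (j : R →ₐ[k] R') : (bmap B j).comp (inR k B R) = (inR k B R').comp (j : R →+* R') := by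
  ext b
  simp

theorem bmap_isPullback {R R' : Type} [CommRing R] [CommRing R'] [Algebra k R] [Algebra k R']
    (j : R →ₐ[k] R') {B' : Type} [CommRing B'] [Algebra k B'] (ψ : B →ₐ[k] B') :
    IsPullback (spMap (tmap ψ R')) (spMap (bmap B' j)) (spMap (bmap B j)) (spMap (tmap ψ R)) := by
  refine IsPullback.of_bot (h₃₁ := spMap (ψ : B →+* B')) (v₂₁ := spMap (inL k B' R))
    (v₂₂ := spMap (inL k B R)) ?_ ?_ (tmap_isPullback ψ R)
  · rw [← spMap_comp, ← spMap_comp, bmap_inL, bmap_inL]
    exact tmap_isPullback ψ R'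
  · rw [← spMap_comp, ← spMap_comp]
    congr 1
    apply tensor_hom_ext
    · intro b
      simp
    · intro r
      simp

variable {B} in
@[simp] theorem extA_tmul {R : Type} [CommRing R] [Algebra k R] (φ : R →ₐ[k] B) (b : B) (r : R) :
    extA φ (b ⊗ₜ r) = b * φ r := by
  unfold extA
  rw [Algebra.TensorProduct.lift_tmul]
  rfl

end Maps

section Charts

variable {n : ℕ} {k : Type} [Field k] {C : Fam n k} {T : TC k} {ct : Charted T C}
  (ha : ct.Aff) (B : Type) [CommRing B] [Algebra k B]

/-- The first chart of the constant family. -/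
noncomputable def ka1 : Sp (B ⊗[k] T.R1) ⟶ pullback C.π (spMap (algebraMap k B)) :=
  kap B (io1 ha) (io1_π ha)

/-- The second chart of the constant family. -/
noncomputable def ka2 : Sp (B ⊗[k] T.R2) ⟶ pullback C.π (spMap (algebraMap k B)) :=
  kap B (io2 ha) (io2_π ha)

/-- The intersection of the charts of the constant family. -/
noncomputable def ka12 : Sp (B ⊗[k] T.R12) ⟶ pullback C.π (spMap (algebraMap k B)) :=
  kap B (io12 ha) (io12_π ha)

instance : IsOpenImmersion (ka1 ha B) := by unfold ka1; infer_instance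

instance : IsOpenImmersion (ka2 ha B) := by unfold ka2; infer_instance

instance : IsOpenImmersion (ka12 ha B) := by unfold ka12; infer_instance

theorem ka12_eq1 : spMap (bmap B T.j1) ≫ ka1 ha B = ka12 ha B := by
  unfold ka1 ka12
  apply pullback.hom_ext
  · rw [Category.assoc, kap_fst, kap_fst, ← Category.assoc, ← spMap_comp, bmap_inR, spMap_comp,
      Category.assoc, io12_eq1]
  · rw [Category.assoc, kap_snd, kap_snd, ← spMap_comp, bmap_inL]

theorem ka12_eq2 : spMap (bmap B T.j2) ≫ ka2 ha B = ka12 ha B := by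
  unfold ka2 ka12
  apply pullback.hom_ext
  · rw [Category.assoc, kap_fst, kap_fst, ← Category.assoc, ← spMap_comp, bmap_inR, spMap_comp,
      Category.assoc, io12_eq2]
  · rw [Category.assoc, kap_snd, kap_snd, ← spMap_comp, bmap_inL]

include C ct ha in
theorem bj1_open : IsOpenImmersion (spMap (bmap B T.j1)) := by
  have h : IsOpenImmersion (spMap (bmap B T.j1) ≫ ka1 ha B) := by
    rw [ka12_eq1]
    infer_instance
  exact IsOpenImmersion.of_comp _ (ka1 ha B)

include C ct ha in
theorem bj2_open : IsOpenImmersion (spMap (bmap B T.j2)) := by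
  have h : IsOpenImmersion (spMap (bmap B T.j2) ≫ ka2 ha B) := by
    rw [ka12_eq2]
    infer_instance
  exact IsOpenImmersion.of_comp _ (ka2 ha B)

theorem ka_cover (x : (pullback C.π (spMap (algebraMap k B)) : Scheme.{0})) :
    x ∈ Set.range (ka1 ha B) ∨ x ∈ Set.range (ka2 ha B) := by
  rcases io_cover ha (pullback.fst C.π (spMap (algebraMap k B)) x) with ⟨y, hy⟩ | ⟨y, hy⟩
  · left
    obtain ⟨w, hw, -⟩ := Scheme.exists_preimage_of_isPullback
      (kap_isPullback B (io1 ha) (io1_π ha)) x y hy.symm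
    exact ⟨w, hw⟩
  · right
    obtain ⟨w, hw, -⟩ := Scheme.exists_preimage_of_isPullback
      (kap_isPullback B (io2 ha) (io2_π ha)) x y hy.symm
    exact ⟨w, hw⟩

theorem ka_isPullback : IsPullback (spMap (bmap B T.j1)) (spMap (bmap B T.j2)) (ka1 ha B)
    (ka2 ha B) := by
  have := bj1_open ha B
  refine (IsOpenImmersion.isPullback (spMap (bmap B T.j2)) (spMap (bmap B T.j1)) (ka2 ha B)
    (ka1 ha B) (by rw [ka12_eq1, ka12_eq2]) ?_).flip
  ext x
  simp only [TopologicalSpace.Opens.map_coe, Scheme.Hom.coe_opensRange, Set.mem_preimage]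
  constructor
  · rintro ⟨y, hy⟩
    have h1 : pullback.fst C.π (spMap (algebraMap k B)) (ka1 ha B x) ∈ Set.range (io12 ha) := by
      rw [range_io12]
      constructor
      · rw [← range_io1 ha]
        refine ⟨spMap (inR k B T.R1) x, ?_⟩
        have h2 : ka1 ha B ≫ pullback.fst _ _ = spMap (inR k B T.R1) ≫ io1 ha := kap_fst _ _ _
        rw [← Scheme.Hom.comp_apply, ← h2, Scheme.Hom.comp_apply]
      · rw [← range_io2 ha, ← hy]
        refine ⟨spMap (inR k B T.R2) y, ?_⟩
        have h2 : ka2 ha B ≫ pullback.fst _ _ = spMap (inR k B T.R2) ≫ io2 ha := kap_fst _ _ _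
        rw [← Scheme.Hom.comp_apply, ← h2, Scheme.Hom.comp_apply]
    obtain ⟨w, hw⟩ := h1
    obtain ⟨v, hv, -⟩ := Scheme.exists_preimage_of_isPullback
      (kap_isPullback B (io12 ha) (io12_π ha)) _ w hw.symm
    refine ⟨v, (ka1 ha B).isOpenEmbedding.injective ?_⟩
    rw [← Scheme.Hom.comp_apply, ka12_eq1]
    exact hv
  · rintro ⟨w, rfl⟩
    refine ⟨spMap (bmap B T.j2) w, ?_⟩
    rw [← Scheme.Hom.comp_apply, ka12_eq2, ← ka12_eq1, Scheme.Hom.comp_apply]

end Charts

end Pool.Agent.MG
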