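import Pool.Agent.MG.Bub.Fam

/-!
# The bubble family: definition, properness, flatness, base change
-/

set_option linter.unusedSectionVars false

open CategoryTheory CategoryTheory.Limits AlgebraicGeometry TensorProduct

namespace Pool.Agent.MG

section

variable {n : ℕ} {k : Type} [Field k] {C : Fam n k} {T : TC k} {ct : Charted T C}
  (ha : ct.Aff) (z0 : T.R1) (hz0 : IsUnit (T.j1 z0)) (B : Type) [CommRing B] [Algebra k B] (b : B)

include hz0 in
theorem bz_unit : IsUnit (bmap B T.j1 ((1 : B) ⊗ₜ[k] z0)) := by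
  rw [bmap_tmul]
  exact hz0.map (Algebra.TensorProduct.includeRight : T.R12 →ₐ[k] B ⊗[k] T.R12)

/-- The total space of the bubble family over `B`: the blow up of `V₁ × Spec B` in `(z, b)`, glued
with `V₂ × Spec B`. -/
noncomputable def bX : Scheme.{0} :=
  have := bj1_open ha B
  have := bj2_open ha B
  Bub (bmap B T.j1) (bmap B T.j2) ((1 : B) ⊗ₜ[k] z0) (b ⊗ₜ[k] (1 : T.R1)) (bz_unit z0 hz0 B)

/-- The blown up chart. -/
noncomputable def bL : Bl ((1 : B) ⊗ₜ[k] z0) (b ⊗ₜ[k] (1 : T.R1)) ⟶ bX ha z0 hz0 B b :=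
  have := bj1_open ha B
  have := bj2_open ha B
  bubl (bmap B T.j1) (bmap B T.j2) ((1 : B) ⊗ₜ[k] z0) (b ⊗ₜ[k] (1 : T.R1)) (bz_unit z0 hz0 B)

/-- The second chart. -/
noncomputable def bR : Sp (B ⊗[k] T.R2) ⟶ bX ha z0 hz0 B b :=
  have := bj1_open ha B
  have := bj2_open ha B
  bubr (bmap B T.j1) (bmap B T.j2) ((1 : B) ⊗ₜ[k] z0) (b ⊗ₜ[k] (1 : T.R1)) (bz_unit z0 hz0 B)

/-- The intersection of the two charts in the blown up chart. -/
noncomputable def bJ : Sp (B ⊗[k] T.R12) ⟶ Bl ((1 : B) ⊗ₜ[k] z0) (b ⊗ₜ[k] (1 : T.R1)) :=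
  blj (bmap B T.j1) ((1 : B) ⊗ₜ[k] z0) (b ⊗ₜ[k] (1 : T.R1)) (bz_unit z0 hz0 B)

/-- The contraction. -/
noncomputable def bC : bX ha z0 hz0 B b ⟶ pullback C.π (spMap (algebraMap k B)) :=
  have := bj1_open ha B
  have := bj2_open ha B
  bubc (bmap B T.j1) (bmap B T.j2) ((1 : B) ⊗ₜ[k] z0) (b ⊗ₜ[k] (1 : T.R1)) (bz_unit z0 hz0 B)
    (ka1 ha B) (ka2 ha B) (ka_isPullback ha B).w

instance : IsOpenImmersion (bL ha z0 hz0 B b) := by
  have := bj1_open ha B
  have := bj2_open ha B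
  exact inferInstanceAs (IsOpenImmersion (bubl (bmap B T.j1) (bmap B T.j2) ((1 : B) ⊗ₜ[k] z0)
    (b ⊗ₜ[k] (1 : T.R1)) (bz_unit z0 hz0 B)))

instance : IsOpenImmersion (bR ha z0 hz0 B b) := by
  have := bj1_open ha B
  have := bj2_open ha B
  exact inferInstanceAs (IsOpenImmersion (bubr (bmap B T.j1) (bmap B T.j2) ((1 : B) ⊗ₜ[k] z0)
    (b ⊗ₜ[k] (1 : T.R1)) (bz_unit z0 hz0 B)))

include ha in
theorem bJ_open : IsOpenImmersion (bJ z0 hz0 B b) := by
  have := bj1_open ha B
  unfold bJ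
  infer_instance

include ha in
theorem bJ_isPullback : IsPullback (bJ z0 hz0 B b) (𝟙 _) (blπ _ _) (spMap (bmap B T.j1)) := by
  have := bj1_open ha B
  exact blj_isPullback _ _ _ _

include ha in
@[reassoc] theorem bJ_π : bJ z0 hz0 B b ≫ blπ _ _ = spMap (bmap B T.j1) := by
  have := bj1_open ha B
  exact blj_π _ _ _ _

@[reassoc] theorem b_cond : bJ z0 hz0 B b ≫ bL ha z0 hz0 B b =
    spMap (bmap B T.j2) ≫ bR ha z0 hz0 B b := by
  have := bj1_open ha B
  have := bj2_open ha B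
  exact bub_cond _ _ _ _ _

theorem b_isPullback : IsPullback (bJ z0 hz0 B b) (spMap (bmap B T.j2)) (bL ha z0 hz0 B b)
    (bR ha z0 hz0 B b) := by
  have := bj1_open ha B
  have := bj2_open ha B
  exact bub_isPullback _ _ _ _ _

theorem b_cover (x : bX ha z0 hz0 B b) :
    x ∈ Set.range (bL ha z0 hz0 B b) ∨ x ∈ Set.range (bR ha z0 hz0 B b) := by
  have := bj1_open ha B
  have := bj2_open ha B
  exact bub_cover _ _ _ _ _ x

@[reassoc (attr := simp)] theorem bL_C :
    bL ha z0 hz0 B b ≫ bC ha z0 hz0 B b = blπ _ _ ≫ ka1 ha B := by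
  have := bj1_open ha B
  have := bj2_open ha B
  exact bubl_c _ _ _ _ _ _ _ (ka_isPullback ha B).w

@[reassoc (attr := simp)] theorem bR_C : bR ha z0 hz0 B b ≫ bC ha z0 hz0 B b = ka2 ha B := by
  have := bj1_open ha B
  have := bj2_open ha B
  exact bubr_c _ _ _ _ _ _ _ (ka_isPullback ha B).w

theorem bC_isPullback1 : IsPullback (bL ha z0 hz0 B b) (blπ _ _) (bC ha z0 hz0 B b)
    (ka1 ha B) := by
  have := bj1_open ha B
  have := bj2_open ha B
  exact bubc_isPullback1 _ _ _ _ _ _ _ (ka_isPullback ha B)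

theorem bC_isPullback2 : IsPullback (bR ha z0 hz0 B b) (𝟙 _) (bC ha z0 hz0 B b)
    (ka2 ha B) := by
  have := bj1_open ha B
  have := bj2_open ha B
  exact bubc_isPullback2 _ _ _ _ _ _ _ (ka_isPullback ha B)

instance bC_proper : IsProper (bC ha z0 hz0 B b) := by
  have := bj1_open ha B
  have := bj2_open ha B
  exact bubc_proper _ _ _ _ _ _ _ (ka_isPullback ha B) (ka_cover ha B)

theorem bC_isIso (hb : IsUnit b) : IsIso (bC ha z0 hz0 B b) := by
  have := bj1_open ha B
  have := bj2_open ha B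
  exact bubc_isIso _ _ _ _ _ _ _ (ka_isPullback ha B) (ka_cover ha B)
    (hb.map (Algebra.TensorProduct.includeLeft : B →ₐ[k] B ⊗[k] T.R1))

/-- The projection to `Spec B`. -/
noncomputable def bπ : bX ha z0 hz0 B b ⟶ Sp B := bC ha z0 hz0 B b ≫ pullback.snd _ _

@[reassoc (attr := simp)] theorem bL_π : bL ha z0 hz0 B b ≫ bπ ha z0 hz0 B b =
    blπ _ _ ≫ spMap (inL k B T.R1) := by
  unfold bπ
  rw [bL_C_assoc]
  unfold ka1
  rw [kap_snd]

@[reassoc (attr := simp)] theorem bR_π : bR ha z0 hz0 B b ≫ bπ ha z0 hz0 B b =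
    spMap (inL k B T.R2) := by
  unfold bπ
  rw [bR_C_assoc]
  unfold ka2
  rw [kap_snd]

theorem bπ_proper (h : IsProper C.π) : IsProper (bπ ha z0 hz0 B b) := by
  unfold bπ
  infer_instance

theorem et_spMap {A A' : Type} [CommRing A] [CommRing A'] {f : A →+* A'} (h : f.Etale) :
    Etale (spMap f) := by
  rw [HasRingHomProperty.Spec_iff (P := @Etale)]
  exact h

theorem k_smooth {R : Type} [CommRing R] [Algebra k R] (x : R)
    (h : (Polynomial.aeval x : Polynomial k →ₐ[k] R).toRingHom.Etale) :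
    Smooth (spMap (algebraMap k R)) := by
  have h1 : algebraMap k R = (Polynomial.aeval x : Polynomial k →ₐ[k] R).toRingHom.comp
      Polynomial.C := ((Polynomial.aeval x : Polynomial k →ₐ[k] R).comp_algebraMap).symm
  rw [h1, spMap_comp]
  have := et_spMap h
  have := poly_smooth (B := k)
  infer_instance

theorem inL_smooth {R : Type} [CommRing R] [Algebra k R] (x : R)
    (h : (Polynomial.aeval x : Polynomial k →ₐ[k] R).toRingHom.Etale) :
    Smooth (spMap (inL k B R)) :=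
  MorphismProperty.of_isPullback (tens_isPullback B R) (k_smooth x h)

theorem bπ_lfp : LocallyOfFinitePresentation (bπ ha z0 hz0 B b) := by
  have h1 : Smooth (spMap (inL k B T.R1)) := inL_smooth B T.x T.etx
  have h2 : Smooth (spMap (inL k B T.R2)) := inL_smooth B T.y T.ety
  apply two_source @LocallyOfFinitePresentation (bL ha z0 hz0 B b) (bR ha z0 hz0 B b)
    (b_cover ha z0 hz0 B b)
  · rw [bL_π]
    infer_instance
  · rw [bR_π]
    infer_instance

theorem bπ_flat [IsDomain T.R1] (hz : z0 ≠ 0)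
    (het : Etale (spMap ((Polynomial.aeval z0 : Polynomial k →ₐ[k] T.R1) :
      Polynomial k →+* T.R1))) : Flat (bπ ha z0 hz0 B b) := by
  have h2 : Smooth (spMap (inL k B T.R2)) := inL_smooth B T.y T.ety
  apply two_source @Flat (bL ha z0 hz0 B b) (bR ha z0 hz0 B b) (b_cover ha z0 hz0 B b)
  · rw [bL_π]
    apply two_source @Flat (bl1 _ _) (bl2 _ _) (bl_cover _ _)
    · rw [← Category.assoc, bl1_π, ← spMap_comp]
      exact nchart_flat T.R1 z0 hz b
    · rw [← Category.assoc, bl2_π, ← spMap_comp]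
      have := ychart_smooth z0 b het
      infer_instance
  · rw [bR_π]
    infer_instance

end

end Pool.Agent.MG
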