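import Pool.Agent.MG.Bub.Fam2
import Pool.Agent.MG.Bub.BubBC

/-!
# The bubble family: sections and arrows
-/

set_option linter.unusedSectionVars false

open CategoryTheory CategoryTheory.Limits AlgebraicGeometry TensorProduct

namespace Pool.Agent.MG

section

variable {n : ℕ} {k : Type} [Field k] {C : Fam n k} {T : TC k} (ch : Cht C T) (i₀ j : Fin n)
  {B : Type} [CommRing B] [Algebra k B] (φ : T.R1 →ₐ[k] B)

/-- The coordinate at `p_j`. -/
noncomputable def zz : T.R1 := T.x - algebraMap k T.R1 (ch.pt j T.x)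

theorem zz_unit : IsUnit (T.j1 (zz ch j)) := ch.unit j

theorem pt_zz (i : Fin n) : ch.pt i (zz ch j) = ch.pt i T.x - ch.pt j T.x := by
  unfold zz
  rw [map_sub, AlgHom.commutes]
  rfl

theorem pt_zz_self : ch.pt j (zz ch j) = 0 := by rw [pt_zz, sub_self]

theorem pt_zz_ne {i : Fin n} (h : i ≠ j) : ch.pt i (zz ch j) ≠ 0 := by
  rw [pt_zz]
  exact sub_ne_zero.2 (ch.ne i j h)

/-- The points of the sections. -/
noncomputable def spt (i : Fin n) : T.R1 →ₐ[k] B :=
  if i = i₀ then φ else (Algebra.ofId k B).comp (ch.pt i)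

theorem mv_eq (i : Fin n) : mv ch i₀ (.one φ) i = .one (spt ch i₀ φ i) := by
  unfold mv spt
  split_ifs <;> rfl

theorem spt_self : spt ch i₀ φ i₀ = φ := if_pos rfl

theorem spt_ne {i : Fin n} (h : i ≠ i₀) : spt ch i₀ φ i = (Algebra.ofId k B).comp (ch.pt i) :=
  if_neg h

/-- The section of the blown up chart. -/
noncomputable def secT (hji : j ≠ i₀) (i : Fin n) :
    Sp B ⟶ Bl ((1 : B) ⊗ₜ[k] (zz ch j)) (φ (zz ch j) ⊗ₜ[k] (1 : T.R1)) :=
  if hi : i = i₀ then
    spMap (nrLift (extA φ : B ⊗[k] T.R1 →+* B) 1 (by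
      simp)) ≫ bl2 _ _
  else if hij : i = j then
    spMap (nrLift (extA ((Algebra.ofId k B).comp (ch.pt i)) : B ⊗[k] T.R1 →+* B) 0 (by
      subst hij
      simp [pt_zz_self])) ≫ bl2 _ _
  else
    spMap (nrLift (extA ((Algebra.ofId k B).comp (ch.pt i)) : B ⊗[k] T.R1 →+* B)
      (φ (zz ch j) * algebraMap k B (ch.pt i (zz ch j))⁻¹) (by
        simp only [RingHom.coe_coe, extA_tmul, AlgHom.comp_apply, one_mul, map_one, mul_one]
        change algebraMap k B _ * _ = _
        rw [mul_comm, mul_assoc, ← map_mul, inv_mul_cancel₀ (pt_zz_ne ch j hij), map_one,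
          mul_one])) ≫ bl1 _ _

theorem nrLift_comp {R S : Type} [CommRing R] [CommRing S] {z s : R} (i : R →+* S) (w : S)
    (h : i z * w = i s) : (nrLift i w h).comp (algebraMap R (NR z s)) = i :=
  RingHom.ext fun r => nrLift_of i w h r

theorem secT_π (hji : j ≠ i₀) (i : Fin n) :
    secT ch i₀ j φ hji i ≫ blπ _ _ = spMap (extA (spt ch i₀ φ i) : B ⊗[k] T.R1 →+* B) := by
  unfold secT
  split_ifs with hi hij
  · rw [Category.assoc, bl2_π, ← spMap_comp, nrLift_comp, hi, spt_self]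
  · rw [spt_ne ch i₀ φ hi, Category.assoc, bl2_π, ← spMap_comp, nrLift_comp]
  · rw [spt_ne ch i₀ φ hi, Category.assoc, bl1_π, ← spMap_comp, nrLift_comp]

theorem extA_inL {R : Type} [CommRing R] [Algebra k R] (χ : R →ₐ[k] B) :
    (extA χ : B ⊗[k] R →+* B).comp (inL k B R) = RingHom.id B := by
  ext b
  simp

theorem extA_inR {R : Type} [CommRing R] [Algebra k R] (χ : R →ₐ[k] B) :
    (extA χ : B ⊗[k] R →+* B).comp (inR k B R) = (χ : R →+* B) := by
  ext b
  simp

theorem spMap_id (A : Type) [CommRing A] : spMap (RingHom.id A) = 𝟙 (Sp A) := by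
  unfold spMap
  rw [CommRingCat.ofHom_id, Spec.map_id]

/-- The bubble family. -/
noncomputable def bubFam (hji : j ≠ i₀) : Fam n B where
  X := bX ch.aff (zz ch j) (zz_unit ch j) B (φ (zz ch j))
  π := bπ ch.aff (zz ch j) (zz_unit ch j) B (φ (zz ch j))
  σ i := secT ch i₀ j φ hji i ≫ bL ch.aff (zz ch j) (zz_unit ch j) B (φ (zz ch j))
  sec i := by
    rw [Category.assoc, bL_π, ← Category.assoc, secT_π, ← spMap_comp, extA_inL, spMap_id]

/-- The contraction followed by the projection to `C`, on the blown up chart. -/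
theorem bL_q : bL ch.aff (zz ch j) (zz_unit ch j) B (φ (zz ch j)) ≫
    bC ch.aff (zz ch j) (zz_unit ch j) B (φ (zz ch j)) ≫ pullback.fst _ _ =
      blπ _ _ ≫ spMap (inR k B T.R1) ≫ io1 ch.aff := by
  rw [bL_C_assoc]
  unfold ka1
  rw [kap_fst]

/-- The sections of the bubble and of the constant family. -/
theorem bubFam_sec (hji : j ≠ i₀) (i : Fin n) :
    (bubFam ch i₀ j φ hji).σ i ≫ bC ch.aff (zz ch j) (zz_unit ch j) B (φ (zz ch j)) ≫
      pullback.fst _ _ = tau ch.aff (.one (spt ch i₀ φ i)) := by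
  have h1 : secT ch i₀ j φ hji i ≫ (bL ch.aff (zz ch j) (zz_unit ch j) B (φ (zz ch j)) ≫
      bC ch.aff (zz ch j) (zz_unit ch j) B (φ (zz ch j)) ≫ pullback.fst _ _) =
        tau ch.aff (.one (spt ch i₀ φ i)) := by
    rw [bL_q, ← Category.assoc, secT_π, ← Category.assoc, ← spMap_comp, extA_inR, tau_one]
  rw [← h1]
  exact Category.assoc _ _ _

end

end Pool.Agent.MG
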