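import Pool.Agent.MG.Bub.Fam3

/-!
# The bubble family: base change
-/

set_option linter.unusedSectionVars false

open CategoryTheory CategoryTheory.Limits AlgebraicGeometry TensorProduct

namespace Pool.Agent.MG

section

variable {n : ℕ} {k : Type} [Field k] {C : Fam n k} {T : TC k} {ct : Charted T C}
  (ha : ct.Aff) (z0 : T.R1) (hz0 : IsUnit (T.j1 z0)) {B : Type} [CommRing B] [Algebra k B] (b : B)
  {B' : Type} [CommRing B'] [Algebra k B'] (ψ : B →ₐ[k] B') (b' : B') (hb : b' = ψ b)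

theorem bX_hom_ext {Y : Scheme.{0}} {f g : bX ha z0 hz0 B b ⟶ Y}
    (h1 : bL ha z0 hz0 B b ≫ f = bL ha z0 hz0 B b ≫ g)
    (h2 : bR ha z0 hz0 B b ≫ f = bR ha z0 hz0 B b ≫ g) : f = g := by
  have := bj1_open ha B
  have := bj2_open ha B
  exact pushout.hom_ext h1 h2

theorem tz (z0 : T.R1) : (1 : B') ⊗ₜ[k] z0 = tmap ψ T.R1 ((1 : B) ⊗ₜ[k] z0) := by
  rw [tmap_tmul, map_one]

include hb in
theorem tb : b' ⊗ₜ[k] (1 : T.R1) = tmap ψ T.R1 (b ⊗ₜ[k] (1 : T.R1)) := by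
  rw [tmap_tmul, hb]

/-- The base change map of the blown up charts. -/
noncomputable def bE : Bl ((1 : B') ⊗ₜ[k] z0) (b' ⊗ₜ[k] (1 : T.R1)) ⟶
    Bl ((1 : B) ⊗ₜ[k] z0) (b ⊗ₜ[k] (1 : T.R1)) :=
  blE (tmap ψ T.R1) _ _ _ _ (tz ψ z0) (tb b ψ b' hb)

/-- The base change map. -/
noncomputable def bF : bX ha z0 hz0 B' b' ⟶ bX ha z0 hz0 B b :=
  have := bj1_open ha B
  have := bj2_open ha B
  have := bj1_open ha B'
  have := bj2_open ha B'
  bubE (tz ψ z0) (tb b ψ b' hb) (bmap_isPullback B T.j1 ψ) (bmap_isPullback B T.j2 ψ)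

@[reassoc] theorem bL_F : bL ha z0 hz0 B' b' ≫ bF ha z0 hz0 b ψ b' hb =
    bE z0 b ψ b' hb ≫ bL ha z0 hz0 B b := by
  have := bj1_open ha B
  have := bj2_open ha B
  have := bj1_open ha B'
  have := bj2_open ha B'
  exact bubl_bubE _ _ (bmap_isPullback B T.j1 ψ) (bmap_isPullback B T.j2 ψ)

@[reassoc] theorem bR_F : bR ha z0 hz0 B' b' ≫ bF ha z0 hz0 b ψ b' hb =
    spMap (tmap ψ T.R2) ≫ bR ha z0 hz0 B b := by
  have := bj1_open ha B
  have := bj2_open ha B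
  have := bj1_open ha B'
  have := bj2_open ha B'
  exact bubr_bubE _ _ (bmap_isPullback B T.j1 ψ) (bmap_isPullback B T.j2 ψ)

theorem bF_isPullback : IsPullback (bF ha z0 hz0 b ψ b' hb) (bπ ha z0 hz0 B' b')
    (bπ ha z0 hz0 B b) (spMap (ψ : B →+* B')) := by
  have := bj1_open ha B
  have := bj2_open ha B
  have := bj1_open ha B'
  have := bj2_open ha B'
  exact bubE_isPullback _ _ (bmap_isPullback B T.j1 ψ) (bmap_isPullback B T.j2 ψ) (bL_π ha z0 hz0 B b) (bR_π ha z0 hz0 B b)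
    (bL_π ha z0 hz0 B' b') (bR_π ha z0 hz0 B' b') (tmap_isPullback ψ T.R1)
    (tmap_isPullback ψ T.R2)

/-- The map to `C`. -/
noncomputable def bq (B : Type) [CommRing B] [Algebra k B] (b : B) :
    bX ha z0 hz0 B b ⟶ C.X := bC ha z0 hz0 B b ≫ pullback.fst _ _

@[reassoc] theorem bL_q' : bL ha z0 hz0 B b ≫ bq ha z0 hz0 B b =
    blπ _ _ ≫ spMap (inR k B T.R1) ≫ io1 ha := by
  unfold bq
  rw [bL_C_assoc]
  unfold ka1
  rw [kap_fst]

@[reassoc] theorem bR_q : bR ha z0 hz0 B b ≫ bq ha z0 hz0 B b =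
    spMap (inR k B T.R2) ≫ io2 ha := by
  unfold bq
  rw [bR_C_assoc]
  unfold ka2
  rw [kap_fst]

theorem tmap_inR (R : Type) [CommRing R] [Algebra k R] :
    (tmap ψ R).comp (inR k B R) = inR k B' R := by
  ext r
  simp

@[reassoc] theorem bF_q : bF ha z0 hz0 b ψ b' hb ≫ bq ha z0 hz0 B b = bq ha z0 hz0 B' b' := by
  apply bX_hom_ext
  · rw [bL_F_assoc, bL_q', bL_q']
    have h1 : bE z0 b ψ b' hb ≫ blπ _ _ = blπ _ _ ≫ spMap (tmap ψ T.R1) :=
      (blE_isPullback (tmap ψ T.R1) _ _ _ _ (tz ψ z0) (tb b ψ b' hb)).w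
    rw [← Category.assoc, h1, Category.assoc, ← Category.assoc (spMap (tmap ψ T.R1)),
      ← spMap_comp, tmap_inR]
  · rw [bR_F_assoc, bR_q, bR_q, ← Category.assoc, ← spMap_comp, tmap_inR]

end

section

variable {n : ℕ} {k : Type} [Field k] {C : Fam n k} {T : TC k} (ch : Cht C T) (i₀ j : Fin n)
  {B : Type} [CommRing B] [Algebra k B] (φ : T.R1 →ₐ[k] B)
  {B' : Type} [CommRing B'] [Algebra k B'] (ψ : B →ₐ[k] B')

theorem spt_map (i : Fin n) : spt ch i₀ (ψ.comp φ) i = ψ.comp (spt ch i₀ φ i) := by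
  unfold spt
  split_ifs
  · rfl
  · ext a
    exact (ψ.commutes _).symm

theorem extA_tmap {R : Type} [CommRing R] [Algebra k R] (χ : R →ₐ[k] B) :
    (extA (ψ.comp χ) : B' ⊗[k] R →+* B').comp (tmap ψ R) =
      (ψ : B →+* B').comp (extA χ : B ⊗[k] R →+* B) := by
  apply tensor_hom_ext
  · intro b
    simp
  · intro r
    simp

theorem nrE_lift {R R' S S' : Type} [CommRing R] [CommRing R'] [CommRing S] [CommRing S']
    {z s : R} {z' s' : R'} (χ : R →+* R') (hz : z' = χ z) (hs : s' = χ s) (i : R →+* S) (w : S)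
    (h : i z * w = i s) (i' : R' →+* S') (w' : S') (h' : i' z' * w' = i' s') (f : S →+* S')
    (h1 : i'.comp χ = f.comp i) (h2 : w' = f w) :
    (nrLift i' w' h').comp (nrE χ z s z' s' hz hs) = f.comp (nrLift i w h) := by
  apply nr_hom_ext
  · intro r
    simp only [RingHom.comp_apply]
    rw [nrE_of, nrLift_of, nrLift_of]
    exact congrArg (fun g => g r) h1
  · simp only [RingHom.comp_apply]
    rw [nrE_w, nrLift_w, nrLift_w, h2]

theorem cv : (ψ.comp φ) (zz ch j) = ψ (φ (zz ch j)) := AlgHom.comp_apply _ _ _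

theorem ofId_comp_map (i : Fin n) : ψ.comp ((Algebra.ofId k B).comp (ch.pt i)) =
    (Algebra.ofId k B').comp (ch.pt i) :=
  AlgHom.ext fun a => ψ.commutes (ch.pt i a)

theorem secT_E (hji : j ≠ i₀) (i : Fin n) :
    secT ch i₀ j (ψ.comp φ) hji i ≫ bE (zz ch j) (φ (zz ch j)) ψ _ (cv ch j φ ψ) =
      spMap (ψ : B →+* B') ≫ secT ch i₀ j φ hji i := by
  unfold secT
  split_ifs with hi hij
  · have h1 := bl2_blE (tmap ψ T.R1) _ _ _ _ (tz ψ (zz ch j))
      (tb (φ (zz ch j)) ψ _ (cv ch j φ ψ))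
    rw [Category.assoc]
    unfold bE
    rw [h1, ← Category.assoc, ← spMap_comp, ← Category.assoc, ← spMap_comp]
    congr 2
    exact nrE_lift _ _ _ _ _ _ _ _ _ _ (extA_tmap ψ φ) (by simp)
  · have h1 := bl2_blE (tmap ψ T.R1) _ _ _ _ (tz ψ (zz ch j))
      (tb (φ (zz ch j)) ψ _ (cv ch j φ ψ))
    rw [Category.assoc]
    unfold bE
    rw [h1, ← Category.assoc, ← spMap_comp, ← Category.assoc, ← spMap_comp]
    congr 2
    refine nrE_lift _ _ _ _ _ _ _ _ _ _ ?_ (by simp)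
    have h2 := extA_tmap ψ ((Algebra.ofId k B).comp (ch.pt i))
    rw [← h2, ofId_comp_map]
  · have h1 := bl1_blE (tmap ψ T.R1) _ _ _ _ (tz ψ (zz ch j))
      (tb (φ (zz ch j)) ψ _ (cv ch j φ ψ))
    rw [Category.assoc]
    unfold bE
    rw [h1, ← Category.assoc, ← spMap_comp, ← Category.assoc, ← spMap_comp]
    congr 2
    refine nrE_lift _ _ _ _ _ _ _ _ _ _ ?_ ?_
    · have h2 := extA_tmap ψ ((Algebra.ofId k B).comp (ch.pt i))
      rw [← h2, ofId_comp_map]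
    · rw [RingHom.coe_coe, map_mul, ψ.commutes]
      rfl

/-- The base change arrow of bubble families. -/
noncomputable def bubArrow (hji : j ≠ i₀) :
    Arrow (ψ : B →+* B') (bubFam ch i₀ j (ψ.comp φ) hji) (bubFam ch i₀ j φ hji) where
  f := bF ch.aff (zz ch j) (zz_unit ch j) (φ (zz ch j)) ψ _ (cv ch j φ ψ)
  cart := bF_isPullback _ _ _ _ _ _ _
  sec i := by
    change (secT ch i₀ j (ψ.comp φ) hji i ≫ bL _ _ _ _ _) ≫ bF _ _ _ _ _ _ _ =
      spMap (ψ : B →+* B') ≫ secT ch i₀ j φ hji i ≫ bL _ _ _ _ _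
    have h1 := bL_F ch.aff (zz ch j) (zz_unit ch j) (φ (zz ch j)) ψ _ (cv ch j φ ψ)
    have h2 := secT_E ch i₀ j φ ψ hji i
    calc _ = secT ch i₀ j (ψ.comp φ) hji i ≫ (bL ch.aff (zz ch j) (zz_unit ch j) B' _ ≫
            bF ch.aff (zz ch j) (zz_unit ch j) (φ (zz ch j)) ψ _ (cv ch j φ ψ)) := Category.assoc _ _ _
      _ = secT ch i₀ j (ψ.comp φ) hji i ≫ (bE (zz ch j) (φ (zz ch j)) ψ _ (cv ch j φ ψ) ≫
            bL ch.aff (zz ch j) (zz_unit ch j) B _) := congrArg _ h1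
      _ = (secT ch i₀ j (ψ.comp φ) hji i ≫ bE (zz ch j) (φ (zz ch j)) ψ _ (cv ch j φ ψ)) ≫
            bL ch.aff (zz ch j) (zz_unit ch j) B _ := (Category.assoc _ _ _).symm
      _ = (spMap (ψ : B →+* B') ≫ secT ch i₀ j φ hji i) ≫
            bL ch.aff (zz ch j) (zz_unit ch j) B _ := by rw [h2]
      _ = _ := Category.assoc _ _ _

end

end Pool.Agent.MG
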