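import Pool.Agent.MG.Bub.Chart3

/-!
# The bubble family: sections in the charts, the arrow from the constant family
-/

set_option linter.unusedSectionVars false

open CategoryTheory CategoryTheory.Limits AlgebraicGeometry TensorProduct

namespace Pool.Agent.MG

section

variable {n : ℕ} {k : Type} [Field k] {C : Fam n k} {T : TC k} (ch : Cht C T) (i₀ j : Fin n)
  (hji : j ≠ i₀) {B : Type} [CommRing B] [Algebra k B] (φ : T.R1 →ₐ[k] B)

theorem sec_q (i : Fin n) : (bubFam ch i₀ j φ hji).σ i ≫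
    bq ch.aff (zz ch j) (zz_unit ch j) B (φ (zz ch j)) =
      spMap ((extA (spt ch i₀ φ i) : B ⊗[k] T.R1 →+* B).comp (inR k B T.R1)) ≫ io1 ch.aff := by
  have h1 := bubFam_sec ch i₀ j φ hji i
  rw [tau_one] at h1
  rw [extA_inR]
  exact h1

theorem sec_π (i : Fin n) : (bubFam ch i₀ j φ hji).σ i ≫
    bπ ch.aff (zz ch j) (zz_unit ch j) B (φ (zz ch j)) =
      spMap ((extA (spt ch i₀ φ i) : B ⊗[k] T.R1 →+* B).comp (inL k B T.R1)) := by
  rw [extA_inL, spMap_id]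
  exact (bubFam ch i₀ j φ hji).sec i

theorem sec_le (i : Fin n) : ⊤ ≤ (bubFam ch i₀ j φ hji).σ i ⁻¹ᵁ
    bU1 ch.aff (zz ch j) (zz_unit ch j) B (φ (zz ch j)) := by
  have h1 : ⊤ ≤ ((bubFam ch i₀ j φ hji).σ i ≫
      bq ch.aff (zz ch j) (zz_unit ch j) B (φ (zz ch j))) ⁻¹ᵁ ch.ct.U1 := by
    rw [sec_q]
    exact le_of_range _ fun p => by
      rw [Scheme.Hom.comp_apply]
      exact mem_pre _ _ (io1_le ch.aff) _
  exact h1

/-- The sections of the bubble family in the charts. -/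
theorem bub_is (i : Fin n) : (bubCt ch i₀ j hji φ).Is ((bubFam ch i₀ j φ hji).σ i)
    (mv ch i₀ (.one φ) i) := by
  rw [mv_eq]
  refine ⟨sec_le ch i₀ j hji φ i, fun a => ?_⟩
  have h1 := evO_T (bt1_l ch.aff (zz ch j) (zz_unit ch j) B (φ (zz ch j)))
    (bt1_r ch.aff (zz ch j) (zz_unit ch j) B (φ (zz ch j))) ((bubFam ch i₀ j φ hji).σ i)
    (sec_le ch i₀ j hji φ i) _ (sec_π ch i₀ j hji φ i) (io1 ch.aff) (io1_le ch.aff)
    (sec_q ch i₀ j hji φ i) (evO_io1 ch.aff) (1 ⊗ₜ a)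
  have h2 : (extA (spt ch i₀ φ i) : B ⊗[k] T.R1 →+* B) (1 ⊗ₜ a) = spt ch i₀ φ i a := by
    rw [RingHom.coe_coe, extA_tmul, one_mul]
  rw [h2] at h1
  refine (evO_gl _ (sec_le ch i₀ j hji φ i) _).trans ?_
  exact congrArg (gl B) h1

/-- The contraction and the sections. -/
theorem sec_C (i : Fin n) (τ : Sp B ⟶ C.X) (h : τ = tau ch.aff (.one (spt ch i₀ φ i)))
    (w : τ ≫ C.π = 𝟙 _ ≫ spMap (algebraMap k B)) :
    (secT ch i₀ j φ hji i ≫ bL ch.aff (zz ch j) (zz_unit ch j) B (φ (zz ch j))) ≫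
      bC ch.aff (zz ch j) (zz_unit ch j) B (φ (zz ch j)) = pullback.lift τ (𝟙 _) w := by
  apply pullback.hom_ext
  · rw [pullback.lift_fst, h]
    refine Eq.trans ?_ (bubFam_sec ch i₀ j φ hji i)
    exact Category.assoc _ _ _
  · rw [pullback.lift_snd]
    refine Eq.trans ?_ ((bubFam ch i₀ j φ hji).sec i)
    exact Category.assoc _ _ _

end

section

variable {n : ℕ} {k : Type} [Field k] {C : Fam n k} {T : TC k} (ch : Cht C T) (i₀ j : Fin n)
  (hji : j ≠ i₀) {B : Type} [CommRing B] [Algebra k B] (φ : T.R1 →ₐ[k] B)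
  {B' : Type} [CommRing B'] [Algebra k B'] (ψ : B →ₐ[k] B')
  (hu : IsUnit (ψ (φ (zz ch j))))

include hu in
theorem isIso_C : IsIso (bC ch.aff (zz ch j) (zz_unit ch j) B' ((ψ.comp φ) (zz ch j))) :=
  bC_isIso ch.aff (zz ch j) (zz_unit ch j) B' _ hu

/-- The map from the constant family to the bubble family. -/
noncomputable def cf : pullback C.π (spMap (algebraMap k B')) ⟶
    bX ch.aff (zz ch j) (zz_unit ch j) B (φ (zz ch j)) :=
  have := isIso_C ch j φ ψ hu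
  inv (bC ch.aff (zz ch j) (zz_unit ch j) B' ((ψ.comp φ) (zz ch j))) ≫
    bF ch.aff (zz ch j) (zz_unit ch j) (φ (zz ch j)) ψ _ (cv ch j φ ψ)

theorem cf_q : cf ch j φ ψ hu ≫ bq ch.aff (zz ch j) (zz_unit ch j) B (φ (zz ch j)) =
    pullback.fst _ _ := by
  have := isIso_C ch j φ ψ hu
  unfold cf
  rw [Category.assoc, bF_q, IsIso.inv_comp_eq]
  rfl

theorem cf_isPullback : IsPullback (cf ch j φ ψ hu) (pullback.snd C.π (spMap (algebraMap k B')))
    (bπ ch.aff (zz ch j) (zz_unit ch j) B (φ (zz ch j))) (spMap (ψ : B →+* B')) := by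
  have := isIso_C ch j φ ψ hu
  have h1 := bF_isPullback ch.aff (zz ch j) (zz_unit ch j) (φ (zz ch j)) ψ _ (cv ch j φ ψ)
  have h2 : IsPullback (inv (bC ch.aff (zz ch j) (zz_unit ch j) B' ((ψ.comp φ) (zz ch j))))
      (pullback.snd C.π (spMap (algebraMap k B')))
      (bπ ch.aff (zz ch j) (zz_unit ch j) B' ((ψ.comp φ) (zz ch j))) (𝟙 _) := by
    refine IsPullback.of_horiz_isIso ⟨?_⟩
    unfold bπ
    rw [IsIso.inv_hom_id_assoc, Category.comp_id]
  have h3 := h2.paste_horiz h1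
  rw [Category.id_comp] at h3
  exact h3

theorem cf_sec (i : Fin n) (τ : Sp B' ⟶ C.X)
    (h : τ = tau ch.aff (.one (spt ch i₀ (ψ.comp φ) i)))
    (w : τ ≫ C.π = 𝟙 _ ≫ spMap (algebraMap k B')) :
    pullback.lift τ (𝟙 _) w ≫ cf ch j φ ψ hu = spMap (ψ : B →+* B') ≫
      secT ch i₀ j φ hji i ≫ bL ch.aff (zz ch j) (zz_unit ch j) B (φ (zz ch j)) := by
  have := isIso_C ch j φ ψ hu
  rw [← sec_C ch i₀ j hji (ψ.comp φ) i τ h w]
  unfold cf
  rw [Category.assoc, IsIso.hom_inv_id_assoc, Category.assoc, bL_F, ← Category.assoc, secT_E,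
    Category.assoc]

/-- The arrow from the constant family to the bubble family. -/
noncomputable def cfArrow (τ : Fin n → (Sp B' ⟶ C.X))
    (hτ : ∀ i, τ i ≫ C.π = spMap (algebraMap k B'))
    (h : ∀ i, τ i = tau ch.aff (.one (spt ch i₀ (ψ.comp φ) i))) :
    Arrow (ψ : B →+* B') (constFam C B' τ hτ) (bubFam ch i₀ j φ hji) where
  f := cf ch j φ ψ hu
  cart := cf_isPullback ch j φ ψ hu
  sec i := cf_sec ch i₀ j hji φ ψ hu i (τ i) (h i) _

theorem cf_appLE (W : C.X.Opens) (V : (pullback C.π (spMap (algebraMap k B'))).Opens)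
    (h1 : V ≤ cf ch j φ ψ hu ⁻¹ᵁ (bq ch.aff (zz ch j) (zz_unit ch j) B (φ (zz ch j)) ⁻¹ᵁ W))
    (h2 : V ≤ pullback.fst C.π (spMap (algebraMap k B')) ⁻¹ᵁ W) (a : Γ(C.X, W)) :
    ((cf ch j φ ψ hu).appLE _ V h1).hom
      (((bq ch.aff (zz ch j) (zz_unit ch j) B (φ (zz ch j))).appLE W _ le_rfl).hom a) =
        ((pullback.fst C.π (spMap (algebraMap k B'))).appLE W V h2).hom a := by
  have h3 := Scheme.Hom.appLE_comp_appLE (cf ch j φ ψ hu)
    (bq ch.aff (zz ch j) (zz_unit ch j) B (φ (zz ch j))) W _ V le_rfl h1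
  have h4 : ((cf ch j φ ψ hu ≫ bq ch.aff (zz ch j) (zz_unit ch j) B (φ (zz ch j))).appLE W V
      (by
        intro x hx
        exact h1 hx)) = (pullback.fst C.π (spMap (algebraMap k B'))).appLE W V h2 := by
    simp only [cf_q]
  rw [← h4, ← h3]
  rfl

/-- The arrow respects the charts. -/
theorem cfArrow_ch (τ : Fin n → (Sp B' ⟶ C.X))
    (hτ : ∀ i, τ i ≫ C.π = spMap (algebraMap k B'))
    (h : ∀ i, τ i = tau ch.aff (.one (spt ch i₀ (ψ.comp φ) i)))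
    (c : Charted T (constFam C B' τ hτ)) (hc : IsBC ch.ct c) :
    ChArrow (cfArrow ch i₀ j hji φ ψ hu τ hτ h) c (bubCt ch i₀ j hji φ) where
  h1 := by
    rw [← hc.h1]
    change (cf ch j φ ψ hu ≫ bq ch.aff (zz ch j) (zz_unit ch j) B (φ (zz ch j))) ⁻¹ᵁ ch.ct.U1 = _
    rw [cf_q]
  h2 := by
    rw [← hc.h2]
    change (cf ch j φ ψ hu ≫ bq ch.aff (zz ch j) (zz_unit ch j) B (φ (zz ch j))) ⁻¹ᵁ ch.ct.U2 = _
    rw [cf_q]
  f1 r := by
    rw [← hc.f1]
    change ((cf ch j φ ψ hu).appLE _ _ _).hom (bt1 ch.aff (zz ch j) (zz_unit ch j) B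
      (φ (zz ch j)) (1 ⊗ₜ r)) = _
    rw [bt1_r]
    exact cf_appLE ch j φ ψ hu _ _ _ _ _
  f2 r := by
    rw [← hc.f2]
    change ((cf ch j φ ψ hu).appLE _ _ _).hom (bt2 ch.aff (zz ch j) (zz_unit ch j) B
      (φ (zz ch j)) (1 ⊗ₜ r)) = _
    rw [bt2_r]
    exact cf_appLE ch j φ ψ hu _ _ _ _ _
  f12 hle r := by
    rw [← hc.f12 (by rw [← hc.h1, ← hc.h2]; exact le_rfl)]
    change ((cf ch j φ ψ hu).appLE _ _ _).hom (bt12 ch.aff (zz ch j) (zz_unit ch j) B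
      (φ (zz ch j)) (1 ⊗ₜ r)) = _
    rw [bt12_r]
    exact cf_appLE ch j φ ψ hu _ _ _ _ _

end

end Pool.Agent.MG
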