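import Pool.Agent.MG.Bub.Fam5
import Pool.Agent.MG.Bub.Conn
import Pool.Agent.MG.StmtsBub
import Pool.Agent.MG.BNOD
import Pool.Agent.MG.CST

/-!
# The fibres of the bubble family
-/

set_option linter.unusedSectionVars false

open CategoryTheory CategoryTheory.Limits AlgebraicGeometry TensorProduct

namespace Pool.Agent.MG

/-- Two restrictions of a family along the same ring homomorphism are isomorphic. -/
theorem arrow_uniq {n : ℕ} {A K : Type} [CommRing A] [CommRing K] {s : A →+* K} {z z' : Fam n K}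
    {x : Fam n A} (a : Arrow s z x) (a' : Arrow s z' x) :
    ∃ f : Arrow (RingHom.id K) z z', IsIso f.f := by
  let e : z.X ≅ z'.X := a.cart.isoIsPullback _ _ a'.cart
  have e1 : e.hom ≫ a'.f = a.f := a.cart.isoIsPullback_hom_fst _ _ a'.cart
  have e2 : e.hom ≫ z'.π = z.π := a.cart.isoIsPullback_hom_snd _ _ a'.cart
  have hid : spMap (RingHom.id K) = 𝟙 (Sp K) := spMap_id K
  refine ⟨⟨e.hom, ?_, ?_⟩, inferInstance⟩
  · have : IsIso (spMap (RingHom.id K)) := by rw [hid]; infer_instance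
    refine IsPullback.of_horiz_isIso ⟨?_⟩
    rw [e2, hid, Category.comp_id]
  · intro i
    rw [hid, Category.id_comp]
    apply a'.cart.hom_ext
    · rw [Category.assoc, e1, a.sec, a'.sec]
    · rw [Category.assoc, e2, z.sec, z'.sec]

/-- Constant families over algebraically closed fields. -/
theorem const_stable (hCON : Stmt_CON) (hNOD : Stmt_NOD) (hGEN : Stmt_GEN) (hRIGW : Stmt_RIGW)
    {n : ℕ} {k : Type} [Field k] [IsAlgClosed k] {g : ℕ} {C : Fam n k} (hC : IsStable g C)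
    (hsm : SmoothOfRelativeDimension 1 C.π) {T : TC k} (ch : Cht C T) (j : Fin n)
    (hvf : ∀ (a : T.R1) (b : T.R2), T.j1 a = T.e * T.j2 b → ch.pt j a = 0 → a = 0)
    (K : Type) [Field K] [IsAlgClosed K] [Algebra k K] (τ : Fin n → (Sp K ⟶ C.X))
    (hτ : ∀ i, τ i ≫ C.π = spMap (algebraMap k K)) (hj : τ j = spMap (algebraMap k K) ≫ C.σ j)
    (hd : ∀ i i', i ≠ i' → τ i ≠ τ i') : StableCurve g (constFam C K τ hτ) := by
  have hSC := CST.stableCurve hC
  have hprop := hC.proper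
  refine ⟨?_, ?_, ?_, ?_, ?_, ?_⟩
  · have : Nonempty C.X := hSC.connected.toNonempty
    exact hCON C T ch this K _ hτ
  · exact hNOD C T ch K _ hτ
  · exact hGEN C g hprop hSC.genus K _ hτ
  · intro i i' hij h
    refine hd i i' hij ?_
    have h1 := congrArg (fun q => q ≫ pullback.fst C.π (spMap (algebraMap k K))) h
    have h2 : ∀ i, (constFam C K τ hτ).σ i ≫
        pullback.fst C.π (spMap (algebraMap k K)) = τ i :=
      fun i => pullback.lift_fst _ _ _
    exact (h2 i).symm.trans (h1.trans (h2 i'))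
  · intro i p
    refine ⟨⊤, trivial, ?_⟩
    have h1 : Smooth C.π := SmoothOfRelativeDimension.smooth 1 C.π
    have h2 : Smooth (pullback.snd C.π (spMap (algebraMap k K))) :=
      MorphismProperty.pullback_snd _ _ h1
    change Smooth ((⊤ : (pullback C.π (spMap (algebraMap k K))).Opens).ι ≫
      pullback.snd C.π (spMap (algebraMap k K)))
    infer_instance
  · intro v U
    exact hRIGW ch j hvf K τ hτ hj v U

section

variable {n : ℕ} {k : Type} [Field k] {C : Fam n k} {T : TC k} (ch : Cht C T) (i₀ j : Fin n)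
  (hji : j ≠ i₀) {K : Type} [Field K] [Algebra k K] (χ : T.R1 →ₐ[k] K)

/-- The contraction over a field, as an arrow, when the point is not `p_j`. -/
theorem bub_iso (τ : Fin n → (Sp K ⟶ C.X)) (hτ : ∀ i, τ i ≫ C.π = spMap (algebraMap k K))
    (h : ∀ i, τ i = tau ch.aff (.one (spt ch i₀ χ i))) (h0 : χ (zz ch j) ≠ 0) :
    ∃ f : Arrow (RingHom.id K) (bubFam ch i₀ j χ hji) (constFam C K τ hτ), IsIso f.f := by
  have hiso : IsIso (bC ch.aff (zz ch j) (zz_unit ch j) K (χ (zz ch j))) :=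
    bC_isIso ch.aff (zz ch j) (zz_unit ch j) K _ (isUnit_iff_ne_zero.2 h0)
  have hid : spMap (RingHom.id K) = 𝟙 (Sp K) := spMap_id K
  have : IsIso (spMap (RingHom.id K)) := by rw [hid]; infer_instance
  have hc : IsPullback (bC ch.aff (zz ch j) (zz_unit ch j) K (χ (zz ch j)))
      (bπ ch.aff (zz ch j) (zz_unit ch j) K (χ (zz ch j)))
      (pullback.snd C.π (spMap (algebraMap k K))) (spMap (RingHom.id K)) := by
    refine IsPullback.of_horiz_isIso ⟨?_⟩
    rw [hid, Category.comp_id]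
    rfl
  refine ⟨⟨bC ch.aff (zz ch j) (zz_unit ch j) K (χ (zz ch j)), hc, fun i => ?_⟩, hiso⟩
  have h1 := sec_C ch i₀ j hji χ i (τ i) (h i) (by rw [hτ, Category.id_comp])
  rw [hid]
  exact h1.trans (Category.id_comp _).symm

/-- The sections are distinct if the point is different from the marked points. -/
theorem tau_ne (h : ∀ i, i ≠ i₀ → χ (T.x - algebraMap k T.R1 (ch.pt i T.x)) ≠ 0) (i i' : Fin n)
    (hii : i ≠ i') : tau ch.aff (.one (spt ch i₀ χ i)) ≠ tau ch.aff (.one (spt ch i₀ χ i')) := by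
  intro he
  rw [tau_one, tau_one, cancel_mono] at he
  have h1 := congrArg (fun f => f T.x) (spMap_inj he)
  have h2 : spt ch i₀ χ i T.x = spt ch i₀ χ i' T.x := h1
  have hpt : ∀ i, ((Algebra.ofId k K).comp (ch.pt i)) T.x = algebraMap k K (ch.pt i T.x) :=
    fun i => rfl
  by_cases hi : i = i₀
  · have hi' : i' ≠ i₀ := fun h => hii (hi.trans h.symm)
    rw [hi, spt_self, spt_ne ch i₀ χ hi', hpt] at h2
    apply h i' hi'
    rw [map_sub, AlgHom.commutes, h2, sub_self]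
  · by_cases hi' : i' = i₀
    · rw [hi', spt_self, spt_ne ch i₀ χ hi, hpt] at h2
      apply h i hi
      rw [map_sub, AlgHom.commutes, h2, sub_self]
    · rw [spt_ne ch i₀ χ hi, spt_ne ch i₀ χ hi', hpt, hpt] at h2
      exact ch.ne i i' hii ((algebraMap k K).injective h2)

end

/-- The fibres of the bubble family. -/
theorem bub_fib (hFIS : Stmt_FIS) (hCON : Stmt_CON) (hNOD : Stmt_NOD) (hGEN : Stmt_GEN)
    (hRIGW : Stmt_RIGW) (hTAU : Stmt_TAU) (hBGEN : Stmt_BGEN) (hBNOD : Stmt_BNOD)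
    (hBSEC : Stmt_BSEC) (hBRIGW : Stmt_BRIGW)
    {n : ℕ} {k : Type} [Field k] [IsAlgClosed k] {g : ℕ} {C : Fam n k} (hC : IsStable g C)
    (hsm : SmoothOfRelativeDimension 1 C.π) {T : TC k} (ch : Cht C T) (i₀ j : Fin n)
    (hji : j ≠ i₀)
    (hvf : ∀ (a : T.R1) (b : T.R2), T.j1 a = T.e * T.j2 b → ch.pt j a = 0 → a = 0)
    {K : Type} [Field K] [IsAlgClosed K] [Algebra k K] (χ : T.R1 →ₐ[k] K)
    (hχ : ∀ i, i ≠ i₀ → i ≠ j → χ (T.x - algebraMap k T.R1 (ch.pt i T.x)) ≠ 0) :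
    StableCurve g (bubFam ch i₀ j χ hji) := by
  obtain ⟨ht1, ht2, -, ht4⟩ := hTAU ch.ct ch.aff
  have hSC := CST.stableCurve hC
  have hprop := hC.proper
  have hτ : ∀ i, tau ch.aff (.one (spt ch i₀ χ i)) ≫ C.π = spMap (algebraMap k K) :=
    fun i => ht1 K _
  have hG := hGEN C g hprop hSC.genus K _ hτ
  by_cases h0 : χ (zz ch j) = 0
  · obtain ⟨hs1, hs2⟩ := hBSEC ch i₀ j hji K χ h0
    exact ⟨charted_connected ch (bubCt ch i₀ j hji χ), hBNOD ch j K _ h0,
      hBGEN ch j hprop K _ h0 g hG, hs1, hs2, hBRIGW ch j hvf i₀ hji K χ h0⟩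
  · obtain ⟨f, hf⟩ := bub_iso ch i₀ j hji χ _ hτ (fun i => rfl) h0
    refine hFIS.2 g _ _ f hf ?_
    refine const_stable hCON hNOD hGEN hRIGW hC hsm ch j hvf K _ hτ ?_ ?_
    · have h1 : C.σ j = tau ch.aff (.one (ch.pt j)) := ht4 _ (.one (ch.pt j)) (C.sec j) (ch.is j)
      have h2 := ht2 k K (Algebra.ofId k K) (.one (ch.pt j))
      rw [h1, spt_ne ch i₀ χ hji]
      exact h2
    · intro i i' hii
      refine tau_ne ch i₀ χ (fun i hi => ?_) i i' hii
      by_cases hij : i = j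
      · rw [hij]
        exact h0
      · exact hχ i hi hij

/-- BUB, with the weaker hypothesis on vector fields. -/
def Stmt_BUBW : Prop :=
  ∀ {n : ℕ} {k : Type} [Field k] [IsAlgClosed k] (g : ℕ) (C : Fam n k), IsStable g C →
    SmoothOfRelativeDimension 1 C.π → ∀ (T : TC k) (ch : Cht C T),
    ∀ (i₀ j : Fin n), j ≠ i₀ →
    (∀ (a : T.R1) (b : T.R2), T.j1 a = T.e * T.j2 b → ch.pt j a = 0 → a = 0) →
    ∀ (B : Type) [CommRing B] [Algebra k B] (φ : T.R1 →ₐ[k] B),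
    (∀ i, i ≠ i₀ → i ≠ j → IsUnit (φ (T.x - algebraMap k T.R1 (ch.pt i T.x)))) →
    ∃ (x : Fam n B) (ct : Charted T x), IsStable g x ∧
      (∀ i, ct.Is (x.σ i) (mv ch i₀ (.one φ) i)) ∧
      ∀ (B' : Type) [CommRing B'] [Algebra k B'] (ψ : B →ₐ[k] B'),
        IsUnit (ψ (φ (T.x - algebraMap k T.R1 (ch.pt j T.x)))) →
        ∀ (hτ : ∀ i, tau ch.aff ((mv ch i₀ (.one φ) i).map ψ) ≫ C.π =
          spMap (algebraMap k B')) (c : Charted T (constFam C B' _ hτ)), IsBC ch.ct c →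
        ∃ a : Arrow (ψ : B →+* B') (constFam C B' _ hτ) x, ChArrow a c ct

theorem t_BUBW (hFIS : Stmt_FIS) (hCON : Stmt_CON) (hNOD : Stmt_NOD) (hGEN : Stmt_GEN)
    (hRIGW : Stmt_RIGW) (hTAU : Stmt_TAU) (hBGEN : Stmt_BGEN) (hBNOD : Stmt_BNOD)
    (hBSEC : Stmt_BSEC) (hBRIGW : Stmt_BRIGW) : Stmt_BUBW := by
  intro n k _ _ g C hC hsm T ch i₀ j hji hvf B _ _ φ hφ
  refine ⟨bubFam ch i₀ j φ hji, bubCt ch i₀ j hji φ, ⟨?_, ?_, ?_, ?_⟩, bub_is ch i₀ j hji φ, ?_⟩
  · exact bπ_proper _ _ _ _ _ hC.proper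
  · have := dom1 ch
    exact bπ_flat _ _ _ _ _ (zz_ne ch j) (et_spMap (BNOD.et_shift T.x T.etx _))
  · exact bπ_lfp _ _ _ _ _
  · intro K _ _ s z ⟨a⟩
    let _ : Algebra k K := (s.comp (algebraMap k B)).toAlgebra
    let ψ : B →ₐ[k] K := { s with commutes' := fun _ => rfl }
    obtain ⟨f, hf⟩ := arrow_uniq (s := s) a (bubArrow ch i₀ j φ ψ hji)
    refine hFIS.2 g z _ f hf ?_
    refine bub_fib hFIS hCON hNOD hGEN hRIGW hTAU hBGEN hBNOD hBSEC hBRIGW hC hsm ch i₀ j hji hvf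
      (ψ.comp φ) (fun i hi hij => ?_)
    exact ((hφ i hi hij).map ψ).ne_zero
  · intro B' _ _ ψ hu hτ c hc
    have h : ∀ i, tau ch.aff ((mv ch i₀ (.one φ) i).map ψ) =
        tau ch.aff (.one (spt ch i₀ (ψ.comp φ) i)) := by
      intro i
      rw [mv_eq, spt_map]
      rfl
    exact ⟨cfArrow ch i₀ j hji φ ψ hu _ hτ h, cfArrow_ch ch i₀ j hji φ ψ hu _ hτ h c hc⟩

theorem t_BUB (h : Stmt_BUBW) : Stmt_BUB := by
  intro n k _ _ g C hC hsm T ch hvf i₀ j hji B _ _ φ hφ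
  exact h g C hC hsm T ch i₀ j hji (fun a b hab _ => hvf a b hab) B φ hφ

end Pool.Agent.MG
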