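import Pool.Agent.MG.Bub.Fam4

/-!
# The rings of the bubble over `b = 0`
-/

set_option linter.unusedSectionVars false

open CategoryTheory CategoryTheory.Limits AlgebraicGeometry TensorProduct

namespace Pool.Agent.MG

section

variable {n : ℕ} {k : Type} [Field k] {C : Fam n k} {T : TC k} (ch : Cht C T) (j : Fin n)
  (B : Type) [CommRing B] [Algebra k B]

/-- The coordinate at `p_j` on the first chart of the constant family. -/
noncomputable abbrev zB : B ⊗[k] T.R1 := (1 : B) ⊗ₜ[k] (zz ch j)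

/-- Evaluation at `p_j`. -/
noncomputable def evB : B ⊗[k] T.R1 →+* B :=
  (extA ((Algebra.ofId k B).comp (ch.pt j)) : B ⊗[k] T.R1 →+* B)

@[simp] theorem evB_tmul (b : B) (r : T.R1) :
    evB ch j B (b ⊗ₜ r) = b * algebraMap k B (ch.pt j r) := by
  unfold evB
  rw [RingHom.coe_coe, extA_tmul]
  rfl

theorem evB_z : evB ch j B (zB ch j B) = 0 := by
  rw [evB_tmul, pt_zz_self, map_zero, mul_zero]

/-- `x - x(p_j)` generates the ideal of `p_j`, over `B`. -/
theorem evB_gen (a : B ⊗[k] T.R1) : ∃ c, a = (evB ch j B a) ⊗ₜ[k] (1 : T.R1) + zB ch j B * c := by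
  induction a with
  | zero => exact ⟨0, by simp⟩
  | tmul b r =>
    have h1 : ch.pt j (r - algebraMap k T.R1 (ch.pt j r)) = 0 := by
      rw [map_sub, AlgHom.commutes]
      exact sub_self _
    obtain ⟨c, hc⟩ := ch.gen j _ h1
    refine ⟨b ⊗ₜ c, ?_⟩
    rw [evB_tmul, Algebra.TensorProduct.tmul_mul_tmul, one_mul]
    change _ = _ + b ⊗ₜ[k] ((T.x - algebraMap k T.R1 (ch.pt j T.x)) * c)
    rw [← hc, TensorProduct.tmul_sub]
    have h2 : b ⊗ₜ[k] (algebraMap k T.R1 (ch.pt j r)) =
        (b * algebraMap k B (ch.pt j r)) ⊗ₜ[k] (1 : T.R1) := by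
      have h3 : b ⊗ₜ[k] (algebraMap k T.R1 (ch.pt j r)) =
          (b ⊗ₜ[k] (1 : T.R1)) * ((1 : B) ⊗ₜ[k] (algebraMap k T.R1 (ch.pt j r))) := by simp
      rw [h3, tens_scalar]
      simp
    rw [h2]
    ring
  | add u v hu hv =>
    obtain ⟨c, hc⟩ := hu
    obtain ⟨d, hd⟩ := hv
    refine ⟨c + d, ?_⟩
    rw [map_add, TensorProduct.add_tmul, mul_add]
    calc u + v = (evB ch j B u ⊗ₜ[k] (1 : T.R1) + zB ch j B * c) +
          (evB ch j B v ⊗ₜ[k] (1 : T.R1) + zB ch j B * d) := by rw [← hc, ← hd]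
      _ = _ := by ring

theorem evB_ker (a : B ⊗[k] T.R1) (h : evB ch j B a = 0) : ∃ c, a = zB ch j B * c := by
  obtain ⟨c, hc⟩ := evB_gen ch j B a
  rw [h, TensorProduct.zero_tmul, zero_add] at hc
  exact ⟨c, hc⟩

include ch in
theorem dom1 : IsDomain T.R1 := by
  have := ch.dom
  exact Function.Injective.isDomain (T.j1 : T.R1 →+* T.R12) ch.inj1

include ch in
theorem dom2 : IsDomain T.R2 := by
  have := ch.dom
  exact Function.Injective.isDomain (T.j2 : T.R2 →+* T.R12) ch.inj2

theorem zz_ne : zz ch j ≠ 0 := by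
  intro h
  have := ch.dom
  have h1 := zz_unit ch j
  rw [h, map_zero] at h1
  exact not_isUnit_zero h1

/-- `x - x(p_j)` is a non zero divisor. -/
theorem zB_reg (a : B ⊗[k] T.R1) (h : zB ch j B * a = 0) : a = 0 := by
  have := dom1 ch
  have h1 : Function.Injective (LinearMap.mulLeft k (zz ch j)) := by
    intro u v huv
    exact mul_left_cancel₀ (zz_ne ch j) huv
  have h2 : Function.Injective (LinearMap.lTensor B (LinearMap.mulLeft k (zz ch j))) :=
    Module.Flat.lTensor_preserves_injective_linearMap _ h1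
  have h3 : ∀ a : B ⊗[k] T.R1, (LinearMap.lTensor B (LinearMap.mulLeft k (zz ch j))) a =
      zB ch j B * a := by
    intro a
    induction a with
    | zero => simp
    | tmul b r =>
      rw [LinearMap.lTensor_tmul, Algebra.TensorProduct.tmul_mul_tmul, one_mul]
      rfl
    | add u v hu hv => rw [map_add, hu, hv, mul_add]
  apply h2
  rw [h3, h, map_zero]

end

section Zero

open Polynomial

variable {n : ℕ} {k : Type} [Field k] {Cv : Fam n k} {T : TC k} (ch : Cht Cv T) (j : Fin n)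
  (B : Type) [CommRing B] [Algebra k B] (b : B) (hb : b = 0)

/-- The ring `(B ⊗ R₁)[w]/(z w - b)` of the first chart of the bubble. -/
abbrev N1 : Type := NR (zB ch j B) (b ⊗ₜ[k] (1 : T.R1))

/-- The ring `(B ⊗ R₁)[Y]/(b Y - z)` of the second chart of the bubble. -/
abbrev N2 : Type := NR (b ⊗ₜ[k] (1 : T.R1)) (zB ch j B)

/-- For `b = 0`: restriction to the proper transform `w = 0`. -/
noncomputable def toA : N1 ch j B b →+* B ⊗[k] T.R1 :=
  nrLift (RingHom.id _) 0 (by simp [hb])

@[simp] theorem toA_of (a : B ⊗[k] T.R1) : toA ch j B b hb (algebraMap _ (N1 ch j B b) a) = a :=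
  nrLift_of _ _ _ _

@[simp] theorem toA_w : toA ch j B b hb (nw _ _) = 0 := nrLift_w _ _ _

/-- For `b = 0`: restriction to the exceptional line `z = 0`. -/
noncomputable def toW : N1 ch j B b →+* B[X] :=
  nrLift ((C : B →+* B[X]).comp (evB ch j B)) X (by
    rw [RingHom.comp_apply, RingHom.comp_apply, evB_z, hb]
    simp)

@[simp] theorem toW_of (a : B ⊗[k] T.R1) :
    toW ch j B b hb (algebraMap _ (N1 ch j B b) a) = C (evB ch j B a) :=
  nrLift_of _ _ _ _

@[simp] theorem toW_w : toW ch j B b hb (nw _ _) = X := nrLift_w _ _ _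

/-- For `b = 0`: the second chart is a line. -/
noncomputable def toY : N2 ch j B b →+* B[X] :=
  nrLift ((C : B →+* B[X]).comp (evB ch j B)) X (by
    rw [RingHom.comp_apply, RingHom.comp_apply, evB_z, hb]
    simp)

@[simp] theorem toY_of (a : B ⊗[k] T.R1) :
    toY ch j B b hb (algebraMap _ (N2 ch j B b) a) = C (evB ch j B a) :=
  nrLift_of _ _ _ _

@[simp] theorem toY_w : toY ch j B b hb (nw _ _) = X := nrLift_w _ _ _

include hb in
theorem N1_zw : algebraMap _ (N1 ch j B b) (zB ch j B) * nw _ _ = 0 := by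
  rw [nw_rel]
  have h : b ⊗ₜ[k] (1 : T.R1) = 0 := by rw [hb, TensorProduct.zero_tmul]
  exact (congrArg (algebraMap _ (N1 ch j B b)) h).trans (map_zero _)

include hb in
theorem N2_z : algebraMap _ (N2 ch j B b) (zB ch j B) = 0 := by
  rw [← nw_rel]
  have h : b ⊗ₜ[k] (1 : T.R1) = 0 := by rw [hb, TensorProduct.zero_tmul]
  rw [(congrArg (algebraMap _ (N2 ch j B b)) h).trans (map_zero _), zero_mul]

/-- Every element of the first chart ring is `a + p(w) w`. -/
theorem N1_form (u : N1 ch j B b) : ∃ (a : B ⊗[k] T.R1) (p : (B ⊗[k] T.R1)[X]),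
    u = algebraMap _ (N1 ch j B b) a +
      nw _ _ * (p.eval₂ (algebraMap _ (N1 ch j B b)) (nw _ _)) := by
  obtain ⟨F, rfl⟩ := AdjoinRoot.mk_surjective u
  refine ⟨F.coeff 0, F.divX, ?_⟩
  have h1 : (AdjoinRoot.mk _ F : N1 ch j B b) = F.eval₂ (algebraMap _ (N1 ch j B b)) (nw _ _) := by
    rw [← AdjoinRoot.aeval_eq, aeval_def]
  rw [h1]
  conv_lhs => rw [← Polynomial.divX_mul_X_add F]
  rw [eval₂_add, eval₂_mul, eval₂_X, eval₂_C]
  ring

theorem toA_ker (u : N1 ch j B b) (h : toA ch j B b hb u = 0) : ∃ v, u = nw _ _ * v := by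
  obtain ⟨a, p, hp⟩ := N1_form ch j B b u
  have h1 := h
  rw [hp, map_add, map_mul, toA_of, toA_w, zero_mul, add_zero] at h1
  rw [h1, map_zero, zero_add] at hp
  exact ⟨_, hp⟩

theorem toW_eval (p : (B ⊗[k] T.R1)[X]) :
    toW ch j B b hb (p.eval₂ (algebraMap _ (N1 ch j B b)) (nw _ _)) =
      p.map (evB ch j B) := by
  rw [hom_eval₂, toW_w, ← Polynomial.eval₂_C_X (p := p.map (evB ch j B)), eval₂_map]
  congr 1
  exact RingHom.ext fun a => toW_of ch j B b hb a

/-- The kernel of the restriction to the exceptional line. -/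
theorem toW_ker (u : N1 ch j B b) (h : toW ch j B b hb u = 0) :
    ∃ v, u = algebraMap _ (N1 ch j B b) (zB ch j B) * v := by
  obtain ⟨F, rfl⟩ := AdjoinRoot.mk_surjective u
  have h1 : (AdjoinRoot.mk _ F : N1 ch j B b) = F.eval₂ (algebraMap _ (N1 ch j B b)) (nw _ _) := by
    rw [← AdjoinRoot.aeval_eq, aeval_def]
  rw [h1, toW_eval] at h
  have h2 : ∀ i, evB ch j B (F.coeff i) = 0 := by
    intro i
    have := congrArg (fun p => p.coeff i) h
    simpa using this
  choose c hc using fun i => evB_ker ch j B _ (h2 i)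
  refine ⟨∑ i ∈ F.support, algebraMap _ (N1 ch j B b) (c i) * nw _ _ ^ i, ?_⟩
  rw [h1, eval₂_eq_sum, Polynomial.sum_def, Finset.mul_sum]
  apply Finset.sum_congr rfl
  intro i _
  rw [hc i, map_mul]
  have h3 : (zB ch j B * c i) = F.coeff i := (hc i).symm
  ring

/-- The first chart ring is contained in the product of the rings of the two components. -/
theorem toAW_injective (u : N1 ch j B b) (h1 : toA ch j B b hb u = 0)
    (h2 : toW ch j B b hb u = 0) : u = 0 := by
  obtain ⟨v, rfl⟩ := toW_ker ch j B b hb u h2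
  rw [map_mul, toA_of] at h1
  obtain ⟨w, rfl⟩ := toA_ker ch j B b hb v (zB_reg ch j B _ h1)
  rw [← mul_assoc, N1_zw ch j B b hb, zero_mul]

/-- For `b = 0`: the second chart ring is the polynomial ring. -/
theorem toY_bijective : Function.Bijective (toY ch j B b hb) := by
  let G : B[X] →+* N2 ch j B b :=
    eval₂RingHom ((algebraMap _ (N2 ch j B b)).comp (inL k B T.R1)) (nw _ _)
  have hGC : ∀ c : B, G (C c) = algebraMap _ (N2 ch j B b) (c ⊗ₜ[k] (1 : T.R1)) :=
    fun c => eval₂_C _ _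
  have hGX : G X = nw _ _ := eval₂_X _ _
  have h1 : (toY ch j B b hb).comp G = RingHom.id _ := by
    apply Polynomial.ringHom_ext
    · intro c
      rw [RingHom.comp_apply, hGC, toY_of, evB_tmul, map_one, map_one, mul_one]
      rfl
    · rw [RingHom.comp_apply, hGX, toY_w]
      rfl
  have h2 : G.comp (toY ch j B b hb) = RingHom.id _ := by
    apply nr_hom_ext
    · intro a
      rw [RingHom.comp_apply, toY_of, hGC, RingHom.id_apply]
      obtain ⟨c, hc⟩ := evB_gen ch j B a
      conv_rhs => rw [hc]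
      rw [map_add, map_mul, N2_z ch j B b hb, zero_mul, add_zero]
    · rw [RingHom.comp_apply, toY_w, hGX]
      rfl
  refine ⟨fun u v huv => ?_, fun p => ⟨G p, congrArg (fun f => f p) h1⟩⟩
  have := congrArg G huv
  have h3 : ∀ a, G (toY ch j B b hb a) = a := fun a => congrArg (fun f => f a) h2
  rwa [h3, h3] at this

end Zero

end Pool.Agent.MG
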